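import Pool.Agent.Helper17.BR.Res
import Pool.Agent.Helper4.CB.Defs

/-!
# BR, pieces F1, F2: a field over which all residue degrees at the places which are not bad are
divisible by `m`
-/

set_option autoImplicit false

namespace Pool.Agent.Helper17.BR

open NumberField Polynomial

/-- over a finite field there are monic irreducible polynomials of every positive degree -/
theorem exists_irreducible (k : Type*) [Field k] [Finite k] {m : ℕ} (hm : 0 < m) :
    ∃ g : k[X], g.Monic ∧ g.natDegree = m ∧ Irreducible g := by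
  obtain ⟨r, hr⟩ := CharP.exists k
  have hrp : r.Prime := CharP.char_is_prime k r
  have : Fact r.Prime := ⟨hrp⟩
  have : NeZero m := ⟨hm.ne'⟩
  obtain ⟨α, hα⟩ := Field.exists_primitive_element k (FiniteField.Extension k r m)
  have hint : IsIntegral k α := Algebra.IsIntegral.isIntegral α
  refine ⟨minpoly k α, minpoly.monic hint, ?_, minpoly.irreducible hint⟩
  rw [← IntermediateField.adjoin.finrank hint, hα, IntermediateField.finrank_top',
    FiniteField.finrank_extension]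

/-- a monic polynomial over the integers of `K` of degree `m` which is irreducible modulo `p` -/
theorem exists_inert {K : Type*} [Field K] [NumberField K] {p : Ideal (𝓞 K)} (hp : p.IsPrime)
    (hp0 : p ≠ ⊥) {m : ℕ} (hm : 0 < m) :
    ∃ g : (𝓞 K)[X], g.Monic ∧ g.natDegree = m ∧ Irreducible (g.map (Ideal.Quotient.mk p)) := by
  have hmax := hp.isMaximal hp0
  let _ : Field (𝓞 K ⧸ p) := Ideal.Quotient.field p
  have : Finite (𝓞 K ⧸ p) := Ideal.finiteQuotientOfFreeOfNeBot p hp0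
  obtain ⟨g, h1, h2, h3⟩ := exists_irreducible (𝓞 K ⧸ p) hm
  have hl : g ∈ lifts (Ideal.Quotient.mk p) := by
    rw [mem_lifts]
    exact Polynomial.map_surjective _ Ideal.Quotient.mk_surjective g
  obtain ⟨g', h4, h5, h6⟩ := lifts_and_natDegree_eq_and_monic hl h1
  exact ⟨g', h6, by rw [h5, h2], by rw [h4]; exact h3⟩

/-- **F1.** residue degrees over a field with enough roots of unity and with a root of an
irreducible polynomial for each of the finitely many primes over `m` -/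
theorem dvd_resdeg {K L : Type*} [Field K] [NumberField K] [Field L] [NumberField L]
    [Algebra K L] {m J : ℕ} (hm : 0 < m)
    (hζ : ∀ l : ℕ, l.Prime → l ∣ m → ∃ ζ : K, IsPrimitiveRoot ζ l)
    (h4 : 2 ∣ m → ∃ i : K, IsPrimitiveRoot i 4)
    (hL : ∀ l : ℕ, l.Prime → l ∣ m → ∃ ζ : L, IsPrimitiveRoot ζ (l ^ (J + m)))
    {q : Ideal (𝓞 L)} (hq : q.IsPrime) (hq0 : q ≠ ⊥)
    (hin : (m : 𝓞 L) ∈ q → ∃ g : (𝓞 K)[X], g.Monic ∧ g.natDegree = m ∧
      Irreducible (g.map (Ideal.Quotient.mk (q.comap (algebraMap (𝓞 K) (𝓞 L))))) ∧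
      ∃ θ : 𝓞 L, aeval θ g = 0)
    (hbad : ∀ l : ℕ, l.Prime → l ∣ m →
      ¬ Ideal.absNorm (q.comap (algebraMap (𝓞 K) (𝓞 L))) ≡ 1 [MOD l ^ J]) :
    ∃ f : ℕ, m ∣ f ∧ 0 < f ∧
      Ideal.absNorm q = Ideal.absNorm (q.comap (algebraMap (𝓞 K) (𝓞 L))) ^ f := by
  obtain ⟨f, hf0, hf, hg⟩ := exists_resdeg (K := K) hq hq0
  refine ⟨f, ?_, hf0, hf⟩
  by_cases hmq : (m : 𝓞 L) ∈ q
  · obtain ⟨g, h1, h2, h3, h4⟩ := hin hmq
    rw [← h2]
    exact hg g h1 h3 h4
  set p := q.comap (algebraMap (𝓞 K) (𝓞 L)) with hpq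
  have hp : p.IsPrime := Ideal.comap_isPrime _ _
  have hp0 : p ≠ ⊥ := Pool.Agent.Helper3.CB.comap_ne_bot hq0
  have hN : 1 ≤ Ideal.absNorm p := by
    rw [Nat.one_le_iff_ne_zero, Ne, Ideal.absNorm_eq_zero_iff]
    exact hp0
  have hlq : ∀ l : ℕ, l ∣ m → (l : 𝓞 L) ∉ q := by
    rintro l ⟨c, rfl⟩ h
    apply hmq
    push_cast
    exact q.mul_mem_right _ h
  have hlp : ∀ l : ℕ, l ∣ m → (l : 𝓞 K) ∉ p := by
    intro l hl h
    apply hlq l hl
    rw [hpq, Ideal.mem_comap, map_natCast] at h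
    exact h
  have key : ∀ l : ℕ, l.Prime → l ∣ m → l ^ m ∣ f := by
    intro l hl hlm
    obtain ⟨ζ, hζ'⟩ := hζ l hl hlm
    obtain ⟨ξ, hξ⟩ := hL l hl hlm
    have h1 : l ∣ Ideal.absNorm p - 1 := by
      have := dvd_absNorm_sub_one (J := 1) hl (by rwa [pow_one]) hp hp0 (hlp l hlm)
      rwa [pow_one] at this
    have h2 : l ^ (J + m) ∣ Ideal.absNorm p ^ f - 1 := by
      rw [← hf]
      exact dvd_absNorm_sub_one hl hξ hq hq0 (hlq l hlm)
    refine pow_dvd_of_pow_dvd hl hN h1 ?_ ?_ h2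
    · rintro rfl
      obtain ⟨i, hi⟩ := h4 hlm
      have := dvd_absNorm_sub_one (J := 2) Nat.prime_two (by norm_num; exact hi) hp hp0
        (hlp 2 hlm)
      simpa using this
    · intro h3
      apply hbad l hl hlm
      exact ((Nat.modEq_iff_dvd' hN).2 h3).symm
  rw [← Nat.factorization_prime_le_iff_dvd hm.ne' hf0.ne']
  intro l hl
  by_cases hlm : l ∣ m
  · have h1 := key l hl hlm
    have h2 : m.factorization l ≤ m := by
      have h3 : l ^ m.factorization l ≤ m := Nat.le_of_dvd hm (Nat.ordProj_dvd m l)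
      have h5 : m.factorization l < l ^ m.factorization l := Nat.lt_pow_self hl.one_lt
      omega
    exact h2.trans ((hl.pow_dvd_iff_le_factorization hf0.ne').1 h1)
  · rw [Nat.factorization_eq_zero_of_not_dvd hlm]
    exact Nat.zero_le _

/-- **F2.** the field `L` -/
theorem exists_field (K : Type) [Field K] [NumberField K] (m J : ℕ) (hm : 0 < m)
    (hζ : ∀ l : ℕ, l.Prime → l ∣ m → ∃ ζ : K, IsPrimitiveRoot ζ l)
    (h4 : 2 ∣ m → ∃ i : K, IsPrimitiveRoot i 4) :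
    ∃ (L : Type) (_ : Field L) (_ : NumberField L) (_ : Algebra K L), FiniteDimensional K L ∧
      (∀ l : ℕ, l.Prime → l ∣ m → ∃ ζ : L, IsPrimitiveRoot ζ (l ^ (J + m))) ∧
      ∀ q : Ideal (𝓞 L), q.IsPrime → q ≠ ⊥ →
        (∀ l : ℕ, l.Prime → l ∣ m →
          ¬ Ideal.absNorm (q.comap (algebraMap (𝓞 K) (𝓞 L))) ≡ 1 [MOD l ^ J]) →
        ∃ f : ℕ, m ∣ f ∧ 0 < f ∧
          Ideal.absNorm q = Ideal.absNorm (q.comap (algebraMap (𝓞 K) (𝓞 L))) ^ f := by
  classical
  let A := AlgebraicClosure K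
  -- roots of unity
  have hz : ∀ l : ℕ, ∃ ζ : A, l.Prime → IsPrimitiveRoot ζ (l ^ (J + m)) := by
    intro l
    by_cases hl : l.Prime
    · have hne : NeZero ((l ^ (J + m) : ℕ) : A) := ⟨by exact_mod_cast pow_ne_zero _ hl.ne_zero⟩
      obtain ⟨ζ, hζ⟩ := HasEnoughRootsOfUnity.exists_primitiveRoot A (l ^ (J + m))
      exact ⟨ζ, fun _ => hζ⟩
    · exact ⟨0, fun h => absurd h hl⟩
  choose ξ hξ using hz
  -- inert polynomials
  have hg : ∀ p : Pool.Agent.Helper4.CB.Pl K, ∃ (g : (𝓞 K)[X]) (θ : A), g.Monic ∧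
      g.natDegree = m ∧ Irreducible (g.map (Ideal.Quotient.mk p.asIdeal)) ∧ aeval θ g = 0 := by
    intro p
    obtain ⟨g, h1, h2, h3⟩ := exists_inert p.isPrime p.ne_bot hm
    obtain ⟨θ, hθ⟩ := IsAlgClosed.exists_aeval_eq_zero A (g.map (algebraMap (𝓞 K) K)) (by
      rw [h1.degree_map, degree_eq_natDegree h1.ne_zero, h2]
      exact_mod_cast hm.ne')
    refine ⟨g, θ, h1, h2, h3, ?_⟩
    rwa [aeval_map_algebraMap] at hθ
  choose g θ hg1 hg2 hg3 hg4 using hg
  let B := Ideal.absNorm (Ideal.span {(m : 𝓞 K)})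
  let S : Finset A := m.primeFactors.image ξ ∪ (Pool.Agent.Helper4.CB.plLE K B).image θ
  let L : IntermediateField K A := IntermediateField.adjoin K (S : Set A)
  have hLfin : FiniteDimensional K L :=
    IntermediateField.finiteDimensional_adjoin fun x _ => Algebra.IsIntegral.isIntegral x
  have hLn : NumberField L := NumberField.of_module_finite K L
  have hSL : ∀ x ∈ S, x ∈ L := fun x hx => IntermediateField.subset_adjoin K _ hx
  have hroots : ∀ l : ℕ, l.Prime → l ∣ m → ∃ ζ : L, IsPrimitiveRoot ζ (l ^ (J + m)) := by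
    intro l hl hlm
    refine ⟨⟨ξ l, hSL _ (Finset.mem_union_left _ (Finset.mem_image_of_mem _
      (Nat.mem_primeFactors.2 ⟨hl, hlm, hm.ne'⟩)))⟩, ?_⟩
    exact IsPrimitiveRoot.of_map_of_injective (f := algebraMap L A) (hξ l hl)
      (algebraMap L A).injective
  refine ⟨L, inferInstance, hLn, inferInstance, hLfin, hroots, ?_⟩
  intro q hq hq0 hbad
  refine dvd_resdeg hm hζ h4 hroots hq hq0 ?_ hbad
  intro hmq
  have hp : (q.comap (algebraMap (𝓞 K) (𝓞 L))).IsPrime := Ideal.comap_isPrime _ _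
  have hp0 : q.comap (algebraMap (𝓞 K) (𝓞 L)) ≠ ⊥ := Pool.Agent.Helper3.CB.comap_ne_bot hq0
  let p : Pool.Agent.Helper4.CB.Pl K := ⟨q.comap (algebraMap (𝓞 K) (𝓞 L)), hp, hp0⟩
  have hmp : (m : 𝓞 K) ∈ p.asIdeal := by
    show (m : 𝓞 K) ∈ q.comap (algebraMap (𝓞 K) (𝓞 L))
    rw [Ideal.mem_comap, map_natCast]
    exact hmq
  have hpB : p ∈ Pool.Agent.Helper4.CB.plLE K B := by
    rw [Pool.Agent.Helper4.CB.mem_plLE]
    refine Nat.le_of_dvd ?_ (Ideal.absNorm_dvd_absNorm_of_le ?_)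
    · rw [Nat.pos_iff_ne_zero, Ne, Ideal.absNorm_eq_zero_iff, Ideal.span_singleton_eq_bot]
      exact_mod_cast hm.ne'
    · rw [Ideal.span_singleton_le_iff_mem]
      exact hmp
  have hθL : θ p ∈ L := hSL _ (Finset.mem_union_right _ (Finset.mem_image_of_mem _ hpB))
  have hint : IsIntegral (𝓞 K) (⟨θ p, hθL⟩ : L) := by
    refine ⟨g p, hg1 p, ?_⟩
    have h1 := hg4 p
    apply (algebraMap L A).injective
    rw [map_zero, ← h1, aeval_def, hom_eval₂]
    rfl
  have htow : IsScalarTower ℤ (𝓞 K) L := IsScalarTower.of_algebraMap_eq' (RingHom.ext_int _ _)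
  have hintZ : IsIntegral ℤ (⟨θ p, hθL⟩ : L) := isIntegral_trans (A := 𝓞 K) _ hint
  let θ' : 𝓞 L := ⟨⟨θ p, hθL⟩, hintZ⟩
  refine ⟨g p, hg1 p, hg2 p, hg3 p, θ', ?_⟩
  apply RingOfIntegers.ext
  have h2 : aeval (⟨θ p, hθL⟩ : L) (g p) = 0 := by
    apply (algebraMap L A).injective
    have h1 := hg4 p
    rw [map_zero, ← h1, aeval_def, hom_eval₂]
    rfl
  have h3 : algebraMap (𝓞 L) L (aeval θ' (g p)) = aeval (⟨θ p, hθL⟩ : L) (g p) := by
    rw [aeval_def, hom_eval₂]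
    rfl
  rw [h2] at h3
  exact h3.trans (map_zero _).symm

end Pool.Agent.Helper17.BR
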