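import Pool.Agent.Helper17.BR.Desc

/-!
# Project BR, block SM: smoothing of a cocycle on a group

`Mf b z` is the integral of `b` against the product of the densities
`κ z₀`, `κ z₁ - κ z₀`, `κ z₂ - κ z₁`, … (`κ x` = the average `av x`).
-/

set_option autoImplicit false

open Real Topology

namespace Pool.Agent.Helper17.BR

open Pool.Agent.Helper17.BC (dl dl_add dl_sub dl_mul dl_dl dl_congr dl_map)

/-- Averages over the elements of the group which move `o` near a point. -/
structure AvG (G X : Type) [Group G] [TopologicalSpace G] [PseudoMetricSpace X] [MulAction G X]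
    (o : X) where
  av : X → (G → ℝ) → ℝ
  sub : ∀ (x : X) (φ ψ : G → ℝ), Continuous φ → Continuous ψ →
    av x (fun p => φ p - ψ p) = av x φ - av x ψ
  mul : ∀ (x : X) (r : ℝ) (φ : G → ℝ), av x (fun h => r * φ h) = r * av x φ
  const : ∀ (x : X) (r : ℝ), av x (fun _ => r) = r
  inv : ∀ (g : G) (x : X) (φ : G → ℝ), av (g • x) φ = av x fun h => φ (g * h)
  bound : ∀ (x : X) (φ : G → ℝ) (M : ℝ), Continuous φ →
    (∀ h : G, dist x (h • o) ≤ 1 → |φ h| ≤ M) → |av x φ| ≤ M
  lip : ∃ C : ℝ, 0 ≤ C ∧ ∀ (x y : X) (φ : G → ℝ) (M : ℝ), Continuous φ →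
    (∀ h : G, dist x (h • o) ≤ 1 ∨ dist y (h • o) ≤ 1 → |φ h| ≤ M) →
    |av x φ - av y φ| ≤ C * dist x y * M
  cont : ∀ (P : Type) [TopologicalSpace P] (x : P → X) (φ : P → G → ℝ), Continuous x →
    (Continuous fun q : P × G => φ q.1 q.2) → Continuous fun s => av (x s) (φ s)

section

variable {G X : Type} [Group G] [TopologicalSpace G] [PseudoMetricSpace X] [MulAction G X]
  {o : X} (V : AvG G X o)

/-- the averages for functions of the centre -/
noncomputable def AvG.toAv (hc : Continuous fun h : G => h • o) : Av G X where
  av := fun x φ => V.av x fun h => φ (h • o)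
  sub := fun x φ ψ hφ hψ => V.sub x _ _ (hφ.comp hc) (hψ.comp hc)
  const := fun x r => V.const x r
  inv := fun g x φ => by
    rw [V.inv]
    congr 1
    funext h
    rw [mul_smul]
  bound := fun x φ M hφ hM => V.bound x _ M (hφ.comp hc) fun h _ => hM _
  lip := by
    obtain ⟨C, hC, h⟩ := V.lip
    exact ⟨C, hC, fun x y φ M hφ hM => h x y _ M (hφ.comp hc) fun h _ => hM _⟩
  cont := fun P _ x φ hφ => V.cont P (fun _ => x) (fun s h => φ s (h • o)) continuous_const
    (hφ.comp (continuous_fst.prodMk (hc.comp continuous_snd)))

/-- integral against the product of the differences -/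
noncomputable def Mg : X → (List G → ℝ) → List X → ℝ
  | _, b, [] => b []
  | x, b, y :: z => V.av y (fun h => Mg y (fun l => b (h :: l)) z) -
      V.av x fun h => Mg y (fun l => b (h :: l)) z

/-- the smoothed function -/
noncomputable def Mf (b : List G → ℝ) : List X → ℝ
  | [] => b []
  | x :: z => V.av x fun h => Mg V x (fun l => b (h :: l)) z

/-- joint continuity on lists of each length -/
def LCj {Y P : Type} [TopologicalSpace Y] [TopologicalSpace P] (b : P → List Y → ℝ) : Prop :=
  ∀ (Q : Type) [TopologicalSpace Q] (r : Q → P), Continuous r → LCp fun q => b (r q)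

theorem LCj.cons {Y P : Type} [TopologicalSpace Y] [TopologicalSpace P] {b : P → List Y → ℝ}
    (h : LCj b) : LCj fun (q : P × Y) l => b q.1 (q.2 :: l) := by
  intro Q _ r hr
  exact (h Q (fun q => (r q).1) (continuous_fst.comp hr)).cons (continuous_snd.comp hr)

theorem LC.lcj {Y P : Type} [TopologicalSpace Y] [TopologicalSpace P] {b : List Y → ℝ}
    (h : LC b) : LCj fun _ : P => b := fun Q _ _ _ => h Q

theorem LC.cons {Y : Type} [TopologicalSpace Y] {b : List Y → ℝ} (h : LC b) (y : Y) :
    LC fun l => b (y :: l) := fun P _ => (h P).cons (w := fun _ => y) continuous_const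

theorem Mg_cont (n : ℕ) : ∀ (P : Type) [TopologicalSpace P] (x : P → X) (b : P → List G → ℝ)
    (ws : List (P → X)), ws.length = n → Continuous x → LCj b → (∀ w ∈ ws, Continuous w) →
    Continuous fun p => Mg V (x p) (b p) (ws.map fun w => w p) := by
  induction n with
  | zero =>
    intro P _ x b ws hn _ hb _
    rw [List.length_eq_zero_iff] at hn
    subst hn
    exact hb P id continuous_id [] fun w hw => by simp at hw
  | succ n ih =>
    intro P _ x b ws hn hx hb hws
    obtain ⟨w, ws, rfl⟩ := List.exists_cons_of_length_eq_add_one hn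
    have hw : Continuous w := hws w (by simp)
    have h1 : Continuous fun q : P × G => Mg V (w q.1) (fun l => b q.1 (q.2 :: l))
        (ws.map fun w => w q.1) := by
      have := ih (P × G) (fun q => w q.1) (fun q l => b q.1 (q.2 :: l))
        (ws.map fun w q => w q.1) (by simpa using hn) (hw.comp continuous_fst) hb.cons
        fun w' hw' => by
          obtain ⟨w'', h'', rfl⟩ := List.mem_map.1 hw'
          exact (hws w'' (List.mem_cons_of_mem w h'')).comp continuous_fst
      simpa [List.map_map, Function.comp_def] using this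
    simp only [List.map_cons, Mg]
    exact (V.cont P w _ hw h1).sub (V.cont P x _ hx h1)

theorem Mg_cont_head {b : List G → ℝ} (hb : LC b) (x : X) (z : List X) :
    Continuous fun h => Mg V x (fun l => b (h :: l)) z := by
  have := Mg_cont V z.length G (fun _ => x) (fun h l => b (h :: l)) (z.map fun y _ => y)
    (by simp) continuous_const (fun Q _ r hr => (hb Q).cons hr) fun w hw => by
      obtain ⟨y, -, rfl⟩ := List.mem_map.1 hw
      exact continuous_const
  simpa [List.map_map, Function.comp_def] using this

theorem Mf_LC {b : List G → ℝ} (hb : LC b) : LC (Mf V b) := by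
  intro P _ ws hws
  cases ws with
  | nil => exact continuous_const
  | cons w ws =>
    have hw : Continuous w := hws w (by simp)
    have h1 : Continuous fun q : P × G => Mg V (w q.1) (fun l => b (q.2 :: l))
        (ws.map fun w => w q.1) := by
      have := Mg_cont V ws.length (P × G) (fun q => w q.1) (fun q l => b (q.2 :: l))
        (ws.map fun w q => w q.1) (by simp) (hw.comp continuous_fst)
        (fun Q _ r hr => (hb Q).cons (continuous_snd.comp hr)) fun w' hw' => by
          obtain ⟨w'', h'', rfl⟩ := List.mem_map.1 hw'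
          exact (hws w'' (List.mem_cons_of_mem w h'')).comp continuous_fst
      simpa [List.map_map, Function.comp_def] using this
    simp only [List.map_cons, Mf]
    exact V.cont P w _ hw h1

theorem Mg_sub {b c : List G → ℝ} (hb : LC b) (hc : LC c) (x : X) (z : List X) :
    Mg V x (fun l => b l - c l) z = Mg V x b z - Mg V x c z := by
  induction z generalizing x b c with
  | nil => rfl
  | cons y z ih =>
    have e1 : ∀ w : X, V.av w (fun h => Mg V y (fun l => b (h :: l) - c (h :: l)) z) =
        V.av w (fun h => Mg V y (fun l => b (h :: l)) z) -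
        V.av w fun h => Mg V y (fun l => c (h :: l)) z := by
      intro w
      rw [← V.sub w _ _ (Mg_cont_head V hb y z) (Mg_cont_head V hc y z)]
      congr 1
      funext h
      exact ih (hb.cons h) (hc.cons h) y
    simp only [Mg]
    rw [e1, e1]
    ring

theorem Mg_zero (x : X) (z : List X) : Mg V x (fun _ => 0) z = 0 := by
  induction z generalizing x with
  | nil => rfl
  | cons y z ih =>
    have e1 : (fun _ : G => Mg V y (fun _ => 0) z) = fun _ => (0 : ℝ) := by
      funext h
      exact ih y
    simp only [Mg]
    rw [e1, V.const, V.const, sub_zero]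

theorem Mg_congr {b c : List G → ℝ} (x : X) (z : List X)
    (h : ∀ l : List G, l.length = z.length → b l = c l) : Mg V x b z = Mg V x c z := by
  induction z generalizing x b c with
  | nil => exact h [] rfl
  | cons y z ih =>
    have e1 : (fun g : G => Mg V y (fun l => b (g :: l)) z) =
        fun g => Mg V y (fun l => c (g :: l)) z := by
      funext g
      exact ih y fun l hl => h (g :: l) (by simp [hl])
    simp only [Mg]
    rw [e1]

theorem Mf_congr {b c : List G → ℝ} (z : List X)
    (h : ∀ l : List G, l.length = z.length → b l = c l) : Mf V b z = Mf V c z := by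
  cases z with
  | nil => exact h [] rfl
  | cons x z =>
    simp only [Mf]
    congr 1
    funext g
    exact Mg_congr V x z fun l hl => h (g :: l) (by simp [hl])

theorem Mf_zero (z : List X) : Mf V (fun _ => 0) z = 0 := by
  cases z with
  | nil => rfl
  | cons x z =>
    have e1 : (fun _ : G => Mg V x (fun _ => 0) z) = fun _ => (0 : ℝ) := by
      funext h
      exact Mg_zero V x z
    simp only [Mf]
    rw [e1, V.const]

/-! ### the chain map property -/

omit [Group G] in
theorem dl_LC {b : List G → ℝ} (hb : LC b) : LC (dl b) := by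
  intro P _ ws
  have key : ∀ (ws : List (P → G)) (b : P → List G → ℝ), LCj b → (∀ w ∈ ws, Continuous w) →
      Continuous fun p => dl (b p) (ws.map fun w => w p) := by
    intro ws
    induction ws with
    | nil => intro _ _ _; exact continuous_const
    | cons w ws ih =>
      intro b hb hws
      have hws' : ∀ w' ∈ ws, Continuous w' := fun w' h => hws w' (List.mem_cons_of_mem w h)
      simp only [List.map_cons, dl]
      refine (hb P id continuous_id ws hws').sub (ih (fun p l => b p (w p :: l)) ?_ hws')
      intro Q _ r hr
      exact (hb Q r hr).cons ((hws w (by simp)).comp hr)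
  exact key ws (fun _ => b) hb.lcj

theorem Mg_dl {b : List G → ℝ} (hb : LC b) (x : X) (z : List X) : Mg V x (dl b) z = 0 := by
  induction z generalizing x b with
  | nil => rfl
  | cons y z ih =>
    have e1 : ∀ w : X, V.av w (fun h => Mg V y (fun l => dl b (h :: l)) z) = Mg V y b z := by
      intro w
      have e2 : (fun h => Mg V y (fun l => dl b (h :: l)) z) = fun _ => Mg V y b z := by
        funext h
        have e3 : (fun l => dl b (h :: l)) = fun l => b l - dl (fun l' => b (h :: l')) l := rfl
        rw [e3, Mg_sub V hb (dl_LC (hb.cons h)), ih (hb.cons h), sub_zero]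
      rw [e2, V.const]
    simp only [Mg]
    rw [e1, e1, sub_self]

theorem Mf_dl_cons {b : List G → ℝ} (hb : LC b) (x : X) (z : List X) :
    Mf V (dl b) (x :: z) = Mg V x b z := by
  have e2 : (fun h => Mg V x (fun l => dl b (h :: l)) z) = fun _ => Mg V x b z := by
    funext h
    have e3 : (fun l => dl b (h :: l)) = fun l => b l - dl (fun l' => b (h :: l')) l := rfl
    rw [e3, Mg_sub V hb (dl_LC (hb.cons h)), Mg_dl V (hb.cons h), sub_zero]
  simp only [Mf]
  rw [e2, V.const]

/-- average and alternating sum -/
theorem avG_dl (x : X) (Φ : G → List X → ℝ) (h : ∀ l, Continuous fun p => Φ p l) (z : List X) :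
    dl (fun l => V.av x fun p => Φ p l) z = V.av x (fun p => dl (Φ p) z) := by
  induction z generalizing Φ with
  | nil => exact (V.const x 0).symm
  | cons y z ih =>
    have e1 : (fun p => dl (Φ p) (y :: z)) = fun p => Φ p z - dl (fun D => Φ p (y :: D)) z := rfl
    rw [e1, V.sub x _ _ (h z) (dl_cont (fun p D => Φ p (y :: D)) z fun E' => h (y :: E')),
      ← ih (fun p D => Φ p (y :: D)) fun l => h (y :: l)]
    rfl

theorem dl_Mg {c : List G → ℝ} (hc : LC c) (x y : X) (z : List X) :
    dl (Mg V x c) (y :: z) = Mg V y c z := by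
  induction z generalizing x y c with
  | nil => simp [dl, Mg]
  | cons w z ih =>
    have e1 : dl (Mg V x c) (y :: w :: z) = Mg V x c (w :: z) -
        dl (fun D => V.av y (fun h => Mg V y (fun l => c (h :: l)) D) -
          V.av x fun h => Mg V y (fun l => c (h :: l)) D) (w :: z) := rfl
    have e2 : ∀ v : X, dl (fun D => V.av v fun h => Mg V y (fun l => c (h :: l)) D) (w :: z) =
        V.av v fun h => Mg V w (fun l => c (h :: l)) z := by
      intro v
      rw [avG_dl V v (fun h D => Mg V y (fun l => c (h :: l)) D)
        fun l => Mg_cont_head V hc y l]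
      congr 1
      funext h
      exact ih (hc.cons h) y w
    rw [e1, dl_sub (fun D => V.av y fun h => Mg V y (fun l => c (h :: l)) D), e2, e2]
    simp only [Mg]
    ring

/-- the smoothing is a chain map -/
theorem dl_Mf {b : List G → ℝ} (hb : LC b) (z : List X) : dl (Mf V b) z = Mf V (dl b) z := by
  cases z with
  | nil => rfl
  | cons x z =>
    rw [Mf_dl_cons V hb]
    cases z with
    | nil => simp [dl, Mf, Mg]
    | cons y z =>
      have e1 : dl (Mf V b) (x :: y :: z) = Mf V b (y :: z) -
          dl (fun D => V.av x fun h => Mg V x (fun l => b (h :: l)) D) (y :: z) := rfl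
      have e2 : dl (fun D => V.av x fun h => Mg V x (fun l => b (h :: l)) D) (y :: z) =
          V.av x fun h => Mg V y (fun l => b (h :: l)) z := by
        rw [avG_dl V x (fun h D => Mg V x (fun l => b (h :: l)) D)
          fun l => Mg_cont_head V hb x l]
        congr 1
        funext h
        exact dl_Mg V (hb.cons h) x y z
      rw [e1, e2]
      rfl

/-! ### invariance and normalisation -/

theorem Mg_inv (g : G) (b : List G → ℝ) (x : X) (z : List X) :
    Mg V (g • x) b (z.map (g • ·)) = Mg V x (fun l => b (l.map (g * ·))) z := by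
  induction z generalizing x b with
  | nil => rfl
  | cons y z ih =>
    simp only [List.map_cons, Mg]
    rw [V.inv, V.inv]
    simp only [ih]

theorem Mf_inv {b : List G → ℝ} (hb : ∀ (g : G) l, b (l.map (g * ·)) = b l) (g : G)
    (z : List X) : Mf V b (z.map (g • ·)) = Mf V b z := by
  cases z with
  | nil => rfl
  | cons x z =>
    simp only [List.map_cons, Mf]
    rw [V.inv]
    congr 1
    funext h
    rw [Mg_inv]
    congr 1
    funext l
    exact hb g (h :: l)

theorem Mg_nrm (b : List G → ℝ) (x : X) (l₁ : List X) (a : X) (l₂ : List X) :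
    Mg V x b (l₁ ++ a :: a :: l₂) = 0 := by
  induction l₁ generalizing x b with
  | nil =>
    have e1 : (fun h => Mg V a (fun l => b (h :: l)) (a :: l₂)) = fun _ => (0 : ℝ) := by
      funext h
      simp only [Mg, sub_self]
    show V.av a (fun h => Mg V a (fun l => b (h :: l)) (a :: l₂)) -
      V.av x (fun h => Mg V a (fun l => b (h :: l)) (a :: l₂)) = 0
    rw [e1, V.const, V.const, sub_zero]
  | cons y l₁ ih =>
    have e1 : (fun h => Mg V y (fun l => b (h :: l)) (l₁ ++ a :: a :: l₂)) = fun _ => (0 : ℝ) := by
      funext h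
      exact ih _ y
    show V.av y (fun h => Mg V y (fun l => b (h :: l)) (l₁ ++ a :: a :: l₂)) -
      V.av x (fun h => Mg V y (fun l => b (h :: l)) (l₁ ++ a :: a :: l₂)) = 0
    rw [e1, V.const, V.const, sub_zero]

theorem Mf_nrm (b : List G → ℝ) : Nrm (Mf V b) := by
  intro l₁ a l₂
  cases l₁ with
  | nil =>
    have e1 : (fun h => Mg V a (fun l => b (h :: l)) (a :: l₂)) = fun _ => (0 : ℝ) := by
      funext h
      simp only [Mg, sub_self]
    show V.av a (fun h => Mg V a (fun l => b (h :: l)) (a :: l₂)) = 0
    rw [e1, V.const]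
  | cons y l₁ =>
    have e1 : (fun h => Mg V y (fun l => b (h :: l)) (l₁ ++ a :: a :: l₂)) = fun _ => (0 : ℝ) := by
      funext h
      exact Mg_nrm V _ y l₁ a l₂
    show V.av y (fun h => Mg V y (fun l => b (h :: l)) (l₁ ++ a :: a :: l₂)) = 0
    rw [e1, V.const]

end

end Pool.Agent.Helper17.BR
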