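import Mathlib
import Pool.Agent.Helper17.BR.Smooth

/-!
# Project BR, block SM: averages from a Haar measure
-/

set_option autoImplicit false

open Real Topology MeasureTheory

namespace Pool.Agent.Helper17.BR

/-- what is needed of the action -/
structure ActFacts (G X : Type) [Group G] [TopologicalSpace G] [PseudoMetricSpace X]
    [MulAction G X] (o : X) : Prop where
  cont : Continuous fun h : G => h • o
  trans : ∀ x : X, ∃ g : G, g • o = x
  proper : ∀ R : ℝ, IsCompact {h : G | dist o (h • o) ≤ R}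

/-- the kernel -/
noncomputable def bmp {G X : Type} [Group G] [PseudoMetricSpace X] [MulAction G X]
    (o : X) (r : ℝ) (x : X) (h : G) : ℝ := max 0 (r - dist x (h • o))

section

variable {G X : Type} [Group G] [PseudoMetricSpace X] [MulAction G X] {o : X}

theorem bmp_nonneg (r : ℝ) (x : X) (h : G) : 0 ≤ bmp o r x h := le_max_left _ _

theorem bmp_zero {r : ℝ} {x : X} {h : G} (H : r ≤ dist x (h • o)) : bmp o r x h = 0 :=
  max_eq_left (by linarith)

theorem bmp_lip (r : ℝ) (x y : X) (h : G) : |bmp o r x h - bmp o r y h| ≤ dist x y := by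
  unfold bmp
  rw [max_comm 0, max_comm 0]
  refine (abs_max_sub_max_le_abs _ _ _).trans ?_
  rw [sub_sub_sub_cancel_left, abs_sub_comm]
  exact abs_dist_sub_le x y (h • o)

theorem bmp_mul [IsIsometricSMul G X] (r : ℝ) (x : X) (g h : G) :
    bmp o r (g • x) (g * h) = bmp o r x h := by
  unfold bmp
  rw [mul_smul, dist_smul]

theorem bmp_cont [TopologicalSpace G] (hc : Continuous fun h : G => h • o) (r : ℝ) :
    Continuous fun q : X × G => bmp o r q.1 q.2 :=
  continuous_const.max (continuous_const.sub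
    (continuous_fst.dist (hc.comp continuous_snd)))

end

section

variable {G X : Type} [Group G] [TopologicalSpace G] [IsTopologicalGroup G] [MeasurableSpace G]
  [BorelSpace G] [PseudoMetricSpace X] [MulAction G X] [IsIsometricSMul G X] {o : X}

theorem ActFacts.compact (F : ActFacts G X o) (r : ℝ) (x : X) :
    IsCompact {h : G | dist x (h • o) ≤ r} := by
  refine (F.proper (r + dist o x)).of_isClosed_subset
    (isClosed_le (continuous_const.dist F.cont) continuous_const) fun h hh => ?_
  have h1 := dist_triangle o x (h • o)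
  simp only [Set.mem_ofPred_eq] at hh ⊢
  linarith

theorem ActFacts.cs (F : ActFacts G X o) (r : ℝ) (x : X) (φ : G → ℝ) :
    HasCompactSupport fun h => bmp o r x h * φ h := by
  refine HasCompactSupport.intro' (F.compact r x)
    (isClosed_le (continuous_const.dist F.cont) continuous_const) fun h hh => ?_
  simp only [Set.mem_ofPred_eq, not_le] at hh
  rw [bmp_zero hh.le, zero_mul]

theorem ActFacts.int (F : ActFacts G X o) (μ : Measure G) [IsFiniteMeasureOnCompacts μ] (r : ℝ)
    (x : X) {φ : G → ℝ} (hφ : Continuous φ) :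
    Integrable (fun h => bmp o r x h * φ h) μ :=
  (((bmp_cont F.cont r).comp (continuous_const.prodMk continuous_id)).mul
    hφ).integrable_of_hasCompactSupport (F.cs r x φ)

theorem ActFacts.int1 (F : ActFacts G X o) (μ : Measure G) [IsFiniteMeasureOnCompacts μ] (r : ℝ)
    (x : X) : Integrable (fun h => bmp o r x h) μ := by
  simpa using F.int μ r x (φ := fun _ => 1) continuous_const

variable (μ : Measure G) [μ.IsHaarMeasure]

theorem bmp_shift (r : ℝ) (g : G) (x : X) (φ : G → ℝ) :
    ∫ h, bmp o r (g • x) h * φ h ∂μ = ∫ h, bmp o r x h * φ (g * h) ∂μ := by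
  rw [← integral_mul_left_eq_self (fun h => bmp o r (g • x) h * φ h) g]
  simp only [bmp_mul]

theorem ActFacts.mass (F : ActFacts G X o) (r : ℝ) (x : X) :
    ∫ h, bmp o r x h ∂μ = ∫ h, bmp o r o h ∂μ := by
  obtain ⟨g, rfl⟩ := F.trans x
  simpa using bmp_shift (o := o) μ r g o fun _ => 1

theorem ActFacts.pos (F : ActFacts G X o) {r : ℝ} (hr : 0 < r) :
    0 < ∫ h, bmp o r o h ∂μ := by
  refine Continuous.integral_pos_of_hasCompactSupport_nonneg_nonzero (x := (1 : G))
    ((bmp_cont F.cont r).comp (continuous_const.prodMk continuous_id)) ?_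
    (fun h => bmp_nonneg r o h) ?_
  · simpa using F.cs r o fun _ => 1
  · unfold bmp
    rw [one_smul, dist_self, sub_zero, max_eq_right hr.le]
    exact hr.ne'

/-- the averages -/
noncomputable def hav (o : X) (x : X) (φ : G → ℝ) : ℝ :=
  (∫ h, bmp o 1 x h * φ h ∂μ) / ∫ h : G, bmp o 1 o h ∂μ

theorem hav_bound (F : ActFacts G X o) (x : X) (φ : G → ℝ) (M : ℝ)
    (hM : ∀ h : G, dist x (h • o) ≤ 1 → |φ h| ≤ M) : |hav μ o x φ| ≤ M := by
  have hZ := F.pos μ one_pos
  unfold hav
  rw [abs_div, abs_of_pos hZ, div_le_iff₀ hZ, ← F.mass μ 1 x, mul_comm, ← integral_mul_const,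
    ← Real.norm_eq_abs]
  refine norm_integral_le_of_norm_le ((F.int1 μ 1 x).mul_const M) (ae_of_all _ fun h => ?_)
  rw [Real.norm_eq_abs, abs_mul, abs_of_nonneg (bmp_nonneg 1 x h)]
  rcases le_total (dist x (h • o)) 1 with h1 | h1
  · exact mul_le_mul_of_nonneg_left (hM h h1) (bmp_nonneg 1 x h)
  · rw [bmp_zero h1, zero_mul, zero_mul]

theorem hav_lip (F : ActFacts G X o) (x y : X) (φ : G → ℝ) (M : ℝ) (hφ : Continuous φ)
    (hM : ∀ h : G, dist x (h • o) ≤ 1 ∨ dist y (h • o) ≤ 1 → |φ h| ≤ M) :
    |hav μ o x φ - hav μ o y φ| ≤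
      (2 * (∫ h : G, bmp o 2 o h ∂μ) / ∫ h : G, bmp o 1 o h ∂μ) * dist x y * M := by
  have hZ := F.pos μ one_pos
  have hM0 : 0 ≤ M := by
    obtain ⟨g, hg⟩ := F.trans x
    exact (abs_nonneg _).trans (hM g (Or.inl (by rw [hg, dist_self]; exact zero_le_one)))
  have h2 : |(∫ h, bmp o 1 x h * φ h ∂μ) - ∫ h, bmp o 1 y h * φ h ∂μ| ≤
      ∫ h, (bmp o 2 x h + bmp o 2 y h) * (dist x y * M) ∂μ := by
    rw [← integral_sub (F.int μ 1 x hφ) (F.int μ 1 y hφ), ← Real.norm_eq_abs]
    refine norm_integral_le_of_norm_le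
      (((F.int1 μ 2 x).add (F.int1 μ 2 y)).mul_const _) (ae_of_all _ fun h => ?_)
    rw [Real.norm_eq_abs, ← sub_mul, abs_mul]
    by_cases H : dist x (h • o) ≤ 1 ∨ dist y (h • o) ≤ 1
    · have h3 : 1 ≤ bmp o 2 x h + bmp o 2 y h := by
        rcases H with H | H
        · have h4 : 1 ≤ bmp o 2 x h := le_max_of_le_right (by linarith)
          linarith [bmp_nonneg (o := o) 2 y h]
        · have h4 : 1 ≤ bmp o 2 y h := le_max_of_le_right (by linarith)
          linarith [bmp_nonneg (o := o) 2 x h]
      calc |bmp o 1 x h - bmp o 1 y h| * |φ h| ≤ dist x y * M :=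
            mul_le_mul (bmp_lip 1 x y h) (hM h H) (abs_nonneg _) dist_nonneg
        _ = 1 * (dist x y * M) := (one_mul _).symm
        _ ≤ _ := mul_le_mul_of_nonneg_right h3 (mul_nonneg dist_nonneg hM0)
    · push Not at H
      rw [bmp_zero H.1.le, bmp_zero H.2.le, sub_zero, abs_zero, zero_mul]
      exact mul_nonneg (add_nonneg (bmp_nonneg _ _ _) (bmp_nonneg _ _ _))
        (mul_nonneg dist_nonneg hM0)
  rw [integral_mul_const, integral_add (F.int1 μ 2 x) (F.int1 μ 2 y), F.mass μ 2 x,
    F.mass μ 2 y] at h2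
  unfold hav
  rw [← sub_div, abs_div, abs_of_pos hZ, div_le_iff₀ hZ]
  refine h2.trans (le_of_eq ?_)
  field_simp
  ring

theorem hav_cont (F : ActFacts G X o) (P : Type) [TopologicalSpace P] (x : P → X)
    (φ : P → G → ℝ) (hx : Continuous x) (hφ : Continuous fun q : P × G => φ q.1 q.2) :
    Continuous fun s => hav μ o (x s) (φ s) := by
  unfold hav
  refine Continuous.div_const ?_ _
  refine continuous_iff_continuousAt.2 fun p₀ => ?_
  have hs : IsOpen {p : P | dist (x p₀) (x p) < 1} :=
    isOpen_lt (continuous_const.dist hx) continuous_const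
  have h1 : ContinuousOn (fun p => ∫ h, bmp o 1 (x p) h * φ p h ∂μ)
      {p : P | dist (x p₀) (x p) < 1} := by
    refine continuousOn_integral_of_compact_support (F.compact 2 (x p₀)) ?_ ?_
    · refine Continuous.continuousOn ?_
      exact ((bmp_cont F.cont 1).comp ((hx.comp continuous_fst).prodMk continuous_snd)).mul hφ
    · intro p h hp hh
      simp only [Set.mem_ofPred_eq, not_le] at hp hh
      have h2 := dist_triangle (x p₀) (x p) (h • o)
      rw [bmp_zero (by linarith), zero_mul]
  exact h1.continuousAt (hs.mem_nhds (by simp))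

/-- the averages over a Haar measure -/
noncomputable def haarAvG (F : ActFacts G X o) : AvG G X o where
  av := hav μ o
  sub := by
    intro x φ ψ hφ hψ
    unfold hav
    rw [← sub_div, ← integral_sub (F.int μ 1 x hφ) (F.int μ 1 x hψ)]
    simp only [mul_sub]
  mul := by
    intro x r φ
    unfold hav
    rw [← mul_div_assoc, ← integral_const_mul]
    congr 2
    funext h
    ring
  const := by
    intro x r
    have hZ := F.pos μ one_pos
    unfold hav
    rw [integral_mul_const, F.mass μ 1 x, mul_div_assoc, mul_comm, div_mul_cancel₀ _ hZ.ne']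
  inv := by
    intro g x φ
    unfold hav
    rw [bmp_shift]
  bound := fun x φ M _ hM => hav_bound μ F x φ M hM
  lip := ⟨2 * (∫ h : G, bmp o 2 o h ∂μ) / ∫ h : G, bmp o 1 o h ∂μ,
    div_nonneg (mul_nonneg zero_le_two (F.pos μ two_pos).le) (F.pos μ one_pos).le,
    fun x y φ M hφ hM => hav_lip μ F x y φ M hφ hM⟩
  cont := fun P _ x φ hx hφ => hav_cont μ F P x φ hx hφ

end

/-- averages exist as soon as the group acts properly and transitively -/
theorem exists_avG {G X : Type} [Group G] [TopologicalSpace G] [IsTopologicalGroup G]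
    [LocallyCompactSpace G] [PseudoMetricSpace X] [MulAction G X] [IsIsometricSMul G X] {o : X}
    (F : ActFacts G X o) : Nonempty (AvG G X o) := by
  let : MeasurableSpace G := borel G
  have : BorelSpace G := ⟨rfl⟩
  exact ⟨haarAvG Measure.haar F⟩

end Pool.Agent.Helper17.BR
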