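import Pool.Agent.Helper17.BR.SmBound

/-!
# Project BR, block SM: the input of the descent
-/

set_option autoImplicit false

open Real Topology

namespace Pool.Agent.Helper17.BR

open Pool.Agent.Helper17.BC (dl dl_add dl_sub dl_mul dl_dl dl_congr dl_map)

/-- a bounded cocycle `b` of degree `n` of the group and a primitive `h` -/
structure GCoc (G X : Type) [Group G] [TopologicalSpace G] [PseudoMetricSpace X] [MulAction G X]
    (o : X) (n : ℕ) (b h : List G → ℝ) : Prop where
  bLC : LC b
  hLC : LC h
  binv : ∀ (g : G) l, b (l.map (g * ·)) = b l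
  hinv : ∀ (g : G) l, h (l.map (g * ·)) = h l
  bM : ∃ M : ℝ, 0 ≤ M ∧ ∀ l, |b l| ≤ M
  coc : ∀ W : List G, W.length = n + 2 → dl b W = 0
  prim : ∀ W : List G, W.length = n + 1 → dl h W = b W
  hloc : ∀ R : ℝ, ∃ M : ℝ, 0 ≤ M ∧ ∀ l : List G, l.length = n → Loc R (l.map (· • o)) → |h l| ≤ M

variable {G X : Type} [Group G] [TopologicalSpace G] [PseudoMetricSpace X] [MulAction G X]
  {o : X} (V : AvG G X o)

theorem smooth_inp {n : ℕ} {b h : List G → ℝ} (I : GCoc G X o n b h) :
    Inp G n (Mf V b) (Mf V h) where
  coc := by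
    intro W hW
    rw [dl_Mf V I.bLC, Mf_congr V W (c := fun _ => 0) fun l hl => I.coc l (hl.trans hW)]
    exact Mf_zero V W
  prim := by
    intro W hW
    rw [dl_Mf V I.hLC]
    exact Mf_congr V W fun l hl => I.prim l (hl.trans hW)
  fN := by
    intro m l hml
    obtain ⟨C, hC0, hC'⟩ := V.lip
    have hC : LipC V C := ⟨hC0, hC'⟩
    obtain ⟨M, hM0, hM⟩ := I.bM
    exact
    { inv := by
        intro g E z
        show Mf V b (z.map (g • ·) ++ E.map (g • ·)) = Mf V b (z ++ E)
        rw [← List.map_append]
        exact Mf_inv V I.binv g _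
      nrm := by
        intro E l₁ a l₂
        show Mf V b ((l₁ ++ a :: a :: l₂) ++ E) = 0
        rw [List.append_assoc]
        exact Mf_nrm V b l₁ a (l₂ ++ E)
      cont := by
        intro E P _ ws hws
        have h1 := Mf_LC V I.bLC P (ws ++ E.map fun e _ => e) fun w hw => by
          rcases List.mem_append.1 hw with hw | hw
          · exact hws w hw
          · obtain ⟨e, -, rfl⟩ := List.mem_map.1 hw
            exact continuous_const
        simpa [List.map_append, List.map_map, Function.comp_def] using h1
      gpb := by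
        intro R
        refine ⟨(C + 2) ^ (m + l) * M, by positivity, fun E z hE hz _ => ?_⟩
        have h1 := Mf_bound hC I.bLC z E hM0 fun l _ _ => hM l
        rw [hE, hz] at h1
        show |Mf V b (z ++ E)| ≤ _
        linarith
      lip := by
        intro R
        refine ⟨(C + 2) ^ (m + l) * M, by positivity, fun E₁ a a' E₂ z hE hz _ => ?_⟩
        have h1 := Mf_lip hC I.bLC z E₁ a a' E₂ hM0 hM
        rw [hz, hE] at h1
        show |Mf V b (z ++ (E₁ ++ a :: E₂)) - Mf V b (z ++ (E₁ ++ a' :: E₂))| ≤ _
        linarith }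
  bN := by
    obtain ⟨C, hC0, hC'⟩ := V.lip
    have hC : LipC V C := ⟨hC0, hC'⟩
    exact
    { inv := fun g _ z => Mf_inv V I.hinv g z
      nrm := fun _ => Mf_nrm V h
      cont := fun _ => Mf_LC V I.hLC
      gpb := by
        intro R
        obtain ⟨M, hM0, hM⟩ := I.hloc (R + 2)
        refine ⟨(C + 2) ^ n * M, by positivity, fun E z _ hz hR => ?_⟩
        have h1 := Mf_bound hC I.hLC z [] hM0 fun l hl hl' => hM l
          (by rw [hl, List.append_nil, hz]) fun x hx y hy => by
            obtain ⟨g, hg, rfl⟩ := List.mem_map.1 hx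
            obtain ⟨g', hg', rfl⟩ := List.mem_map.1 hy
            obtain ⟨w, hw, hw'⟩ := hl' g hg
            obtain ⟨u, hu, hu'⟩ := hl' g' hg'
            rw [List.append_nil] at hw hu
            have h3 := hR w hw u hu
            have h4 := dist_triangle4 (g • o) w u (g' • o)
            rw [dist_comm (g • o) w] at h4
            linarith
        rw [List.append_nil, List.length_nil, add_zero, hz] at h1
        linarith
      lip := by
        intro R
        refine ⟨0, le_rfl, fun E₁ a b E₂ z hE _ _ => ?_⟩
        omega }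

end Pool.Agent.Helper17.BR
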