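import Mathlib
import Pool.Agent.Helper17.BR.SmInp
import Pool.Agent.Helper17.BR.Haar

/-!
# Project BR, block SM: functions of tuples and functions of lists
-/

set_option autoImplicit false

open Real Topology

namespace Pool.Agent.Helper17.BR

open Pool.Agent.Helper17.BC (dl)

section

variable {Y : Type}

/-- the function of lists of a function of tuples -/
noncomputable def ofF (n : ℕ) (c : (Fin n → Y) → ℝ) (l : List Y) : ℝ :=
  if H : l.length = n then c (fun i => l.get (Fin.cast H.symm i)) else 0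

theorem ofF_ofFn {n : ℕ} (c : (Fin n → Y) → ℝ) (x : Fin n → Y) :
    ofF n c (List.ofFn x) = c x := by
  unfold ofF
  rw [dif_pos (List.length_ofFn)]
  congr 1
  funext i
  simp

theorem ofF_map {n : ℕ} (c : (Fin n → Y) → ℝ) (φ : Y → Y) (h : ∀ x, c (fun i => φ (x i)) = c x)
    (l : List Y) : ofF n c (l.map φ) = ofF n c l := by
  unfold ofF
  by_cases H : l.length = n
  · rw [dif_pos H, dif_pos (by rw [List.length_map, H]),
      ← h fun i => l.get (Fin.cast H.symm i)]
    congr 1
    funext i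
    simp
  · rw [dif_neg H, dif_neg (by rwa [List.length_map])]

theorem ofF_LC [TopologicalSpace Y] {n : ℕ} {c : (Fin n → Y) → ℝ} (hc : Continuous c) :
    LC (ofF n c) := by
  intro P _ ws hws
  unfold ofF
  by_cases H : ws.length = n
  · have H' : ∀ p : P, (ws.map fun w => w p).length = n := fun p => by rw [List.length_map, H]
    simp only [H', dite_true]
    refine hc.comp (continuous_pi fun i => ?_)
    have h1 : (fun p : P => (ws.map fun w => w p).get (Fin.cast (H' p).symm i)) =
        fun p => (ws.get (Fin.cast H.symm i)) p := by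
      funext p
      simp
    rw [h1]
    exact hws _ (List.get_mem _ _)
  · have H' : ∀ p : P, ¬ (ws.map fun w => w p).length = n := fun p => by rwa [List.length_map]
    simp only [H', dite_false]
    exact continuous_const

theorem ofF_bound {n : ℕ} {c : (Fin n → Y) → ℝ} {M : ℝ} (hM0 : 0 ≤ M) (hM : ∀ x, |c x| ≤ M)
    (l : List Y) : |ofF n c l| ≤ M := by
  unfold ofF
  split_ifs
  · exact hM _
  · rwa [abs_zero]

/-- the alternating sum over the faces -/
theorem dl_ofFn (n : ℕ) : ∀ (b : List Y → ℝ) (x : Fin (n + 1) → Y),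
    dl b (List.ofFn x) =
      ∑ i : Fin (n + 1), (-1 : ℝ) ^ (i : ℕ) * b (List.ofFn fun j => x (Fin.succAbove i j)) := by
  induction n with
  | zero =>
    intro b x
    simp [List.ofFn_succ, dl]
  | succ n ih =>
    intro b x
    rw [List.ofFn_succ, dl, ih, Fin.sum_univ_succ (n := n + 1)]
    simp only [Fin.val_zero, pow_zero, one_mul, Fin.zero_succAbove, Fin.val_succ, pow_succ]
    rw [sub_eq_add_neg, ← Finset.sum_neg_distrib]
    congr 1
    refine Finset.sum_congr rfl fun i _ => ?_
    rw [List.ofFn_succ (f := fun j => x (i.succ.succAbove j))]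
    simp only [Fin.succ_succAbove_zero, Fin.succ_succAbove_succ]
    ring

theorem eq_ofFn (l : List Y) {n : ℕ} (h : l.length = n) :
    ∃ x : Fin n → Y, l = List.ofFn x := by
  subst h
  exact ⟨l.get, (List.ofFn_get l).symm⟩

theorem dl_ofF {n : ℕ} (c : (Fin n → Y) → ℝ) (x : Fin (n + 1) → Y) :
    dl (ofF n c) (List.ofFn x) =
      ∑ i : Fin (n + 1), (-1 : ℝ) ^ (i : ℕ) * c (fun j => x (Fin.succAbove i j)) := by
  rw [dl_ofFn]
  simp only [ofF_ofFn]

end

section

variable {G X : Type} [Group G] [TopologicalSpace G] [IsTopologicalGroup G] [PseudoMetricSpace X]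
  [MulAction G X] [IsIsometricSMul G X] {o : X}

/-- local boundedness of an invariant continuous function -/
theorem loc_bound (F : ActFacts G X o) {n : ℕ} {c : (Fin n → G) → ℝ} (hc : Continuous c)
    (hi : ∀ (g : G) (x : Fin n → G), c (fun j => g * x j) = c x) (R : ℝ) :
    ∃ M : ℝ, 0 ≤ M ∧ ∀ l : List G, l.length = n → Loc R (l.map (· • o)) →
      |ofF n c l| ≤ M := by
  have hK : IsCompact (Set.univ.pi fun _ : Fin n => {h : G | dist o (h • o) ≤ R}) :=
    isCompact_univ_pi fun _ => F.proper R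
  obtain ⟨M, hM⟩ := hK.exists_bound_of_continuousOn hc.continuousOn
  refine ⟨max M 0, le_max_right _ _, fun l hl hR => ?_⟩
  obtain ⟨x, rfl⟩ := eq_ofFn l hl
  rw [ofF_ofFn]
  cases n with
  | zero =>
    exact (hM x fun i => i.elim0).trans (le_max_left _ _)
  | succ n =>
    rw [← hi (x 0)⁻¹ x]
    refine (hM _ fun i _ => ?_).trans (le_max_left _ _)
    have h1 : dist (x 0 • o) (x i • o) ≤ R :=
      hR _ (List.mem_map.2 ⟨x 0, List.mem_ofFn.2 ⟨0, rfl⟩, rfl⟩) _
        (List.mem_map.2 ⟨x i, List.mem_ofFn.2 ⟨i, rfl⟩, rfl⟩)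
    rw [← dist_smul (x 0)⁻¹, inv_smul_smul, ← mul_smul] at h1
    exact h1

/-- the input of the smoothing from a bounded cocycle of tuples with a primitive -/
theorem gcoc_of_tuples (F : ActFacts G X o) {n : ℕ} {b : (Fin (n + 1) → G) → ℝ}
    {η : (Fin n → G) → ℝ} (hb : Continuous b) (hη : Continuous η)
    (ib : ∀ (g : G) (x : Fin (n + 1) → G), b (fun j => g * x j) = b x)
    (iη : ∀ (g : G) (x : Fin n → G), η (fun j => g * x j) = η x)
    (bb : ∃ M : ℝ, ∀ x, |b x| ≤ M)
    (hz : ∀ x : Fin (n + 2) → G,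
      ∑ i : Fin (n + 2), (-1 : ℝ) ^ (i : ℕ) * b (fun j => x (Fin.succAbove i j)) = 0)
    (hp : ∀ x : Fin (n + 1) → G,
      ∑ i : Fin (n + 1), (-1 : ℝ) ^ (i : ℕ) * η (fun j => x (Fin.succAbove i j)) = b x) :
    GCoc G X o n (ofF (n + 1) b) (ofF n η) where
  bLC := ofF_LC hb
  hLC := ofF_LC hη
  binv := fun g l => ofF_map b (g * ·) (ib g) l
  hinv := fun g l => ofF_map η (g * ·) (iη g) l
  bM := by
    obtain ⟨M, hM⟩ := bb
    exact ⟨M, (abs_nonneg _).trans (hM fun _ => 1), ofF_bound ((abs_nonneg _).trans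
      (hM fun _ => 1)) hM⟩
  coc := by
    intro W hW
    obtain ⟨x, rfl⟩ := eq_ofFn W hW
    rw [dl_ofF, hz]
  prim := by
    intro W hW
    obtain ⟨x, rfl⟩ := eq_ofFn W hW
    rw [dl_ofF, hp, ofF_ofFn]
  hloc := loc_bound F hη iη

end

end Pool.Agent.Helper17.BR
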