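import Mathlib
import Pool.Agent.Helper17.BR.FinC

/-!
# Project BR: the cone homotopy between a natural operator and the identity
-/

set_option autoImplicit false

open Real Topology

namespace Pool.Agent.Helper17.BR

open Pool.Agent.Helper17.BC (dl dl_add dl_sub dl_mul dl_dl dl_congr dl_map)

/-- joint continuity is kept by the alternating sum over the faces -/
theorem LCj.faces {Y P : Type} [TopologicalSpace Y] [TopologicalSpace P] {b : P → List Y → ℝ}
    (hb : LCj b) : LCj fun p => dl (b p) := by
  have key : ∀ (n : ℕ) (P : Type) [TopologicalSpace P] (ws : List (P → Y)), ws.length = n →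
      ∀ b : P → List Y → ℝ, LCj b → (∀ w ∈ ws, Continuous w) →
      Continuous fun p => dl (b p) (ws.map fun w => w p) := by
    intro n
    induction n with
    | zero =>
      intro P _ ws hn b _ _
      rw [List.length_eq_zero_iff] at hn
      subst hn
      exact continuous_const
    | succ n ih =>
      intro P _ ws hn b hb hws
      obtain ⟨w, ws, rfl⟩ := List.exists_cons_of_length_eq_add_one hn
      have hws' : ∀ w' ∈ ws, Continuous w' := fun w' h => hws w' (List.mem_cons_of_mem w h)
      simp only [List.map_cons, Pool.Agent.Helper17.BC.dl]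
      refine (hb P id continuous_id ws hws').sub
        (ih P ws (by simpa using hn) (fun p l => b p (w p :: l)) ?_ hws')
      intro Q _ r hr
      exact (hb Q r hr).cons ((hws w (by simp)).comp hr)
  intro Q _ r hr ws hws
  exact key ws.length Q ws rfl (fun q => b (r q)) (fun R _ r' hr' => hb R _ (hr.comp hr')) hws

theorem LCj.sub {Y P : Type} [TopologicalSpace Y] [TopologicalSpace P] {b c : P → List Y → ℝ}
    (hb : LCj b) (hc : LCj c) : LCj fun p l => b p l - c p l :=
  fun Q _ r hr ws hws => (hb Q r hr ws hws).sub (hc Q r hr ws hws)

theorem LCj.lc {Y P : Type} [TopologicalSpace Y] [TopologicalSpace P] {b : P → List Y → ℝ}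
    (hb : LCj b) (p : P) : LC (b p) := fun Q _ ws hws =>
  hb Q (fun _ => p) continuous_const ws hws

theorem LCj.comp {Y P Q : Type} [TopologicalSpace Y] [TopologicalSpace P] [TopologicalSpace Q]
    {b : P → List Y → ℝ} (hb : LCj b) {r : Q → P} (hr : Continuous r) : LCj fun q => b (r q) :=
  fun R _ _ hr' => hb R _ (hr.comp hr')

theorem LC.sub {Y : Type} [TopologicalSpace Y] {b c : List Y → ℝ}
    (hb : LC b) (hc : LC c) : LC fun l => b l - c l :=
  fun Q _ ws hws => (hb Q ws hws).sub (hc Q ws hws)

/-- natural operators on the functions of lists, compatible with the faces -/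
structure ChOp (G : Type) [Group G] [TopologicalSpace G] (U : (List G → ℝ) → List G → ℝ) :
    Prop where
  nil : ∀ c, U c [] = c []
  sub : ∀ c d, LC c → LC d → ∀ l, U (fun l' => c l' - d l') l = U c l - U d l
  ch : ∀ c, LC c → ∀ l, dl (U c) l = U (dl c) l
  nat : ∀ (g : G) c l, U c (l.map (g * ·)) = U (fun l' => c (l'.map (g * ·))) l
  cont : ∀ (P : Type) [TopologicalSpace P] (c : P → List G → ℝ), LCj c → LCj fun p => U (c p)

variable {G : Type} [Group G] (U : (List G → ℝ) → List G → ℝ)

/-- the homotopy, with a bound for the length -/
noncomputable def Hn : ℕ → (List G → ℝ) → List G → ℝ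
  | 0, _, _ => 0
  | _ + 1, _, [] => 0
  | k + 1, c, g :: t =>
    U (fun l => c (g :: l)) (g :: t) - c (g :: g :: t) - dl (Hn k fun l => c (g :: l)) (g :: t)

/-- the homotopy -/
noncomputable def HH (c : List G → ℝ) (l : List G) : ℝ := Hn U l.length c l

theorem HH_nil (c : List G → ℝ) : HH U c [] = 0 := rfl

theorem HH_cons (c : List G → ℝ) (g : G) (t : List G) :
    HH U c (g :: t) = U (fun l => c (g :: l)) (g :: t) - c (g :: g :: t) -
      dl (HH U fun l => c (g :: l)) (g :: t) := by
  have h1 : dl (Hn U t.length fun l => c (g :: l)) (g :: t) =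
      dl (HH U fun l => c (g :: l)) (g :: t) := by
    refine dl_congr fun D' h _ => ?_
    have h2 : D'.length = t.length := by simpa using h
    unfold HH
    rw [h2]
  show U (fun l => c (g :: l)) (g :: t) - c (g :: g :: t) -
    dl (Hn U t.length fun l => c (g :: l)) (g :: t) = _
  rw [h1]

variable [TopologicalSpace G] {U} (hU : ChOp G U)

include hU

theorem HH_sub (n : ℕ) : ∀ (c d : List G → ℝ), LC c → LC d → ∀ l : List G, l.length = n →
    HH U (fun l' => c l' - d l') l = HH U c l - HH U d l := by
  induction n with
  | zero =>
    intro c d _ _ l hl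
    rw [List.length_eq_zero_iff] at hl
    subst hl
    simp [HH_nil]
  | succ n ih =>
    intro c d hc hd l hl
    obtain ⟨g, t, rfl⟩ := List.exists_cons_of_length_eq_add_one hl
    rw [HH_cons, HH_cons, HH_cons, hU.sub _ _ (hc.cons g) (hd.cons g)]
    have h1 : dl (HH U fun l => c (g :: l) - d (g :: l)) (g :: t) =
        dl (HH U fun l => c (g :: l)) (g :: t) - dl (HH U fun l => d (g :: l)) (g :: t) := by
      rw [← dl_sub]
      refine dl_congr fun D' h _ => ih _ _ (hc.cons g) (hd.cons g) D' ?_
      simp only [List.length_cons] at h hl
      omega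
    rw [h1]
    ring

/-- the homotopy identity -/
theorem HH_hom (n : ℕ) : ∀ (c : List G → ℝ), LC c → ∀ l : List G, l.length = n →
    dl (HH U c) l + HH U (dl c) l = U c l - c l := by
  induction n with
  | zero =>
    intro c _ l hl
    rw [List.length_eq_zero_iff] at hl
    subst hl
    rw [HH_nil, hU.nil]
    simp [dl]
  | succ n ih =>
    intro c hc l hl
    obtain ⟨g, t, rfl⟩ := List.exists_cons_of_length_eq_add_one hl
    have hcg := hc.cons g
    have hdcg : LC (dl fun l => c (g :: l)) := dl_LC hcg
    have e1 : (fun l => dl c (g :: l)) = fun l => c l - dl (fun l' => c (g :: l')) l := rfl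
    have e2 : dl c (g :: g :: t) = c (g :: t) - dl (fun l' => c (g :: l')) (g :: t) := rfl
    have e3 : dl (HH U fun l => c l - dl (fun l' => c (g :: l')) l) (g :: t) =
        dl (HH U c) (g :: t) - dl (HH U (dl fun l' => c (g :: l'))) (g :: t) := by
      rw [← dl_sub]
      exact dl_congr fun D' h _ => HH_sub hU D'.length _ _ hc hdcg D' rfl
    have e4 : dl (HH U (dl fun l' => c (g :: l'))) (g :: t) =
        U (dl fun l' => c (g :: l')) (g :: t) - dl (fun l' => c (g :: l')) (g :: t) := by
      have h1 : dl (HH U (dl fun l' => c (g :: l'))) (g :: t) =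
          dl (fun l => (U (fun l' => c (g :: l')) l - c (g :: l)) -
            dl (HH U fun l' => c (g :: l')) l) (g :: t) := by
        refine dl_congr fun D' h _ => ?_
        have h2 := ih (fun l' => c (g :: l')) hcg D' (by
          simp only [List.length_cons] at h hl
          omega)
        linarith
      rw [h1, dl_sub, dl_sub, dl_dl, hU.ch _ hcg]
      ring
    rw [HH_cons, e1, hU.sub _ _ hc hdcg, e2, e3, e4]
    ring

theorem HH_nat (n : ℕ) : ∀ (c : List G → ℝ) (a : G) (l : List G), l.length = n →
    HH U c (l.map (a * ·)) = HH U (fun l' => c (l'.map (a * ·))) l := by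
  induction n with
  | zero =>
    intro c a l hl
    rw [List.length_eq_zero_iff] at hl
    subst hl
    rfl
  | succ n ih =>
    intro c a l hl
    obtain ⟨g, t, rfl⟩ := List.exists_cons_of_length_eq_add_one hl
    have e1 := hU.nat a (fun l => c (a * g :: l)) (g :: t)
    have e2 : dl (HH U fun l => c (a * g :: l)) ((g :: t).map (a * ·)) =
        dl (HH U fun l => c (a * g :: l.map (a * ·))) (g :: t) := by
      rw [← dl_map]
      refine dl_congr fun D' h _ => ih _ a D' ?_
      simp only [List.length_cons] at h hl
      omega
    rw [List.map_cons] at e1 e2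
    rw [List.map_cons, HH_cons, HH_cons, e1, e2]
    simp only [List.map_cons]

theorem HH_cont (n : ℕ) : ∀ (P : Type) [TopologicalSpace P] (c : P → List G → ℝ), LCj c →
    ∀ (ws : List (P → G)), ws.length = n → (∀ w ∈ ws, Continuous w) →
    Continuous fun p => HH U (c p) (ws.map fun w => w p) := by
  induction n using Nat.strong_induction_on with
  | _ n ih =>
    intro P _ c hc ws hn hws
    cases ws with
    | nil => exact continuous_const
    | cons w t =>
      have hw : Continuous w := hws w (by simp)
      simp only [List.map_cons, HH_cons]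
      have hcg : LCj fun p l => c p (w p :: l) :=
        (hc.cons (Y := G)).comp (r := fun p => (p, w p)) (continuous_id.prodMk hw)
      refine ((hU.cont P _ hcg P id continuous_id (w :: t) hws).sub
        (hc P id continuous_id (w :: w :: t) fun w' hw' => ?_)).sub ?_
      · rcases List.mem_cons.1 hw' with rfl | h
        · exact hw
        · exact hws w' h
      · have key : ∀ (vs : List (P → G)) (pre : List (P → G)), pre.length + vs.length ≤ n →
            (∀ w ∈ vs, Continuous w) → (∀ w ∈ pre, Continuous w) →
            Continuous fun p => dl (fun l => HH U (fun l' => c p (w p :: l'))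
              (pre.map (fun v => v p) ++ l)) (vs.map fun v => v p) := by
          intro vs
          induction vs with
          | nil => intro pre _ _ _; exact continuous_const
          | cons v vs ihv =>
            intro pre hl hvs hpre
            have hvs' : ∀ w ∈ vs, Continuous w := fun w' h => hvs w' (List.mem_cons_of_mem v h)
            simp only [List.map_cons, Pool.Agent.Helper17.BC.dl]
            refine Continuous.sub ?_ ?_
            · have h1 := ih (pre ++ vs).length (by
                simp only [List.length_cons, List.length_append] at hl ⊢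
                omega) P (fun p l => c p (w p :: l)) hcg (pre ++ vs) rfl fun w' hw' => by
                  rcases List.mem_append.1 hw' with h | h
                  · exact hpre w' h
                  · exact hvs' w' h
              simpa [List.map_append] using h1
            · have h1 := ihv (pre ++ [v]) (by
                simp only [List.length_cons, List.length_append, List.length_nil] at hl ⊢
                omega) hvs' fun w' hw' => by
                  rcases List.mem_append.1 hw' with h | h
                  · exact hpre w' h
                  · rw [List.mem_singleton] at h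
                    subst h
                    exact hvs w' (by simp)
              simpa [List.map_append] using h1
        have := key (w :: t) [] (by simp at hn ⊢; omega) hws (by simp)
        simpa using this

theorem HH_LCj {P : Type} [TopologicalSpace P] {c : P → List G → ℝ} (hc : LCj c) :
    LCj fun p => HH U (c p) := by
  intro Q _ r hr ws hws
  exact HH_cont hU ws.length Q (fun q => c (r q)) (hc.comp hr) ws rfl hws

theorem HH_LC {c : List G → ℝ} (hc : LC c) : LC (HH U c) :=
  (HH_LCj hU (P := Unit) (c := fun _ => c) hc.lcj).lc ()

/-- an invariant function has an invariant image -/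
theorem HH_inv {c : List G → ℝ} (hc : ∀ (g : G) l, c (l.map (g * ·)) = c l) (g : G)
    (l : List G) : HH U c (l.map (g * ·)) = HH U c l := by
  rw [HH_nat hU l.length c g l rfl]
  simp only [hc]

/-- bounded functions have bounded images, if this is so for the operator -/
theorem HH_bound (n : ℕ) (hb : ∀ n : ℕ, ∃ C : ℝ, 0 ≤ C ∧ ∀ (c : List G → ℝ) (M : ℝ), LC c → 0 ≤ M →
      (∀ l, l.length = n → |c l| ≤ M) → ∀ l, l.length = n → |U c l| ≤ C * M) :
    ∃ C : ℝ, 0 ≤ C ∧ ∀ (c : List G → ℝ) (M : ℝ), LC c → 0 ≤ M →
      (∀ l, l.length = n + 1 → |c l| ≤ M) → ∀ l, l.length = n → |HH U c l| ≤ C * M := by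
  induction n with
  | zero =>
    refine ⟨0, le_rfl, fun c M _ _ _ l hl => ?_⟩
    rw [List.length_eq_zero_iff] at hl
    subst hl
    rw [HH_nil, abs_zero, zero_mul]
  | succ n ih =>
    obtain ⟨C, hC0, hC⟩ := ih
    obtain ⟨D, hD0, hD⟩ := hb (n + 1)
    refine ⟨D + 1 + (n + 1) * C, by positivity, fun c M hc hM0 hM l hl => ?_⟩
    obtain ⟨g, t, rfl⟩ := List.exists_cons_of_length_eq_add_one hl
    have hM' : ∀ l' : List G, l'.length = n + 1 → |c (g :: l')| ≤ M := fun l' h =>
      hM _ (by rw [List.length_cons, h])
    have h1 := hD (fun l => c (g :: l)) M (hc.cons g) hM0 hM' (g :: t) hl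
    have h2 := hM' (g :: t) hl
    have h3 := dl_bound (HH U fun l => c (g :: l)) (g :: t) (K := C * M) fun D' h =>
      hC _ M (hc.cons g) hM0 hM' D' (by
        simp only [List.length_cons] at h hl
        omega)
    rw [hl] at h3
    push_cast at h3
    rw [HH_cons]
    calc |U (fun l => c (g :: l)) (g :: t) - c (g :: g :: t) -
          dl (HH U fun l => c (g :: l)) (g :: t)| ≤
          |U (fun l => c (g :: l)) (g :: t)| + |c (g :: g :: t)| +
          |dl (HH U fun l => c (g :: l)) (g :: t)| :=
          (abs_sub _ _).trans (add_le_add_left (abs_sub _ _) _)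
      _ ≤ D * M + M + (n + 1) * (C * M) := add_le_add (add_le_add h1 h2) h3
      _ = _ := by ring

end Pool.Agent.Helper17.BR
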