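import Mathlib
import Pool.Agent.Helper11.BR.Defs

/-!
# Project BR: the space of points of a group of rank one and its radial retractions

`X Γ` is the quotient of the group by the relation `Γ.d x y = 0`; `pt g` is the class of `g`.
`ray P t Z` is the point of the segment from `P` to `Z` at the distance `t` from `P` (`P` for
`t ≤ 0`, `Z` for `t ≥ dist P Z`).
-/

set_option autoImplicit false

open Real Topology

namespace Pool.Agent.Helper17.BR

open Pool.Agent.Helper11.BR (R1)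

variable {G : Type} [Group G] [TopologicalSpace G] (Γ : R1 G)

theorem rho_nonneg (g : G) : 0 ≤ Γ.rho g := by
  have h1 := Γ.rho_mul g g⁻¹
  rw [mul_inv_cancel, Γ.rho_one, Γ.rho_inv] at h1
  linarith

theorem d_self (x : G) : Γ.d x x = 0 := by
  unfold R1.d
  rw [inv_mul_cancel, Γ.rho_one]

theorem d_comm (x y : G) : Γ.d x y = Γ.d y x := by
  unfold R1.d
  rw [← Γ.rho_inv, mul_inv_rev, inv_inv]

theorem d_tri (x y z : G) : Γ.d x z ≤ Γ.d x y + Γ.d y z := by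
  unfold R1.d
  have h1 := Γ.rho_mul (x⁻¹ * y) (y⁻¹ * z)
  rwa [mul_assoc, mul_inv_cancel_left] at h1

theorem d_nonneg (x y : G) : 0 ≤ Γ.d x y := rho_nonneg Γ _

theorem d_mul (g x y : G) : Γ.d (g * x) (g * y) = Γ.d x y := by
  unfold R1.d
  rw [mul_inv_rev, mul_assoc, inv_mul_cancel_left]

/-- the elements of the group as points -/

def Pt (_ : R1 G) : Type := G

instance : PseudoMetricSpace (Pt Γ) where
  dist x y := Γ.d (x : G) (y : G)
  dist_self := fun x => d_self Γ (x : G)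
  dist_comm := fun x y => d_comm Γ (x : G) (y : G)
  dist_triangle := fun x y z => d_tri Γ (x : G) (y : G) (z : G)

instance : MulAction G (Pt Γ) where
  smul g x := @HMul.hMul G G G _ g x
  one_smul := fun x => @one_mul G _ x
  mul_smul := fun g h x => @mul_assoc G _ g h x

instance : IsIsometricSMul G (Pt Γ) where
  isometry_smul := fun g => Isometry.of_dist_eq fun x y => d_mul Γ g (x : G) (y : G)

/-- the space of points -/
abbrev X : Type := SeparationQuotient (Pt Γ)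

/-- the point of an element -/
def pt (g : G) : X Γ := SeparationQuotient.mk (g : Pt Γ)

theorem dist_pt (g h : G) : dist (pt Γ g) (pt Γ h) = Γ.d g h := SeparationQuotient.dist_mk _ _

theorem smul_pt (g h : G) : g • pt Γ h = pt Γ (g * h) := rfl

theorem pt_surj (P : X Γ) : ∃ g : G, pt Γ g = P := SeparationQuotient.surjective_mk P

theorem pt_eq {g h : G} (H : Γ.d g h = 0) : pt Γ g = pt Γ h := by
  rw [← dist_eq_zero, dist_pt, H]

instance : IsIsometricSMul G (X Γ) where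
  isometry_smul := fun g => Isometry.of_dist_eq fun P Q => by
    obtain ⟨p, rfl⟩ := pt_surj Γ P
    obtain ⟨q, rfl⟩ := pt_surj Γ Q
    rw [smul_pt, smul_pt, dist_pt, dist_pt, d_mul]

theorem pt_cont [IsTopologicalGroup G] : Continuous (pt Γ) := by
  rw [continuous_iff_continuousAt]
  intro g
  rw [ContinuousAt, tendsto_iff_dist_tendsto_zero]
  have h1 : Continuous fun h : G => dist (pt Γ h) (pt Γ g) := by
    simp only [dist_pt]
    exact Γ.rho_cont.comp (continuous_inv.mul continuous_const)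
  have h2 := h1.tendsto g
  rwa [dist_self] at h2

/-! ### polar coordinates -/

theorem dg_zero : Γ.dg 0 = 1 := by
  have h1 := Γ.dg_add 0 0
  rw [add_zero] at h1
  exact (mul_eq_left.1 h1.symm)

theorem dg_neg (t : ℝ) : (Γ.dg t)⁻¹ = Γ.dg (-t) := by
  rw [inv_eq_iff_mul_eq_one, ← Γ.dg_add, add_neg_cancel, dg_zero]

/-- `k` gives the direction from `p` to `z` -/
def Seg (p z k : G) : Prop := Γ.rho k = 0 ∧ Γ.d z (p * k * Γ.dg (Γ.d p z)) = 0

theorem exists_seg (p z : G) : ∃ k, Seg Γ p z k := by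
  obtain ⟨k, h1, h2⟩ := Γ.polar (p⁻¹ * z)
  refine ⟨k, h1, ?_⟩
  unfold R1.d at *
  rw [← h2]
  congr 1
  group

theorem rho_mul_zero {g k : G} (hk : Γ.rho k = 0) : Γ.rho (g * k) = Γ.rho g := by
  have h1 := Γ.rho_mul g k
  have h2 := Γ.rho_mul (g * k) k⁻¹
  rw [mul_inv_cancel_right, Γ.rho_inv] at h2
  linarith

theorem rho_zero_mul {g k : G} (hk : Γ.rho k = 0) : Γ.rho (k * g) = Γ.rho g := by
  have h1 := Γ.rho_mul k g
  have h2 := Γ.rho_mul k⁻¹ (k * g)
  rw [inv_mul_cancel_left, Γ.rho_inv] at h2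
  linarith

theorem d_congr_right {x y z : G} (h : Γ.d y z = 0) : Γ.d x y = Γ.d x z := by
  have h1 := d_tri Γ x y z
  have h2 := d_tri Γ x z y
  rw [d_comm Γ z y] at h2
  linarith

theorem d_congr_left {x y z : G} (h : Γ.d x y = 0) : Γ.d x z = Γ.d y z := by
  rw [d_comm Γ x z, d_comm Γ y z, d_congr_right Γ h]

/-- contraction for two directions from equivalent points -/
theorem seg_rad {p p' z z' k k' : G} (hp : Γ.d p p' = 0) (hk : Seg Γ p z k)
    (hk' : Seg Γ p' z' k') {j : ℝ} (h0 : 0 ≤ j) (h1 : j ≤ Γ.d p z) (h2 : j ≤ Γ.d p' z') :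
    sinh (Γ.d (p * k * Γ.dg j) (p' * k' * Γ.dg j)) ^ 2 * (sinh (Γ.d p z) * sinh (Γ.d p' z')) ≤
      sinh j ^ 2 * sinh (Γ.d z z') ^ 2 := by
  have h3 : Γ.rho (k⁻¹ * p⁻¹ * p' * k') = 0 := by
    have e1 : k⁻¹ * p⁻¹ * p' * k' = k⁻¹ * (p⁻¹ * p') * k' := by group
    rw [e1, rho_mul_zero Γ hk'.1, rho_zero_mul Γ (by rw [Γ.rho_inv, hk.1])]
    exact hp
  have h4 := Γ.rad _ h3 j (Γ.d p z) (Γ.d p' z') h0 h1 h2
  have e2 : ∀ s t : ℝ, Γ.rho (Γ.dg (-s) * (k⁻¹ * p⁻¹ * p' * k') * Γ.dg t) =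
      Γ.d (p * k * Γ.dg s) (p' * k' * Γ.dg t) := by
    intro s t
    unfold R1.d
    rw [← dg_neg]
    congr 1
    group
  rw [e2, e2] at h4
  rwa [← d_congr_left Γ hk.2, ← d_congr_right Γ hk'.2] at h4

/-- the direction is unique -/
theorem seg_unique {p p' z z' k k' : G} (hp : Γ.d p p' = 0) (hz : Γ.d z z' = 0)
    (hk : Seg Γ p z k) (hk' : Seg Γ p' z' k') {j : ℝ} (h0 : 0 ≤ j) (h1 : j ≤ Γ.d p z) :
    Γ.d (p * k * Γ.dg j) (p' * k' * Γ.dg j) = 0 := by
  have h2 : Γ.d p' z' = Γ.d p z := by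
    rw [← d_congr_left Γ hp, ← d_congr_right Γ hz]
  have h3 := seg_rad Γ hp hk hk' h0 h1 (h2 ▸ h1)
  rw [hz, sinh_zero, h2] at h3
  have h4 := d_nonneg Γ (p * k * Γ.dg j) (p' * k' * Γ.dg j)
  rcases (d_nonneg Γ p z).eq_or_lt with h | h
  · have h5 : j = 0 := by linarith
    subst h5
    rw [dg_zero, mul_one, mul_one]
    unfold R1.d
    have e1 : (p * k)⁻¹ * (p' * k') = k⁻¹ * (p⁻¹ * p') * k' := by group
    rw [e1, rho_mul_zero Γ hk'.1, rho_zero_mul Γ (by rw [Γ.rho_inv, hk.1])]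
    exact hp
  · have h5 : 0 < sinh (Γ.d p z) := sinh_pos_iff.2 h
    by_contra H
    have h6 : 0 < Γ.d (p * k * Γ.dg j) (p' * k' * Γ.dg j) := lt_of_le_of_ne h4 (Ne.symm H)
    have h7 := sinh_pos_iff.2 h6
    have h8 : 0 < sinh (Γ.d (p * k * Γ.dg j) (p' * k' * Γ.dg j)) ^ 2 *
      (sinh (Γ.d p z) * sinh (Γ.d p z)) := by positivity
    nlinarith

/-- the parameter cut to the segment -/
noncomputable def clp (t r : ℝ) : ℝ := max 0 (min t r)

theorem clp_nonneg (t r : ℝ) : 0 ≤ clp t r := le_max_left _ _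

theorem clp_le {t r : ℝ} (hr : 0 ≤ r) : clp t r ≤ r := max_le hr (min_le_right _ _)

theorem clp_lip (t t' r r' : ℝ) : |clp t r - clp t' r'| ≤ max |t - t'| |r - r'| := by
  unfold clp
  rw [max_comm 0, max_comm 0]
  exact (abs_max_sub_max_le_abs _ _ _).trans (abs_min_sub_min_le_max _ _ _ _)

/-- The point of the segment from `P` to `Z` at the distance `t` from `P`. -/
noncomputable def ray (P : X Γ) (t : ℝ) (Z : X Γ) : X Γ :=
  pt Γ ((pt_surj Γ P).choose * (exists_seg Γ (pt_surj Γ P).choose (pt_surj Γ Z).choose).choose *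
    Γ.dg (clp t (dist P Z)))

theorem ray_pt {p z k : G} (hk : Seg Γ p z k) (t : ℝ) :
    ray Γ (pt Γ p) t (pt Γ z) = pt Γ (p * k * Γ.dg (clp t (Γ.d p z))) := by
  unfold ray
  have h1 := (pt_surj Γ (pt Γ p)).choose_spec
  have h2 := (pt_surj Γ (pt Γ z)).choose_spec
  have h3 := (exists_seg Γ (pt_surj Γ (pt Γ p)).choose (pt_surj Γ (pt Γ z)).choose).choose_spec
  have h4 : Γ.d (pt_surj Γ (pt Γ p)).choose p = 0 := by rw [← dist_pt, h1, dist_self]
  have h5 : Γ.d (pt_surj Γ (pt Γ z)).choose z = 0 := by rw [← dist_pt, h2, dist_self]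
  have h6 : Γ.d (pt_surj Γ (pt Γ p)).choose (pt_surj Γ (pt Γ z)).choose = Γ.d p z := by
    rw [d_congr_left Γ h4, d_congr_right Γ h5]
  refine pt_eq Γ ?_
  rw [dist_pt]
  refine seg_unique Γ h4 h5 h3 hk (clp_nonneg _ _) ?_
  rw [h6]
  exact clp_le (d_nonneg Γ p z)

theorem ray_inv (g : G) (P : X Γ) (t : ℝ) (Z : X Γ) : ray Γ (g • P) t (g • Z) = g • ray Γ P t Z := by
  obtain ⟨p, rfl⟩ := pt_surj Γ P
  obtain ⟨z, rfl⟩ := pt_surj Γ Z
  obtain ⟨k, hk⟩ := exists_seg Γ p z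
  have hk' : Seg Γ (g * p) (g * z) k := by
    refine ⟨hk.1, ?_⟩
    rw [d_mul, mul_assoc, mul_assoc, d_mul, ← mul_assoc]
    exact hk.2
  rw [smul_pt, smul_pt, ray_pt Γ hk, ray_pt Γ hk', smul_pt, d_mul]
  simp only [mul_assoc]

theorem ray_neg {P Z : X Γ} {t : ℝ} (ht : t ≤ 0) : ray Γ P t Z = P := by
  obtain ⟨p, rfl⟩ := pt_surj Γ P
  obtain ⟨z, rfl⟩ := pt_surj Γ Z
  obtain ⟨k, hk⟩ := exists_seg Γ p z
  rw [ray_pt Γ hk]
  have h1 : clp t (Γ.d p z) = 0 := max_eq_left ((min_le_left _ _).trans ht)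
  rw [h1, dg_zero, mul_one]
  refine pt_eq Γ ?_
  unfold R1.d
  have e1 : (p * k)⁻¹ * p = k⁻¹ := by group
  rw [e1, Γ.rho_inv, hk.1]

theorem ray_far {P Z : X Γ} {t : ℝ} (ht : dist P Z ≤ t) : ray Γ P t Z = Z := by
  obtain ⟨p, rfl⟩ := pt_surj Γ P
  obtain ⟨z, rfl⟩ := pt_surj Γ Z
  obtain ⟨k, hk⟩ := exists_seg Γ p z
  rw [ray_pt Γ hk]
  rw [dist_pt] at ht
  have h1 : clp t (Γ.d p z) = Γ.d p z := by
    unfold clp
    rw [min_eq_right ht, max_eq_right (d_nonneg Γ p z)]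
  rw [h1]
  refine pt_eq Γ ?_
  rw [d_comm]
  exact hk.2

theorem dist_ray (P : X Γ) (t t' : ℝ) (Z : X Γ) :
    dist (ray Γ P t Z) (ray Γ P t' Z) = |clp t (dist P Z) - clp t' (dist P Z)| := by
  obtain ⟨p, rfl⟩ := pt_surj Γ P
  obtain ⟨z, rfl⟩ := pt_surj Γ Z
  obtain ⟨k, hk⟩ := exists_seg Γ p z
  rw [ray_pt Γ hk, ray_pt Γ hk, dist_pt, dist_pt]
  unfold R1.d
  have e1 : (p * k * Γ.dg (clp t (Γ.rho (p⁻¹ * z))))⁻¹ *
      (p * k * Γ.dg (clp t' (Γ.rho (p⁻¹ * z)))) =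
      Γ.dg (-clp t (Γ.rho (p⁻¹ * z)) + clp t' (Γ.rho (p⁻¹ * z))) := by
    rw [Γ.dg_add, ← dg_neg]
    group
  rw [e1, Γ.rho_dg, abs_sub_comm]
  congr 1
  ring

theorem ray_step (P : X Γ) (t t' : ℝ) (Z : X Γ) :
    dist (ray Γ P t Z) (ray Γ P t' Z) ≤ |t - t'| := by
  rw [dist_ray]
  refine (clp_lip _ _ _ _).trans ?_
  rw [sub_self, abs_zero, max_eq_left (abs_nonneg _)]

/-- the segment in the other direction -/
theorem ray_rev (P : X Γ) (t : ℝ) (Z : X Γ) : ray Γ Z (dist P Z - t) P = ray Γ P t Z := by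
  obtain ⟨p, rfl⟩ := pt_surj Γ P
  obtain ⟨z, rfl⟩ := pt_surj Γ Z
  obtain ⟨k, hk⟩ := exists_seg Γ p z
  obtain ⟨r, hr⟩ : ∃ r, r = Γ.d p z := ⟨_, rfl⟩
  have hr0 : 0 ≤ r := hr ▸ d_nonneg Γ p z
  obtain ⟨κ, hκ⟩ : ∃ κ, κ = z⁻¹ * (p * k * Γ.dg r) := ⟨_, rfl⟩
  have h1 : Γ.rho κ = 0 := by rw [hκ, hr]; exact hk.2
  have e0 : ∀ s : ℝ, z * (κ * Γ.flip) * Γ.dg s = p * k * Γ.dg (r - s) * Γ.flip := by
    intro s
    have e3 : r - s = r + -s := sub_eq_add_neg _ _
    rw [hκ, e3, Γ.dg_add]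
    have e4 := Γ.flip_dg s
    calc z * (z⁻¹ * (p * k * Γ.dg r) * Γ.flip) * Γ.dg s =
        p * k * Γ.dg r * (Γ.flip * Γ.dg s) := by group
      _ = p * k * (Γ.dg r * Γ.dg (-s)) * Γ.flip := by rw [e4]; group
  have hk' : Seg Γ z p (κ * Γ.flip) := by
    refine ⟨by rw [rho_mul_zero Γ Γ.rho_flip, h1], ?_⟩
    rw [d_comm Γ z p, ← hr, e0, sub_self, dg_zero, mul_one]
    unfold R1.d
    have e1 : p⁻¹ * (p * k * Γ.flip) = k * Γ.flip := by group
    rw [e1, rho_mul_zero Γ Γ.rho_flip, hk.1]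
  rw [ray_pt Γ hk, ray_pt Γ hk', dist_pt, d_comm Γ z p, ← hr, e0]
  have e2 : r - clp (r - t) r = clp t r := by
    unfold clp
    rcases le_total t 0 with h | h
    · rw [min_eq_right (by linarith : r ≤ r - t), max_eq_right hr0, sub_self,
        max_eq_left ((min_le_left _ _).trans h)]
    · rw [min_eq_left (by linarith : r - t ≤ r)]
      rcases le_total t r with h' | h'
      · rw [max_eq_right (by linarith), min_eq_left h', max_eq_right h]
        ring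
      · rw [max_eq_left (by linarith), min_eq_right h', max_eq_right hr0, sub_zero]
  rw [e2]
  refine pt_eq Γ ?_
  unfold R1.d
  have e1 : (p * k * Γ.dg (clp t r) * Γ.flip)⁻¹ * (p * k * Γ.dg (clp t r)) = Γ.flip⁻¹ := by group
  rw [e1, Γ.rho_inv, Γ.rho_flip]

/-- the contraction of the radial retractions -/
theorem ray_rad (P Z Z' : X Γ) {t : ℝ} (h0 : 0 ≤ t) (h1 : t ≤ dist P Z) (h2 : t ≤ dist P Z') :
    sinh (dist (ray Γ P t Z) (ray Γ P t Z')) ^ 2 * (sinh (dist P Z) * sinh (dist P Z')) ≤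
      sinh t ^ 2 * sinh (dist Z Z') ^ 2 := by
  obtain ⟨p, rfl⟩ := pt_surj Γ P
  obtain ⟨z, rfl⟩ := pt_surj Γ Z
  obtain ⟨z', rfl⟩ := pt_surj Γ Z'
  obtain ⟨k, hk⟩ := exists_seg Γ p z
  obtain ⟨k', hk'⟩ := exists_seg Γ p z'
  rw [dist_pt] at h1 h2
  have e1 : ∀ {r : ℝ}, t ≤ r → clp t r = t := fun h => by
    unfold clp
    rw [min_eq_left h, max_eq_right h0]
  rw [ray_pt Γ hk, ray_pt Γ hk', e1 h1, e1 h2, dist_pt, dist_pt, dist_pt, dist_pt]
  exact seg_rad Γ (d_self Γ p) hk hk' h0 h1 h2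

theorem sinh_le_mul {j r : ℝ} (h : j ≤ r) : sinh j ≤ exp (j - r) * sinh r := by
  rw [sinh_eq, sinh_eq]
  have e1 : exp (j - r) * ((exp r - exp (-r)) / 2) = (exp j - exp (j - r - r)) / 2 := by
    rw [mul_div_assoc', mul_sub, ← exp_add, ← exp_add]
    congr 3
    ring
  rw [e1]
  have h1 : exp (j - r - r) ≤ exp (-j) := exp_le_exp.2 (by linarith)
  linarith

theorem sinh_le_self_mul {x : ℝ} : sinh x ≤ x * exp x := by
  rw [sinh_eq]
  have h1 := add_one_le_exp (-(2 * x))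
  have h2 : exp (-x) = exp x * exp (-(2 * x)) := by
    rw [← exp_add]
    congr 1
    ring
  rw [h2]
  have h3 := exp_pos x
  nlinarith

theorem ray_decay' (P Z Z' : X Γ) {t : ℝ} (h0 : 0 ≤ t) (h1 : t ≤ dist P Z) (h2 : t ≤ dist P Z') :
    sinh (dist (ray Γ P t Z) (ray Γ P t Z')) ≤
      exp (t - dist P Z + dist Z Z' / 2) * sinh (dist Z Z') := by
  have h3 := ray_rad Γ P Z Z' h0 h1 h2
  have h4 : 0 ≤ sinh (dist Z Z') := sinh_nonneg_iff.2 dist_nonneg
  have h5 : 0 ≤ sinh (dist (ray Γ P t Z) (ray Γ P t Z')) := sinh_nonneg_iff.2 dist_nonneg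
  rcases h0.eq_or_lt with h | h
  · subst h
    rw [ray_neg Γ le_rfl, ray_neg Γ le_rfl, dist_self, sinh_zero]
    exact mul_nonneg (exp_pos _).le h4
  have h6 : 0 < sinh (dist P Z) := sinh_pos_iff.2 (by linarith)
  have h7 : 0 < sinh (dist P Z') := sinh_pos_iff.2 (by linarith)
  have h8 : 0 < sinh t := sinh_pos_iff.2 h
  have h9 := sinh_le_mul h1
  have h10 : sinh t ≤ exp (t - dist P Z + dist Z Z') * sinh (dist P Z') := by
    refine (sinh_le_mul h2).trans (mul_le_mul_of_nonneg_right (exp_le_exp.2 ?_) h7.le)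
    have := dist_triangle P Z' Z
    rw [dist_comm Z' Z] at this
    linarith
  have h11 : sinh t ^ 2 ≤ exp (t - dist P Z + dist Z Z' / 2) ^ 2 *
      (sinh (dist P Z) * sinh (dist P Z')) := by
    calc sinh t ^ 2 = sinh t * sinh t := sq _
      _ ≤ (exp (t - dist P Z) * sinh (dist P Z)) *
          (exp (t - dist P Z + dist Z Z') * sinh (dist P Z')) :=
          mul_le_mul h9 h10 h8.le (by positivity)
      _ = (exp (t - dist P Z) * exp (t - dist P Z + dist Z Z')) *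
          (sinh (dist P Z) * sinh (dist P Z')) := by ring
      _ = _ := by
          rw [← exp_add, sq, ← exp_add]
          congr 2
          ring
  have h12 : sinh (dist (ray Γ P t Z) (ray Γ P t Z')) ^ 2 ≤
      (exp (t - dist P Z + dist Z Z' / 2) * sinh (dist Z Z')) ^ 2 := by
    have h13 : 0 < sinh (dist P Z) * sinh (dist P Z') := mul_pos h6 h7
    have h14 : sinh (dist (ray Γ P t Z) (ray Γ P t Z')) ^ 2 *
        (sinh (dist P Z) * sinh (dist P Z')) ≤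
        (exp (t - dist P Z + dist Z Z' / 2) * sinh (dist Z Z')) ^ 2 *
        (sinh (dist P Z) * sinh (dist P Z')) := by
      refine h3.trans ((mul_le_mul_of_nonneg_right h11 (sq_nonneg _)).trans (le_of_eq ?_))
      ring
    exact le_of_mul_le_mul_right h14 h13
  exact (sq_le_sq₀ h5 (mul_nonneg (exp_pos _).le h4)).1 h12

theorem ray_contr1 (P Z Z' : X Γ) {t : ℝ} (h0 : 0 ≤ t) (h1 : t ≤ dist P Z) (h2 : t ≤ dist P Z') :
    dist (ray Γ P t Z) (ray Γ P t Z') ≤ dist Z Z' := by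
  have h3 := ray_rad Γ P Z Z' h0 h1 h2
  rcases h0.eq_or_lt with h | h
  · subst h
    rw [ray_neg Γ le_rfl, ray_neg Γ le_rfl, dist_self]
    exact dist_nonneg
  have h4 : 0 ≤ sinh (dist Z Z') := sinh_nonneg_iff.2 dist_nonneg
  have h5 : 0 ≤ sinh (dist (ray Γ P t Z) (ray Γ P t Z')) := sinh_nonneg_iff.2 dist_nonneg
  have h8 : 0 < sinh t := sinh_pos_iff.2 h
  have h6 : sinh t ≤ sinh (dist P Z) := sinh_le_sinh.2 h1
  have h7 : sinh t ≤ sinh (dist P Z') := sinh_le_sinh.2 h2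
  have h9 : sinh (dist (ray Γ P t Z) (ray Γ P t Z')) ^ 2 * sinh t ^ 2 ≤
      sinh (dist Z Z') ^ 2 * sinh t ^ 2 := by
    have h10 : sinh t ^ 2 ≤ sinh (dist P Z) * sinh (dist P Z') := by
      rw [sq]
      exact mul_le_mul h6 h7 h8.le (h8.le.trans h6)
    have h11 := mul_le_mul_of_nonneg_left h10 (sq_nonneg (sinh (dist (ray Γ P t Z) (ray Γ P t Z'))))
    linarith
  have h12 := le_of_mul_le_mul_right h9 (by positivity)
  exact sinh_le_sinh.1 ((sq_le_sq₀ h5 h4).1 h12)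

theorem ray_contr_aux (P Z Z' : X Γ) {t : ℝ} (h0 : 0 ≤ t) (h1 : dist P Z' ≤ dist P Z) :
    dist (ray Γ P t Z) (ray Γ P t Z') ≤ 2 * dist Z Z' := by
  have hd : (0 : ℝ) ≤ dist Z Z' := dist_nonneg
  rcases le_total t (dist P Z') with h2 | h2
  · have := ray_contr1 Γ P Z Z' h0 (h2.trans h1) h2
    linarith
  · rw [ray_far Γ h2]
    have h3 := ray_contr1 Γ P Z Z' dist_nonneg h1 le_rfl
    rw [ray_far Γ (le_refl (dist P Z'))] at h3
    have h4 : dist (ray Γ P t Z) (ray Γ P (dist P Z') Z) ≤ dist Z Z' := by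
      rw [dist_ray]
      have h5 : clp (dist P Z') (dist P Z) = dist P Z' := by
        unfold clp
        rw [min_eq_left h1, max_eq_right dist_nonneg]
      have h6 : dist P Z' ≤ clp t (dist P Z) := le_max_of_le_right (le_min h2 h1)
      have h7 : clp t (dist P Z) ≤ dist P Z := clp_le dist_nonneg
      rw [h5, abs_of_nonneg (by linarith)]
      have := dist_triangle P Z' Z
      rw [dist_comm Z' Z] at this
      linarith
    have h5 := dist_triangle (ray Γ P t Z) (ray Γ P (dist P Z') Z) Z'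
    linarith

theorem ray_contr (P Z Z' : X Γ) (t : ℝ) :
    dist (ray Γ P t Z) (ray Γ P t Z') ≤ 2 * dist Z Z' := by
  have hd : (0 : ℝ) ≤ dist Z Z' := dist_nonneg
  rcases le_total t 0 with h0 | h0
  · rw [ray_neg Γ h0, ray_neg Γ h0, dist_self]
    linarith
  rcases le_total (dist P Z') (dist P Z) with h1 | h1
  · exact ray_contr_aux Γ P Z Z' h0 h1
  · rw [dist_comm, dist_comm Z Z']
    exact ray_contr_aux Γ P Z' Z h0 h1

theorem ray_decay (R : ℝ) (P Z Z' : X Γ) {t : ℝ} (h0 : 0 ≤ t) (hR : dist Z Z' ≤ R) :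
    dist (ray Γ P t Z) (ray Γ P t Z') ≤ 2 * exp (2 * R) * exp (t - dist P Z) * dist Z Z' := by
  have hd : (0 : ℝ) ≤ dist Z Z' := dist_nonneg
  have hR0 : 0 ≤ R := hd.trans hR
  by_cases h : t ≤ dist P Z ∧ t ≤ dist P Z'
  · have h1 := ray_decay' Γ P Z Z' h0 h.1 h.2
    have h2 : dist (ray Γ P t Z) (ray Γ P t Z') ≤ sinh (dist (ray Γ P t Z) (ray Γ P t Z')) :=
      self_le_sinh_iff.2 dist_nonneg
    have h3 := sinh_le_self_mul (x := dist Z Z')
    have h4 : exp (t - dist P Z + dist Z Z' / 2) * exp (dist Z Z') ≤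
        exp (2 * R) * exp (t - dist P Z) := by
      rw [← exp_add, ← exp_add]
      exact exp_le_exp.2 (by linarith)
    calc _ ≤ _ := h2
      _ ≤ _ := h1
      _ ≤ exp (t - dist P Z + dist Z Z' / 2) * (dist Z Z' * exp (dist Z Z')) :=
          mul_le_mul_of_nonneg_left h3 (exp_pos _).le
      _ = (exp (t - dist P Z + dist Z Z' / 2) * exp (dist Z Z')) * dist Z Z' := by ring
      _ ≤ (exp (2 * R) * exp (t - dist P Z)) * dist Z Z' := mul_le_mul_of_nonneg_right h4 hd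
      _ ≤ _ := by
          have : 0 ≤ exp (2 * R) * exp (t - dist P Z) * dist Z Z' := by positivity
          linarith
  · have h1 := ray_contr Γ P Z Z' t
    have h2 : -R ≤ t - dist P Z := by
      rcases not_and_or.1 h with h | h
      · linarith
      · have := dist_triangle P Z' Z
        rw [dist_comm Z' Z] at this
        linarith
    have h3 : 1 ≤ exp (2 * R) * exp (t - dist P Z) := by
      rw [← exp_add]
      exact one_le_exp (by linarith)
    calc _ ≤ _ := h1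
      _ = 2 * (1 * dist Z Z') := by ring
      _ ≤ 2 * (exp (2 * R) * exp (t - dist P Z) * dist Z Z') :=
          mul_le_mul_of_nonneg_left (mul_le_mul_of_nonneg_right h3 hd) zero_le_two
      _ = _ := by ring

theorem ray_base (P P' Z : X Γ) (t : ℝ) : dist (ray Γ P t Z) (ray Γ P' t Z) ≤ 3 * dist P P' := by
  rw [← ray_rev, ← ray_rev Γ P']
  have h1 := dist_triangle (ray Γ Z (dist P Z - t) P) (ray Γ Z (dist P' Z - t) P)
    (ray Γ Z (dist P' Z - t) P')
  have h2 := ray_step Γ Z (dist P Z - t) (dist P' Z - t) P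
  have h3 := ray_contr Γ Z P P' (dist P' Z - t)
  rw [sub_sub_sub_cancel_right] at h2
  have h4 := abs_dist_sub_le P P' Z
  linarith

theorem ray_dist (P P' Z Z' : X Γ) (t t' : ℝ) :
    dist (ray Γ P t Z) (ray Γ P' t' Z') ≤ 3 * dist P P' + |t - t'| + 2 * dist Z Z' := by
  have h1 := dist_triangle4 (ray Γ P t Z) (ray Γ P' t Z) (ray Γ P' t' Z) (ray Γ P' t' Z')
  have h2 := ray_base Γ P P' Z t
  have h3 := ray_step Γ P' t t' Z
  have h4 := ray_contr Γ P' Z Z' t'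
  linarith

theorem ray_cont : Continuous fun q : X Γ × ℝ × X Γ => ray Γ q.1 q.2.1 q.2.2 := by
  rw [continuous_iff_continuousAt]
  intro q₀
  rw [ContinuousAt, tendsto_iff_dist_tendsto_zero]
  have h1 : Filter.Tendsto (fun q : X Γ × ℝ × X Γ => 3 * dist q.1 q₀.1 + |q.2.1 - q₀.2.1| +
      2 * dist q.2.2 q₀.2.2) (𝓝 q₀) (𝓝 0) := by
    have h2 : Continuous fun q : X Γ × ℝ × X Γ => 3 * dist q.1 q₀.1 + |q.2.1 - q₀.2.1| +
        2 * dist q.2.2 q₀.2.2 := by fun_prop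
    have h3 := h2.tendsto q₀
    simpa using h3
  exact squeeze_zero (fun _ => dist_nonneg) (fun q => ray_dist Γ _ _ _ _ _ _) h1

end Pool.Agent.Helper17.BR
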