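import Mathlib
import Pool.Agent.Helper17.BR.Hom
import Pool.Agent.Helper17.BR.Pts
import Pool.Agent.Helper87.BCR.Basic

/-!
# Project BR, blocks SMO and DESC: from a bounded cocycle to the data on interior points
-/

set_option autoImplicit false

open Real Topology

namespace Pool.Agent.Helper17.BR

open Pool.Agent.Helper17.BC (dl dl_add dl_sub dl_mul dl_dl dl_congr dl_map)
open Pool.Agent.Helper11.BR (R1 PSys)

/-! ### the two alternating sums and the two notions of continuity -/

theorem dl_eq {T : Type*} (Φ : List T → ℝ) (l : List T) : Helper11.BC.dl Φ l = dl Φ l := by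
  induction l generalizing Φ with
  | nil => simp [Helper11.BC.dl, dl]
  | cons x l ih =>
    have h1 : Helper11.BC.dl Φ (x :: l) = Φ l - Helper11.BC.dl (fun D' => Φ (x :: D')) l := by
      unfold Helper11.BC.dl
      rw [List.length_cons, Finset.sum_range_succ', add_comm, sub_eq_add_neg,
        ← Finset.sum_neg_distrib]
      simp only [List.eraseIdx_cons_succ, List.eraseIdx_cons_zero, pow_zero, pow_succ,
        smul_eq_mul, one_mul]
      congr 1
      refine Finset.sum_congr rfl fun i _ => ?_
      ring
    rw [h1, ih]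
    rfl

theorem LC_of {Y : Type} [TopologicalSpace Y] {b : List Y → ℝ} (hb : Helper87.BCR.LC b) : LC b := by
  intro P _ ws hws
  have h1 : Continuous fun p : P => (fun i : Fin ws.length => ws.get i p) :=
    continuous_pi fun i => hws _ (List.get_mem _ _)
  have h2 := (hb ws.length).comp h1
  refine h2.congr fun p => ?_
  simp only [Function.comp_apply]
  congr 1
  apply List.ext_getElem
  · simp
  · intro i h3 h4
    simp

theorem LC_to {Y : Type} [TopologicalSpace Y] {b : List Y → ℝ} (hb : LC b) :
    Helper87.BCR.LC b := by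
  intro k
  have h1 := hb (Fin k → Y) (List.ofFn fun i v => v i) fun w hw => by
    obtain ⟨i, rfl⟩ := (List.mem_ofFn' _ _).1 hw
    exact continuous_apply i
  refine h1.congr fun v => ?_
  rw [List.map_ofFn]
  rfl

/-- the part of one length -/
noncomputable def cut {Y : Type} (k : ℕ) (b : List Y → ℝ) (l : List Y) : ℝ :=
  if l.length = k then b l else 0

theorem cut_eq {Y : Type} {k : ℕ} {b : List Y → ℝ} {l : List Y} (h : l.length = k) :
    cut k b l = b l := if_pos h

theorem cut_LC {Y : Type} [TopologicalSpace Y] {k : ℕ} {b : List Y → ℝ} (hb : LC b) :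
    LC (cut k b) := by
  intro P _ ws hws
  unfold cut
  by_cases h : ws.length = k
  · simp only [List.length_map, h, if_true]
    exact hb P ws hws
  · simp only [List.length_map, h, if_false]
    exact continuous_const

theorem cut_inv {Y : Type} {k : ℕ} {b : List Y → ℝ} {φ : Y → Y} (hb : ∀ l, b (l.map φ) = b l)
    (l : List Y) : cut k b (l.map φ) = cut k b l := by
  unfold cut
  rw [List.length_map, hb]

theorem LC_const {Y : Type} [TopologicalSpace Y] (r : ℝ) : LC fun _ : List Y => r :=
  fun _ _ _ _ => continuous_const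

/-! ### the operator of the smoothing -/

section

variable {G X : Type} [Group G] [TopologicalSpace G] [PseudoMetricSpace X] [MulAction G X]
  {o : X} (V : AvG G X o)

theorem Mf_sub {b c : List G → ℝ} (hb : LC b) (hc : LC c) (z : List X) :
    Mf V (fun l => b l - c l) z = Mf V b z - Mf V c z := by
  cases z with
  | nil => rfl
  | cons x z =>
    simp only [Mf]
    rw [← V.sub x _ _ (Mg_cont_head V hb x z) (Mg_cont_head V hc x z)]
    congr 1
    funext h
    exact Mg_sub V (hb.cons h) (hc.cons h) x z

theorem Mf_nat (g : G) (b : List G → ℝ) (z : List X) :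
    Mf V b (z.map (g • ·)) = Mf V (fun l => b (l.map (g * ·))) z := by
  cases z with
  | nil => rfl
  | cons x z =>
    simp only [List.map_cons, Mf]
    rw [V.inv]
    simp only [Mg_inv]

theorem Mf_LCj {P : Type} [TopologicalSpace P] {c : P → List G → ℝ} (hc : LCj c) :
    LCj fun p => Mf V (c p) := by
  intro Q _ r hr ws hws
  cases ws with
  | nil => exact hc Q r hr [] (by simp)
  | cons w ws =>
    have hw : Continuous w := hws w (by simp)
    have h1 : Continuous fun q : Q × G => Mg V (w q.1) (fun l => c (r q.1) (q.2 :: l))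
        (ws.map fun w => w q.1) := by
      have := Mg_cont V ws.length (Q × G) (fun q => w q.1) (fun q l => c (r q.1) (q.2 :: l))
        (ws.map fun w q => w q.1) (by simp) (hw.comp continuous_fst)
        (fun R _ r' hr' => (hc R (fun x => r (r' x).1)
          (hr.comp (continuous_fst.comp hr'))).cons (continuous_snd.comp hr')) fun w' hw' => by
          obtain ⟨w'', h'', rfl⟩ := List.mem_map.1 hw'
          exact (hws w'' (List.mem_cons_of_mem w h'')).comp continuous_fst
      simpa [List.map_map, Function.comp_def] using this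
    simp only [List.map_cons, Mf]
    exact V.cont Q w _ hw h1

/-- the smoothing as an operator on the functions of elements of the group -/
noncomputable def UM (c : List G → ℝ) (l : List G) : ℝ := Mf V c (l.map (· • o))

theorem UM_op (hc : Continuous fun h : G => h • o) : ChOp G (UM V) where
  nil := fun c => rfl
  sub := fun c d hc hd l => Mf_sub V hc hd _
  ch := by
    intro c hc l
    unfold UM
    rw [← dl_Mf V hc, ← dl_map]
  nat := by
    intro g c l
    unfold UM
    have e1 : (l.map (g * ·)).map (· • o) = (l.map (· • o)).map (g • ·) := by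
      rw [List.map_map, List.map_map]
      refine List.map_congr_left fun x _ => ?_
      simp only [Function.comp_apply, mul_smul]
    rw [e1, Mf_nat]
  cont := by
    intro P _ c hcc Q _ r hr ws hws
    have h1 := Mf_LCj V hcc Q r hr (ws.map fun w q => w q • o) fun w hw => by
      obtain ⟨w', h', rfl⟩ := List.mem_map.1 hw
      exact hc.comp (hws w' h')
    refine h1.congr fun q => ?_
    show Mf V (c (r q)) _ = Mf V (c (r q)) _
    congr 1
    rw [List.map_map, List.map_map]
    rfl

theorem UM_bound (n : ℕ) : ∃ C : ℝ, 0 ≤ C ∧ ∀ (c : List G → ℝ) (M : ℝ), LC c → 0 ≤ M →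
      (∀ l, l.length = n → |c l| ≤ M) → ∀ l, l.length = n → |UM V c l| ≤ C * M := by
  obtain ⟨C, hC0, hC'⟩ := V.lip
  have hC : LipC V C := ⟨hC0, hC'⟩
  refine ⟨(C + 2) ^ n, by positivity, fun c M hc hM0 hM l hl => ?_⟩
  have h1 := Mf_bound hC hc [] (l.map (· • o)) hM0 fun l' hl' _ => hM l'
    (by rw [hl', List.nil_append, List.length_map, hl])
  rw [List.length_nil, List.length_map, zero_add, hl] at h1
  show |Mf V c (l.map (· • o))| ≤ _
  simpa [gp] using h1

end

/-! ### the group of rank one -/

section

variable {G : Type} [Group G] [TopologicalSpace G] (Γ : R1 G)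

/-- the radial retractions of the space of points -/
noncomputable def radX : Rad G (X Γ) where
  Psi := fun P j Z => ray Γ P j Z
  inv := fun g P j Z => ray_inv Γ g P j Z
  zero := fun P Z => ray_neg Γ (by simp)
  far := fun P Z j h => ray_far Γ h
  step := by
    intro P j Z
    refine (ray_step Γ P _ _ Z).trans ?_
    push_cast
    rw [abs_sub_comm, add_sub_cancel_left, abs_one]
  contr := fun P j Z Z' => ray_contr Γ P Z Z' j
  decay := fun R => ⟨2 * exp (2 * R), fun P Z Z' j h => ray_decay Γ R P Z Z' (Nat.cast_nonneg j) h⟩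
  cont := fun j => (ray_cont Γ).comp
    (continuous_fst.prodMk (continuous_const.prodMk continuous_snd))

theorem actFacts [IsTopologicalGroup G] : ActFacts G (X Γ) (pt Γ 1) where
  cont := by
    simp only [smul_pt, mul_one]
    exact pt_cont Γ
  trans := by
    intro P
    obtain ⟨p, rfl⟩ := pt_surj Γ P
    exact ⟨p, by rw [smul_pt, mul_one]⟩
  proper := by
    intro R
    simp only [smul_pt, mul_one, dist_pt, R1.d, inv_one, one_mul]
    exact Γ.proper R

theorem exists_avG_R1 [IsTopologicalGroup G] : Nonempty (AvG G (X Γ) (pt Γ 1)) := by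
  have h1 : LocallyCompactSpace G := by
    refine (Γ.proper 1).locallyCompactSpace_of_mem_nhds_of_group (x := (1 : G)) ?_
    refine Filter.mem_of_superset ((isOpen_lt Γ.rho_cont continuous_const).mem_nhds
      (show Γ.rho 1 < 1 by rw [Γ.rho_one]; exact one_pos)) fun g hg => ?_
    have h2 : Γ.rho g < 1 := hg
    exact h2.le
  exact exists_avG (actFacts Γ)

/-- **Blocks SMO and DESC.** -/
theorem exists_psys_of_cocycle [IsTopologicalGroup G] {N : ℕ} (hN : 1 ≤ N) (b h : List G → ℝ)
    (hb : Helper87.BCR.LC b) (hbb : Helper87.BCR.LB b)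
    (hbi : ∀ (g : G) l, b (l.map (g * ·)) = b l)
    (hh : Helper87.BCR.LC h) (hhi : ∀ (g : G) l, h (l.map (g * ·)) = h l)
    (hd : ∀ l : List G, l.length = N + 2 → Helper11.BC.dl h l = b l)
    (hz : ∀ l, Helper11.BC.dl b l = 0) :
    ∃ (f u : List G → ℝ) (P : PSys Γ N), (∀ W : List G, W.length = N + 2 → P.fW W = f W) ∧
      Helper87.BCR.LC f ∧ Helper87.BCR.LB f ∧ (∀ l, Helper11.BC.dl f l = 0) ∧
      (∀ (g : G) l, f (l.map (g * ·)) = f l) ∧
      Helper87.BCR.LC u ∧ Helper87.BCR.LB u ∧ (∀ (g : G) l, u (l.map (g * ·)) = u l) ∧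
      ∀ l : List G, l.length = N + 2 → b l = f l + Helper11.BC.dl u l := by
  obtain ⟨V⟩ := exists_avG_R1 Γ
  have F := actFacts Γ
  have hb' := LC_of hb
  have hh' := LC_of hh
  have hzb : dl b = fun _ => 0 := by
    funext l
    rw [← dl_eq]
    exact hz l
  have hU := UM_op V F.cont
  obtain ⟨M, hM0, hM⟩ : ∃ M : ℝ, 0 ≤ M ∧ ∀ l : List G, |cut (N + 2) b l| ≤ M := by
    obtain ⟨M, hM⟩ := hbb (N + 2)
    refine ⟨max M 0, le_max_right _ _, fun l => ?_⟩
    unfold cut
    split_ifs with h1
    · exact (hM l h1).trans (le_max_left _ _)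
    · rw [abs_zero]
      exact le_max_right _ _
  have e0 : (fun g : G => g • pt Γ 1) = pt Γ := by
    funext g
    rw [smul_pt, mul_one]
  -- the input of the descent
  have I : GCoc G (X Γ) (pt Γ 1) (N + 1) (cut (N + 2) b) (cut (N + 1) h) :=
    { bLC := cut_LC hb'
      hLC := cut_LC hh'
      binv := fun g => cut_inv (hbi g)
      hinv := fun g => cut_inv (hhi g)
      bM := ⟨M, hM0, hM⟩
      coc := by
        intro W hW
        have h1 : dl (cut (N + 2) b) W = dl b W := dl_congr fun D' h2 _ => cut_eq (by omega)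
        rw [h1, hzb]
      prim := by
        intro W hW
        have h1 : dl (cut (N + 1) h) W = dl h W := dl_congr fun D' h2 _ => cut_eq (by omega)
        rw [h1, cut_eq hW, ← hd W hW, dl_eq]
      hloc := by
        intro R
        obtain ⟨M', hM'0, hM'⟩ := loc_bound F (n := N + 1) (c := fun v => h (List.ofFn v))
          (hh (N + 1)) (fun g x => by
            rw [← hhi g (List.ofFn x), List.map_ofFn]
            rfl) R
        refine ⟨M', hM'0, fun l hl hR => ?_⟩
        have h1 := hM' l hl hR
        rw [cut_eq hl]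
        obtain ⟨x, rfl⟩ := eq_ofFn l hl
        rwa [ofF_ofFn] at h1 }
  obtain ⟨Ff, C, hC0, Fadd, Finv, Fbd, -, Fgr, Flip⟩ :=
    descent (radX Γ) (V.toAv F.cont) (fun g x y => dist_smul g x y) (by omega) (smooth_inp V I)
  obtain ⟨L, hL0, hL'⟩ := V.lip
  have hL : LipC V L := ⟨hL0, hL'⟩
  obtain ⟨D, hD⟩ : ∃ D, D = (L + 2) ^ (N + 2) * M := ⟨_, rfl⟩
  have hD0 : 0 ≤ D := by rw [hD]; positivity
  have e1 : ∀ z : List (X Γ), z.length = N + 2 → Mf V (cut (N + 2) b) z = Mf V b z := fun z hz =>
    Mf_congr V z fun l hl => cut_eq (hl.trans hz)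
  obtain ⟨f, hf⟩ : ∃ f : List G → ℝ, f = fun l => Mf V b (l.map (pt Γ)) := ⟨_, rfl⟩
  have hfU : f = UM V b := by
    rw [hf]
    funext l
    unfold UM
    rw [e0]
  have hdf : ∀ l, dl f l = 0 := by
    intro l
    rw [hf, dl_map (pt Γ) (Mf V b), dl_Mf V hb', hzb, Mf_zero]
  have hfinv : ∀ (g : G) l, f (l.map (g * ·)) = f l := by
    intro g l
    rw [hf]
    show Mf V b ((l.map (g * ·)).map (pt Γ)) = Mf V b (l.map (pt Γ))
    rw [← Mf_inv V hbi g (l.map (pt Γ)), List.map_map, List.map_map]
    rfl
  have hfbd : ∀ l : List G, l.length = N + 2 → |f l| ≤ D := by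
    intro l hl
    have h1 := Mf_bound hL hb' [] (l.map (pt Γ)) hM0 fun l' hl' _ => by
      have := hM l'
      rwa [cut_eq (by rw [hl', List.nil_append, List.length_map, hl])] at this
    rw [List.length_nil, List.length_map, zero_add, hl] at h1
    rw [hf, hD]
    simpa [gp] using h1
  have hflip : ∀ (z E₁ : List G) (a a' : G) (E₂ : List G), z.length ≤ 1 →
      (z ++ (E₁ ++ a :: E₂)).length = N + 2 →
      |f (z ++ (E₁ ++ a :: E₂)) - f (z ++ (E₁ ++ a' :: E₂))| ≤ D * Γ.d a a' := by
    intro z E₁ a a' E₂ hz hl
    have h1 := Mf_lip hL (cut_LC (k := N + 2) hb') (z.map (pt Γ)) (E₁.map (pt Γ)) (pt Γ a)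
      (pt Γ a') (E₂.map (pt Γ)) hM0 hM
    have h2 : gp (z.map (pt Γ)) = 1 := by
      rcases z with _ | ⟨x, _ | ⟨y, z⟩⟩
      · rfl
      · rfl
      · simp at hz
    have h3 : (L + 2) ^ ((z.map (pt Γ)).length + ((E₁.map (pt Γ)).length +
        (E₂.map (pt Γ)).length + 1)) = (L + 2) ^ (N + 2) := by
      congr 1
      simp only [List.length_append, List.length_cons] at hl
      simp only [List.length_map]
      omega
    rw [e1 _ (by
        simp only [List.length_append, List.length_cons, List.length_map] at hl ⊢
        omega), e1 _ (by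
        simp only [List.length_append, List.length_cons, List.length_map] at hl ⊢
        omega), h2, h3, dist_pt, mul_one] at h1
    rw [hf, hD]
    simp only [List.map_append, List.map_cons]
    refine h1.trans (le_of_eq ?_)
    ring
  -- the correction
  obtain ⟨u, hu⟩ : ∃ u : List G → ℝ, u = fun l => -HH (UM V) b l := ⟨_, rfl⟩
  have huu : u = fun l => (-1 : ℝ) * HH (UM V) b l := by
    rw [hu]
    funext l
    ring
  have hHz : ∀ l, HH (UM V) (dl b) l = 0 := by
    intro l
    have h1 := HH_sub hU l.length (fun _ => 0) (fun _ => 0) (LC_const 0) (LC_const 0) l rfl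
    simp only [sub_self] at h1
    rw [hzb, h1]
  refine ⟨f, u,
    { f0 := fun s Y => f (s :: Y)
      fW := f
      F := fun E s t => Ff (E.map (pt Γ)) (pt Γ s) (pt Γ t)
      C := 1 + D + C
      one_le_C := by linarith
      f0_bdd := fun s Y hY => (hfbd (s :: Y) (by rw [List.length_cons, hY])).trans (by linarith)
      f0_lip := by
        intro l₁ l₂ g h' s hl
        have h1 := hflip [s] l₁ g h' l₂ (by simp) (by
          simp only [List.length_append, List.length_cons, List.length_nil] at hl ⊢
          omega)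
        have h2 := d_nonneg Γ g h'
        exact h1.trans (mul_le_mul_of_nonneg_right (by linarith) h2)
      f0_lip_left := by
        intro s t Y hY
        have h1 := hflip [] [] s t Y (by simp) (by
          simp only [List.nil_append, List.length_cons]
          omega)
        have h2 := d_nonneg Γ s t
        exact h1.trans (mul_le_mul_of_nonneg_right (by linarith) h2)
      f0_inv := fun g s Y => hfinv g (s :: Y)
      f0_bd := by
        intro s W _
        have h1 := hdf (s :: W)
        have h2 : dl f (s :: W) = f W - dl (fun Y => f (s :: Y)) W := rfl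
        rw [dl_eq]
        linarith
      F_inv := by
        intro g E s t
        have h1 := Finv g (E.map (pt Γ)) (pt Γ s) (pt Γ t)
        rw [List.map_map] at h1 ⊢
        exact h1
      F_add := fun E s t v hE => Fadd _ _ _ _ (by rw [List.length_map, hE])
      F_bd := by
        intro Y s t hY
        rw [dl_eq, dl_map (pt Γ) fun E => Ff E (pt Γ s) (pt Γ t),
          Fbd (Y.map (pt Γ)) (pt Γ s) (pt Γ t) (by rw [List.length_map, hY]),
          e1 _ (by rw [List.length_cons, List.length_map, hY]),
          e1 _ (by rw [List.length_cons, List.length_map, hY]), hf]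
        rfl
      F_growth := by
        intro E s t hE
        have h1 := Fgr (E.map (pt Γ)) (pt Γ s) (pt Γ t) (by rw [List.length_map, hE])
        rw [dist_pt] at h1
        exact h1.trans (mul_le_mul_of_nonneg_right (by linarith) (d_nonneg Γ s t))
      F_lip := by
        intro l₁ l₂ g h' s t hl
        have h1 := Flip (l₁.map (pt Γ)) (pt Γ g) (pt Γ h') (l₂.map (pt Γ)) (pt Γ s) (pt Γ t) (by
          simp only [List.length_append, List.length_cons] at hl
          simp only [List.length_map]
          omega)
        rw [dist_pt, dist_pt] at h1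
        simp only [List.map_append, List.map_cons]
        refine h1.trans ?_
        exact mul_le_mul_of_nonneg_right (mul_le_mul_of_nonneg_right (by linarith)
          (d_nonneg Γ s t)) (d_nonneg Γ g h') },
    fun W _ => rfl, ?_, ?_, ?_, hfinv, ?_, ?_, ?_, ?_⟩
  · rw [hfU]
    exact LC_to ((hU.cont Unit (fun _ => b) hb'.lcj).lc ())
  · intro k
    obtain ⟨C', hC'0, hC'⟩ := UM_bound V k
    obtain ⟨M', hM'⟩ := hbb k
    refine ⟨C' * max M' 0, fun l hl => ?_⟩
    rw [hfU]
    exact hC' b (max M' 0) hb' (le_max_right _ _)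
      (fun l' hl' => (hM' l' hl').trans (le_max_left _ _)) l hl
  · intro l
    rw [dl_eq]
    exact hdf l
  · rw [huu]
    have h1 := HH_LC hU hb'
    intro k
    exact continuous_const.mul (LC_to h1 k)
  · intro k
    obtain ⟨C', hC'0, hC'⟩ := HH_bound hU k (UM_bound V)
    obtain ⟨M', hM'⟩ := hbb (k + 1)
    refine ⟨C' * max M' 0, fun l hl => ?_⟩
    rw [hu]
    show |-HH (UM V) b l| ≤ _
    rw [abs_neg]
    exact hC' b (max M' 0) hb' (le_max_right _ _)
      (fun l' hl' => (hM' l' hl').trans (le_max_left _ _)) l hl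
  · intro g l
    rw [hu]
    show -HH (UM V) b (l.map (g * ·)) = -HH (UM V) b l
    rw [HH_inv hU hbi]
  · intro l hl
    have h1 := HH_hom hU l.length b hb' l rfl
    rw [hHz] at h1
    rw [dl_eq, huu, dl_mul, hfU]
    linarith

end

end Pool.Agent.Helper17.BR
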