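import Mathlib
import Pool.Agent.Helper17.BR.Ex

/-!
# Project BR: local bounds of linear operators which keep joint continuity
-/

set_option autoImplicit false

open Real Topology Filter

namespace Pool.Agent.Helper17.BR

open Pool.Agent.Helper17.BC (dl dl_add dl_sub dl_mul dl_dl dl_congr dl_map)

section

variable {G : Type} [TopologicalSpace G]

/-- the sets of tuples with bounded entries -/
def box (ρ : G → ℝ) (k : ℕ) (R : ℝ) : Set (Fin k → G) := {x | ∀ i, ρ (x i) ≤ R}

theorem box_compact {ρ : G → ℝ} (hp : ∀ R : ℝ, IsCompact {g | ρ g ≤ R}) (k : ℕ) (R : ℝ) :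
    IsCompact (box ρ k R) := by
  have h1 : box ρ k R = Set.univ.pi fun _ : Fin k => {g | ρ g ≤ R} := by
    ext x
    simp [box]
  rw [h1]
  exact isCompact_univ_pi fun _ => hp R

/-- a sequence of functions which tends to zero on compact sets, as a continuous family -/
theorem LCj_seq {ρ : G → ℝ} (hρ : Continuous ρ) {k : ℕ} {ψ : ℕ → List G → ℝ}
    (h1 : ∀ n, LC (ψ n)) (h2 : ∀ n l, l.length ≠ k → ψ n l = 0)
    (h3 : ∀ n : ℕ, ∀ y ∈ box ρ k n, |ψ n (List.ofFn y)| ≤ 1 / ((n : ℝ) + 1)) :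
    LCj fun (p : ℕ∞) l => if p = ⊤ then 0 else ψ p.toNat l := by
  intro Q _ r hr ws hws
  by_cases hk : ws.length = k
  swap
  · have h4 : (fun q => (fun (p : ℕ∞) l => if p = ⊤ then 0 else ψ p.toNat l) (r q)
        (ws.map fun w => w q)) = fun _ => 0 := by
      funext q
      show (if r q = ⊤ then 0 else ψ (r q).toNat (ws.map fun w => w q)) = 0
      rw [h2 _ _ (by rwa [List.length_map]), ite_self]
    rw [h4]
    exact continuous_const
  rw [continuous_iff_continuousAt]
  intro q₀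
  by_cases hq : r q₀ = ⊤
  · have hval : (fun q => (fun (p : ℕ∞) l => if p = ⊤ then 0 else ψ p.toNat l) (r q)
        (ws.map fun w => w q)) q₀ = 0 := by
      show (if r q₀ = ⊤ then 0 else ψ (r q₀).toNat (ws.map fun w => w q₀)) = 0
      rw [if_pos hq]
    show Tendsto _ (𝓝 q₀) (𝓝 ((fun q => (fun (p : ℕ∞) l => if p = ⊤ then 0 else ψ p.toNat l) (r q)
      (ws.map fun w => w q)) q₀))
    rw [hval, Metric.tendsto_nhds]
    intro ε hε
    obtain ⟨m₁, hm₁⟩ := exists_nat_one_div_lt hε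
    obtain ⟨m₂, hm₂⟩ : ∃ m : ℕ, ∀ w ∈ ws, ρ (w q₀) < m := by
      clear hk hval
      induction ws with
      | nil => exact ⟨0, fun w hw => by simp at hw⟩
      | cons w ws ih =>
        obtain ⟨m, hm⟩ := ih fun w' h => hws w' (List.mem_cons_of_mem w h)
        obtain ⟨m', hm'⟩ := exists_nat_gt (ρ (w q₀))
        refine ⟨max m m', fun w' hw' => ?_⟩
        rcases List.mem_cons.1 hw' with rfl | h
        · exact hm'.trans_le (by exact_mod_cast le_max_right _ _)
        · exact (hm w' h).trans_le (by exact_mod_cast le_max_left _ _)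
    have e1 : ∀ᶠ q in 𝓝 q₀, ∀ w ∈ ws, ρ (w q) < m₂ := by
      have key : ∀ vs : List (Q → G), (∀ w ∈ vs, Continuous w) → (∀ w ∈ vs, ρ (w q₀) < m₂) →
          ∀ᶠ q in 𝓝 q₀, ∀ w ∈ vs, ρ (w q) < m₂ := by
        intro vs
        induction vs with
        | nil => exact fun _ _ => Eventually.of_forall fun q w hw => by simp at hw
        | cons w vs ih =>
          intro hv hv'
          have h4 := ih (fun w' h => hv w' (List.mem_cons_of_mem w h))
            fun w' h => hv' w' (List.mem_cons_of_mem w h)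
          have h5 : ∀ᶠ q in 𝓝 q₀, ρ (w q) < m₂ :=
            (hρ.comp (hv w (by simp))).continuousAt.eventually_lt continuousAt_const
              (hv' w (by simp))
          filter_upwards [h4, h5] with q h6 h7 w' hw'
          rcases List.mem_cons.1 hw' with rfl | h
          · exact h7
          · exact h6 w' h
      exact key ws hws hm₂
    have e2 : ∀ᶠ q in 𝓝 q₀, ((max m₁ m₂ : ℕ) : ℕ∞) < r q := by
      have h4 : Tendsto r (𝓝 q₀) (𝓝 ⊤) := by
        rw [← hq]
        exact hr.continuousAt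
      exact ENat.tendsto_nhds_top_iff_natCast_lt.1 h4 _
    filter_upwards [e1, e2] with q h4 h5
    show dist (if r q = ⊤ then 0 else ψ (r q).toNat (ws.map fun w => w q)) 0 < ε
    by_cases h6 : r q = ⊤
    · rw [if_pos h6, dist_self]
      exact hε
    · rw [if_neg h6, Real.dist_eq, sub_zero]
      obtain ⟨n, hn⟩ := ENat.ne_top_iff_exists.1 h6
      rw [← hn, ENat.toNat_natCast]
      rw [← hn] at h5
      have h7 : max m₁ m₂ < n := by exact_mod_cast h5
      obtain ⟨y, hy⟩ := eq_ofFn (ws.map fun w => w q) (n := k) (by rwa [List.length_map])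
      rw [hy]
      refine (h3 n y fun i => ?_).trans_lt (lt_of_le_of_lt ?_ hm₁)
      · have h8 : y i ∈ ws.map fun w => w q := by
          rw [hy]
          exact (List.mem_ofFn' _ _).2 ⟨i, rfl⟩
        obtain ⟨w, hw, hw'⟩ := List.mem_map.1 h8
        rw [← hw']
        have h9 : (m₂ : ℝ) ≤ n := by exact_mod_cast (le_max_right m₁ m₂).trans h7.le
        exact (h4 w hw).le.trans h9
      · have h9 : (m₁ : ℝ) ≤ n := by exact_mod_cast (le_max_left m₁ m₂).trans h7.le
        exact one_div_le_one_div_of_le (by positivity) (by linarith)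
  · have h4 : ∀ᶠ q in 𝓝 q₀, r q = r q₀ :=
      hr.continuousAt.eventually ((ENat.isOpen_singleton hq).mem_nhds rfl)
    have h5 : ContinuousAt (fun q => ψ (r q₀).toNat (ws.map fun w => w q)) q₀ :=
      (h1 _ Q ws hws).continuousAt
    refine h5.congr ?_
    filter_upwards [h4] with q h6
    show _ = if r q = ⊤ then 0 else ψ (r q).toNat (ws.map fun w => w q)
    rw [h6, if_neg hq]

/-- local bounds -/
theorem loc_lemma {ρ : G → ℝ} (hρ : Continuous ρ) (hp : ∀ R : ℝ, IsCompact {g | ρ g ≤ R})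
    {T : (List G → ℝ) → List G → ℝ}
    (hlin : ∀ (c : List G → ℝ) (a : ℝ), LC c → ∀ l, T (fun l => a * c l) l = a * T c l)
    (hcont : ∀ (P : Type) [TopologicalSpace P] (c : P → List G → ℝ), LCj c → LCj fun p => T (c p))
    (j k : ℕ) (E : Set (Fin j → G)) (hE : IsCompact E) :
    ∃ (C : ℝ) (D : Set (Fin k → G)), IsCompact D ∧ ∀ (φ : List G → ℝ) (M : ℝ), 0 ≤ M → LC φ →
      (∀ l, l.length ≠ k → φ l = 0) → (∀ x ∈ D, |φ (List.ofFn x)| ≤ M) →
      ∀ x ∈ E, |T φ (List.ofFn x)| ≤ C * M := by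
  by_contra H
  push Not at H
  have h1 : ∀ n : ℕ, ∃ (ψ : List G → ℝ) (x : Fin j → G), LC ψ ∧ (∀ l, l.length ≠ k → ψ l = 0) ∧
      (∀ y ∈ box ρ k n, |ψ (List.ofFn y)| ≤ 1 / ((n : ℝ) + 1)) ∧ x ∈ E ∧
      1 ≤ |T ψ (List.ofFn x)| := by
    intro n
    obtain ⟨φ, M, hM0, hφ, hφs, hφM, x, hx, hx'⟩ := H (n + 1) (box ρ k n) (box_compact hp k n)
    obtain ⟨τ, hτ⟩ : ∃ τ, τ = |T φ (List.ofFn x)| := ⟨_, rfl⟩
    rw [← hτ] at hx'
    have hn : (0 : ℝ) < (n : ℝ) + 1 := by positivity
    have hτ0 : 0 < τ := lt_of_le_of_lt (by positivity) hx'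
    refine ⟨fun l => τ⁻¹ * φ l, x, fun P _ ws hws => continuous_const.mul (hφ P ws hws),
      fun l hl => by
        show τ⁻¹ * φ l = 0
        rw [hφs l hl, mul_zero], fun y hy => ?_, hx, ?_⟩
    · rw [abs_mul, abs_of_pos (inv_pos.2 hτ0), inv_mul_le_iff₀ hτ0]
      refine (hφM y hy).trans ?_
      rw [mul_one_div, le_div_iff₀ hn]
      linarith
    · rw [hlin φ _ hφ, abs_mul, abs_of_pos (inv_pos.2 hτ0), ← hτ, inv_mul_cancel₀ hτ0.ne']
  choose ψ x hψ hψs hψb hx hx' using h1
  have h2 := LCj_seq hρ hψ hψs hψb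
  have h3 := hcont ℕ∞ _ h2 (ℕ∞ × (Fin j → G)) Prod.fst continuous_fst
    (List.ofFn fun i q => q.2 i) fun w hw => by
      obtain ⟨i, rfl⟩ := (List.mem_ofFn' _ _).1 hw
      exact (continuous_apply i).comp continuous_snd
  simp only [List.map_ofFn] at h3
  have h4 : T (fun _ => (0 : ℝ)) = fun _ => 0 := by
    funext l
    have h5 := hlin (fun _ => (0 : ℝ)) 0 (fun _ _ _ _ => continuous_const) l
    simpa using h5
  have h5 : ∀ᶠ p in 𝓝 (⊤ : ℕ∞), ∀ y ∈ E,
      |T (fun l => if p = ⊤ then 0 else ψ p.toNat l) (List.ofFn y)| < 1 := by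
    refine hE.eventually_forall_of_forall_eventually fun y _ => ?_
    have h6 := (h3.continuousAt (x := ((⊤ : ℕ∞), y))).abs
    refine (h6.eventually_lt continuousAt_const (g := fun _ => (1 : ℝ)) ?_)
    have h7 : (fun l : List G => if (⊤ : ℕ∞) = ⊤ then (0 : ℝ) else ψ (⊤ : ℕ∞).toNat l) =
        fun _ => 0 := by
      funext l
      rw [if_pos rfl]
    show |T (fun l => if (⊤ : ℕ∞) = ⊤ then (0 : ℝ) else ψ (⊤ : ℕ∞).toNat l) _| < 1
    rw [h7, h4, abs_zero]
    exact one_pos
  obtain ⟨n, hn⟩ := (ENat.tendsto_natCast_nhds_top.eventually h5).exists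
  have h6 := hn (x n) (hx n)
  simp only [ENat.natCast_ne_top, if_false, ENat.toNat_natCast] at h6
  linarith [hx' n]

end

end Pool.Agent.Helper17.BR
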