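import Mathlib
import Pool.Agent.Helper17.BR.LocL

/-!
# Project BR: the operator `U` from the smoothing and a straightening
-/

set_option autoImplicit false

open Real Topology Filter

namespace Pool.Agent.Helper17.BR

open Pool.Agent.Helper17.BC (dl dl_add dl_sub dl_mul dl_dl dl_congr dl_map)

/-- what is used of the straightening -/
structure StOp (G X : Type) [Group G] [PseudoMetricSpace X] [MulAction G X]
    (st : (List X → ℝ) → List X → ℝ) : Prop where
  nil : ∀ c, st c [] = c []
  lin : ∀ (c d : List X → ℝ) (a b : ℝ), LC c → LC d → Nrm c → Nrm d → ∀ l,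
    st (fun l' => a * c l' + b * d l') l = a * st c l + b * st d l
  ch : ∀ c, LC c → Nrm c → ∀ l, dl (st c) l = st (dl c) l
  nat : ∀ (g : G) c l, st c (l.map (g • ·)) = st (fun l' => c (l'.map (g • ·))) l
  cont : ∀ (P : Type) [TopologicalSpace P] (c : P → List X → ℝ), LCj c → (∀ p, Nrm (c p)) →
    LCj fun p => st (c p)
  congr : ∀ (c d : List X → ℝ) l, (∀ l', l'.length = l.length → c l' = d l') → st c l = st d l
  bound : ∀ n : ℕ, ∃ (B D : ℝ), 0 ≤ B ∧ ∀ (c : List X → ℝ) (M : ℝ), 0 ≤ M → LC c → Nrm c →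
    (∀ (l₁ l₂ : List X) (a b : X), l₁.length + l₂.length + 1 = n + 3 → Loc D (l₁ ++ a :: l₂) →
      Loc D (l₁ ++ b :: l₂) → |c (l₁ ++ a :: l₂) - c (l₁ ++ b :: l₂)| ≤ M * dist a b) →
    ∀ l : List X, l.length = n + 3 → |st c l| ≤ B * M

theorem LC.mulc {Y : Type} [TopologicalSpace Y] {b : List Y → ℝ} (hb : LC b) (α : ℝ) :
    LC fun l => α * b l := fun P _ ws hws => continuous_const.mul (hb P ws hws)

theorem LC.addc {Y : Type} [TopologicalSpace Y] {b c : List Y → ℝ} (hb : LC b) (hc : LC c) :
    LC fun l => b l + c l := fun P _ ws hws => (hb P ws hws).add (hc P ws hws)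

section

variable {G X : Type} [Group G] [TopologicalSpace G] [PseudoMetricSpace X] [MulAction G X]
  {o : X} (V : AvG G X o)

theorem Mg_mul (b : List G → ℝ) (α : ℝ) (x : X) (z : List X) :
    Mg V x (fun l => α * b l) z = α * Mg V x b z := by
  induction z generalizing x b with
  | nil => rfl
  | cons y z ih =>
    simp only [Mg, ih, V.mul]
    ring

theorem Mf_mul (b : List G → ℝ) (α : ℝ) (z : List X) :
    Mf V (fun l => α * b l) z = α * Mf V b z := by
  cases z with
  | nil => rfl
  | cons x z =>
    simp only [Mf, Mg_mul, V.mul]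

theorem Mf_lin {b c : List G → ℝ} (hb : LC b) (hc : LC c) (α β : ℝ) (z : List X) :
    Mf V (fun l => α * b l + β * c l) z = α * Mf V b z + β * Mf V c z := by
  have h1 := Mf_sub V (hb.mulc α) (hc.mulc (-β)) z
  rw [Mf_mul, Mf_mul] at h1
  have h2 : (fun l => α * b l + β * c l) = fun l => α * b l - -β * c l := by
    funext l
    ring
  rw [h2, h1]
  ring

/-- the Lipschitz estimate with a local bound -/
theorem Mf_lip_loc {L : ℝ} (hL : LipC V L) {b : List G → ℝ} (hb : LC b) (E₁ : List X) (a a' : X)
    (E₂ : List X) {M : ℝ} (hM0 : 0 ≤ M)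
    (h1 : ∀ l : List G, l.length = (E₁ ++ a :: E₂).length →
      (∀ h ∈ l, ∃ w ∈ E₁ ++ a :: E₂, dist w (h • o) ≤ 1) → |b l| ≤ M)
    (h2 : ∀ l : List G, l.length = (E₁ ++ a' :: E₂).length →
      (∀ h ∈ l, ∃ w ∈ E₁ ++ a' :: E₂, dist w (h • o) ≤ 1) → |b l| ≤ M) :
    |Mf V b (E₁ ++ a :: E₂) - Mf V b (E₁ ++ a' :: E₂)| ≤
      (L + 2) ^ (E₁.length + E₂.length + 1) * dist a a' * M := by
  obtain ⟨b', hb'⟩ : ∃ b' : List G → ℝ, b' = fun l => max (-M) (min M (b l)) := ⟨_, rfl⟩
  have hbc : LC b' := by
    rw [hb']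
    exact fun P _ ws hws => continuous_const.max (continuous_const.min (hb P ws hws))
  have hbM : ∀ l, |b' l| ≤ M := by
    intro l
    rw [hb']
    exact abs_le.2 ⟨le_max_left _ _, max_le (by linarith) (min_le_left _ _)⟩
  have hbe : ∀ l, |b l| ≤ M → b l - b' l = 0 := by
    intro l hl
    have h3 := abs_le.1 hl
    rw [hb']
    show b l - max (-M) (min M (b l)) = 0
    rw [min_eq_right h3.2, max_eq_right h3.1, sub_self]
  have key : ∀ z : List X, (∀ l : List G, l.length = z.length →
      (∀ h ∈ l, ∃ w ∈ z, dist w (h • o) ≤ 1) → |b l| ≤ M) → Mf V b z = Mf V b' z := by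
    intro z hz
    have h3 := Mf_bound hL (hb.sub hbc) z [] (M := 0) le_rfl fun l hl hl' => by
      rw [List.append_nil] at hl hl'
      rw [hbe l (hz l hl hl'), abs_zero]
    rw [mul_zero, List.append_nil] at h3
    have h4 := abs_eq_zero.1 (le_antisymm h3 (abs_nonneg _))
    rw [Mf_sub V hb hbc] at h4
    linarith
  rw [key _ h1, key _ h2]
  have h5 := Mf_lip hL hbc [] E₁ a a' E₂ hM0 hbM
  simpa [gp] using h5

end

/-! ### linearity and locality of the cone homotopy -/

section

variable {G : Type} [Group G] [TopologicalSpace G] {U : (List G → ℝ) → List G → ℝ}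

theorem HH_lin (hL : ∀ (c d : List G → ℝ) (a b : ℝ), LC c → LC d → ∀ l,
      U (fun l' => a * c l' + b * d l') l = a * U c l + b * U d l) (n : ℕ) :
    ∀ (c d : List G → ℝ) (a b : ℝ), LC c → LC d → ∀ l : List G, l.length = n →
      HH U (fun l' => a * c l' + b * d l') l = a * HH U c l + b * HH U d l := by
  induction n with
  | zero =>
    intro c d a b _ _ l hl
    rw [List.length_eq_zero_iff] at hl
    subst hl
    simp [HH_nil]
  | succ n ih =>
    intro c d a b hc hd l hl
    obtain ⟨g, t, rfl⟩ := List.exists_cons_of_length_eq_add_one hl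
    rw [HH_cons, HH_cons, HH_cons, hL _ _ _ _ (hc.cons g) (hd.cons g)]
    have h1 : dl (HH U fun l => a * c (g :: l) + b * d (g :: l)) (g :: t) =
        a * dl (HH U fun l => c (g :: l)) (g :: t) + b * dl (HH U fun l => d (g :: l)) (g :: t) := by
      rw [← dl_mul, ← dl_mul, ← dl_add]
      refine dl_congr fun D' h _ => ih _ _ _ _ (hc.cons g) (hd.cons g) D' ?_
      simp only [List.length_cons] at h hl
      omega
    rw [h1]
    ring

theorem HH_congr (hC : ∀ (c d : List G → ℝ) l, (∀ l', l'.length = l.length → c l' = d l') →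
      U c l = U d l) (n : ℕ) :
    ∀ (c d : List G → ℝ) (l : List G), l.length = n → (∀ l', l'.length = n + 1 → c l' = d l') →
      HH U c l = HH U d l := by
  induction n with
  | zero =>
    intro c d l hl _
    rw [List.length_eq_zero_iff] at hl
    subst hl
    rfl
  | succ n ih =>
    intro c d l hl h
    obtain ⟨g, t, rfl⟩ := List.exists_cons_of_length_eq_add_one hl
    have h1 : ∀ l' : List G, l'.length = n + 1 → c (g :: l') = d (g :: l') := fun l' hl' =>
      h _ (by rw [List.length_cons, hl'])
    rw [HH_cons, HH_cons, hC (fun l => c (g :: l)) (fun l => d (g :: l)) (g :: t)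
      (fun l' hl' => h1 l' (hl'.trans hl)), h1 _ hl]
    congr 1
    refine dl_congr fun D' h2 _ => ih _ _ D' ?_ h1
    simp only [List.length_cons] at h2 hl
    omega

end

/-! ### the operator -/

section

variable {G X : Type} [Group G] [TopologicalSpace G] [PseudoMetricSpace X] [MulAction G X]
  {o : X} (V : AvG G X o) {st : (List X → ℝ) → List X → ℝ}

/-- smoothing and straightening -/
noncomputable def Ust (st : (List X → ℝ) → List X → ℝ) (c : List G → ℝ) (l : List G) : ℝ :=
  st (Mf V c) (l.map (· • o))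

variable (hst : StOp G X st)

include hst

theorem Ust_lin (c d : List G → ℝ) (a b : ℝ) (hc : LC c) (hd : LC d) (l : List G) :
    Ust V st (fun l' => a * c l' + b * d l') l = a * Ust V st c l + b * Ust V st d l := by
  unfold Ust
  have h1 : Mf V (fun l' => a * c l' + b * d l') = fun z => a * Mf V c z + b * Mf V d z := by
    funext z
    exact Mf_lin V hc hd a b z
  rw [h1, hst.lin _ _ _ _ (Mf_LC V hc) (Mf_LC V hd) (Mf_nrm V c) (Mf_nrm V d)]

theorem Ust_congr (c d : List G → ℝ) (l : List G)
    (h : ∀ l', l'.length = l.length → c l' = d l') : Ust V st c l = Ust V st d l := by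
  unfold Ust
  refine hst.congr _ _ _ fun z hz => Mf_congr V z fun l' hl' => h l' ?_
  rw [hl', hz, List.length_map]

theorem Ust_op (hc : Continuous fun h : G => h • o) : ChOp G (Ust V st) where
  nil := fun c => hst.nil _
  sub := by
    intro c d hc hd l
    have h1 := Ust_lin V hst c d 1 (-1) hc hd l
    have h2 : (fun l' => 1 * c l' + -1 * d l') = fun l' => c l' - d l' := by
      funext l'
      ring
    rw [h2] at h1
    rw [h1]
    ring
  ch := by
    intro c hcc l
    have h1 : Mf V (dl c) = dl (Mf V c) := by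
      funext z
      exact (dl_Mf V hcc z).symm
    unfold Ust
    rw [h1, ← hst.ch _ (Mf_LC V hcc) (Mf_nrm V c), ← dl_map]
  nat := by
    intro g c l
    unfold Ust
    have e1 : (l.map (g * ·)).map (· • o) = (l.map (· • o)).map (g • ·) := by
      rw [List.map_map, List.map_map]
      refine List.map_congr_left fun x _ => ?_
      simp only [Function.comp_apply, mul_smul]
    have e2 : (fun z => Mf V c (z.map (g • ·))) = Mf V fun l => c (l.map (g * ·)) := by
      funext z
      exact Mf_nat V g c z
    rw [e1, hst.nat, e2]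
  cont := by
    intro P _ c hcc Q _ r hr ws hws
    have h1 := hst.cont P (fun p => Mf V (c p)) (Mf_LCj V hcc) (fun p => Mf_nrm V (c p)) Q r hr
      (ws.map fun w q => w q • o) fun w hw => by
        obtain ⟨w', h', rfl⟩ := List.mem_map.1 hw
        exact hc.comp (hws w' h')
    refine h1.congr fun q => ?_
    show st (Mf V (c (r q))) _ = st (Mf V (c (r q))) _
    congr 1
    rw [List.map_map, List.map_map]
    rfl

end

end Pool.Agent.Helper17.BR
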