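import Mathlib
import Pool.Agent.Helper17.BR.StOp
import Pool.Agent.Helper14.SJ.StC
import Pool.Agent.Helper14.BR.RadS

/-!
# Project BR: the straightening of the block SJ satisfies `StOp`
-/

set_option autoImplicit false

open Real Topology Filter

namespace Pool.Agent.Helper17.BR

open Pool.Agent.Helper17.BC (dl)
open Pool.Agent.Helper14 (SJ.st SJ.C1 SJ.Cn SJ.Kp SJ.KK SJ.base)

/-! ### the two notions of continuity -/

theorem Cn_of {Y T : Type} [TopologicalSpace Y] [TopologicalSpace T] {c : Y → List T → ℝ}
    (h : LCj c) : SJ.Cn c := by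
  intro k
  have h1 := h (Y × (Fin k → T)) Prod.fst continuous_fst
    (List.ofFn fun i q => q.2 i) fun w hw => by
      obtain ⟨i, rfl⟩ := (List.mem_ofFn' _ _).1 hw
      exact (continuous_apply i).comp continuous_snd
  simp only [List.map_ofFn] at h1
  exact h1

theorem Cn_to {Y T : Type} [TopologicalSpace Y] [TopologicalSpace T] {c : Y → List T → ℝ}
    (h : SJ.Cn c) : LCj c := by
  intro Q _ r hr ws hws
  have h1 : Continuous fun q : Q => (r q, fun i : Fin ws.length => ws.get i q) :=
    hr.prodMk (continuous_pi fun i => hws _ (List.get_mem _ _))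
  have h2 := (h ws.length).comp h1
  refine h2.congr fun q => ?_
  simp only [Function.comp_apply]
  congr 1
  apply List.ext_getElem
  · simp
  · intro i h3 h4
    simp

theorem C1_of {T : Type} [TopologicalSpace T] {c : List T → ℝ} (h : LC c) : SJ.C1 c := LC_to h

section

variable {G X : Type} [Group G] [MetricSpace X] [MulAction G X] (R : Helper14.SJ.Rad G X) (o : X)

omit [Group G] [MulAction G X] [MetricSpace X] in
theorem KK_mul {P : ℕ → X → X} (a : ℝ) (c : List X → ℝ) (l : List X) :
    SJ.KK P (fun l => a * c l) l = a * SJ.KK P c l := by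
  unfold Helper14.SJ.KK
  simp only [Helper14.SJ.pr_smul]
  exact tsum_mul_left

theorem st_mul (a : ℝ) (n : ℕ) : ∀ (c : List X → ℝ) (L : List X), L.length = n →
    SJ.st R o (fun l => a * c l) L = a * SJ.st R o c L := by
  induction n using Nat.strong_induction_on with
  | _ n ih =>
    intro c L hn
    match L, hn with
    | [], _ => rfl
    | [x], _ => rfl
    | [x, y], _ =>
      rw [Helper14.SJ.st_two, Helper14.SJ.st_two]
      unfold Helper14.SJ.base
      have h1 : (∫ t in (-1 : ℝ)..(dist x y), (a * c [R.Ps x t y, R.Ps x (t + 1) y] -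
          a * c [R.Ps x (t + 1) y, R.Ps x t y])) = a * ∫ t in (-1 : ℝ)..(dist x y),
          (c [R.Ps x t y, R.Ps x (t + 1) y] - c [R.Ps x (t + 1) y, R.Ps x t y]) := by
        rw [← intervalIntegral.integral_const_mul]
        refine intervalIntegral.integral_congr fun t _ => ?_
        ring
      rw [h1]
      ring
    | x :: y :: z :: l, hn =>
      rw [Helper14.SJ.st_big R o _ (by simp), Helper14.SJ.st_big R o c (by simp), dl_eq, dl_eq,
        ← Helper17.BC.dl_mul]
      refine Helper17.BC.dl_congr fun D h2 _ => ?_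
      have h3 : SJ.Kp R ((x :: y :: z :: l).headD o) (fun l => a * c l) =
          fun l' => a * SJ.Kp R ((x :: y :: z :: l).headD o) c l' := by
        funext l'
        exact KK_mul a c l'
      rw [h3]
      exact ih _ (by omega) _ D rfl

theorem stOp (hd : ∀ (g : G) (x y : X), dist (g • x) (g • y) = dist x y) :
    StOp G X (SJ.st R o) where
  nil := fun c => rfl
  lin := by
    intro c d a b hc hd hnc hnd l
    have h1 := Helper14.SJ.st_sub R o (c := fun l => a * c l) (c' := fun l => -b * d l)
      (C1_of (hc.mulc a)) (C1_of (hd.mulc (-b)))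
      (fun l₁ l₂ x => by
        show a * c _ = 0
        rw [hnc, mul_zero])
      (fun l₁ l₂ x => by
        show -b * d _ = 0
        rw [hnd, mul_zero]) l
    rw [st_mul R o a _ c l rfl, st_mul R o (-b) _ d l rfl] at h1
    have h2 : (fun l' => a * c l' + b * d l') = fun l' => a * c l' - -b * d l' := by
      funext l'
      ring
    rw [h2, h1]
    ring
  ch := by
    intro c hc hn l
    have h1 := Helper14.SJ.st_dl R o (C1_of hc) (fun l₁ l₂ x => hn l₁ x l₂) l
    rw [dl_eq] at h1
    rw [← h1]
    congr 1
    funext l'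
    exact dl_eq c l'
  nat := fun g c l => Helper14.SJ.st_map R o hd g c l
  cont := fun P _ c hc hn => Cn_to (Helper14.SJ.Cn_st R o (Cn_of hc) fun p l₁ l₂ x => hn p l₁ x l₂)
  congr := fun c d l h => Helper14.SJ.st_congr R o h
  bound := by
    intro n
    obtain ⟨B, D, hB, _, h⟩ := Helper14.SJ.st_bound1 R o n
    exact ⟨B, D, hB, fun c M hM hc hn h1 l hl =>
      h c M hM (fun l₁ l₂ x => hn l₁ x l₂) (C1_of hc) h1 l hl⟩

end

end Pool.Agent.Helper17.BR
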