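import Mathlib
import Pool.Agent.Helper17.BR.StInst
import Pool.Agent.Helper87.BKF.Basic

/-!
# Project BR: the data `UData` of a group of rank one
-/

set_option autoImplicit false

open Real Topology Filter

namespace Pool.Agent.Helper17.BR

open Pool.Agent.Helper17.BC (dl dl_add dl_sub dl_mul dl_dl dl_congr dl_map)
open Pool.Agent.Helper11.BR (R1)
open Pool.Agent.Helper87.BK (Co Cy Uo)
open Pool.Agent.Helper87.BKF (UData)

theorem dl_eq' {T : Type*} (Φ : List T → ℝ) : Helper11.BC.dl Φ = dl Φ := funext (dl_eq Φ)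

section

variable {G X : Type} [Group G] [TopologicalSpace G] [IsTopologicalGroup G] [PseudoMetricSpace X]
  [MulAction G X] [IsIsometricSMul G X] {o : X}

/-- the elements of a list moved to the first element -/
theorem near_box {ρ : G → ℝ} (hρ : ∀ g, ρ g = dist o (g • o)) {φ : List G → ℝ}
    (hi : ∀ (g : G) l, φ (l.map (g * ·)) = φ l) {n : ℕ} {R M : ℝ}
    (hM : ∀ x ∈ box ρ (n + 1) R, |φ (List.ofFn x)| ≤ M) (l : List G) (hl : l.length = n + 1)
    (hR : ∀ h ∈ l, ∀ h' ∈ l, dist (h • o) (h' • o) ≤ R) : |φ l| ≤ M := by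
  obtain ⟨x, rfl⟩ := eq_ofFn l hl
  rw [← hi (x 0)⁻¹, List.map_ofFn]
  refine hM _ fun i => ?_
  have h1 := hR (x 0) ((List.mem_ofFn' _ _).2 ⟨0, rfl⟩) (x i) ((List.mem_ofFn' _ _).2 ⟨i, rfl⟩)
  show ρ ((x 0)⁻¹ * x i) ≤ R
  rw [hρ, mul_smul, ← dist_smul (x 0), smul_inv_smul]
  exact h1

theorem Ust_bd (V : AvG G X o) {st : (List X → ℝ) → List X → ℝ} (hst : StOp G X st)
    {ρ : G → ℝ} (hρ : ∀ g, ρ g = dist o (g • o)) (hp : ∀ R : ℝ, IsCompact {g | ρ g ≤ R})
    (n : ℕ) : ∃ (C : ℝ) (D : Set (Fin (n + 3) → G)), IsCompact D ∧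
    ∀ (φ : List G → ℝ) (M : ℝ), 0 ≤ M → LC φ → (∀ (g : G) l, φ (l.map (g * ·)) = φ l) →
      (∀ x ∈ D, |φ (List.ofFn x)| ≤ M) → ∀ m : List G, m.length = n + 3 →
      |Ust V st φ m| ≤ C * M := by
  obtain ⟨L, hL0, hL'⟩ := V.lip
  have hL : LipC V L := ⟨hL0, hL'⟩
  obtain ⟨B, D₀, hB, h⟩ := hst.bound n
  refine ⟨B * (L + 2) ^ (n + 3), box ρ (n + 3) (D₀ + 2), box_compact hp _ _,
    fun φ M hM0 hφ hi hM m hm => ?_⟩
  have hnear : ∀ z : List X, z.length = n + 3 → Loc D₀ z → ∀ l : List G, l.length = z.length →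
      (∀ h ∈ l, ∃ w ∈ z, dist w (h • o) ≤ 1) → |φ l| ≤ M := by
    intro z hz hD l hl hl'
    refine near_box (n := n + 2) hρ hi hM l (hl.trans hz) fun g hg g' hg' => ?_
    obtain ⟨w, hw, hw'⟩ := hl' g hg
    obtain ⟨u, hu, hu'⟩ := hl' g' hg'
    have h1 := hD w hw u hu
    have h2 := dist_triangle4 (g • o) w u (g' • o)
    rw [dist_comm (g • o) w] at h2
    linarith
  have h1 := h (Mf V φ) ((L + 2) ^ (n + 3) * M) (by positivity) (Mf_LC V hφ) (Mf_nrm V φ)
    (fun l₁ l₂ a b hl ha hb => by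
      have h2 := Mf_lip_loc V hL hφ l₁ a b l₂ hM0
        (hnear _ (by simp only [List.length_append, List.length_cons]; omega) ha)
        (hnear _ (by simp only [List.length_append, List.length_cons]; omega) hb)
      rw [hl] at h2
      refine h2.trans (le_of_eq ?_)
      ring) (m.map (· • o)) (by rw [List.length_map, hm])
  refine h1.trans (le_of_eq ?_)
  ring

/-- the data from an action -/
theorem exists_udata_of (F : ActFacts G X o) (V : AvG G X o) {st : (List X → ℝ) → List X → ℝ}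
    (hst : StOp G X st) : Nonempty (UData G) := by
  have hop := Ust_op V hst F.cont
  have hlin := fun c d a b hc hd => Ust_lin V hst c d a b hc hd
  obtain ⟨ρ, hρ⟩ : ∃ ρ : G → ℝ, ρ = fun g => dist o (g • o) := ⟨_, rfl⟩
  have hρ' : ∀ g, ρ g = dist o (g • o) := fun g => by rw [hρ]
  have hρc : Continuous ρ := by
    rw [hρ]
    exact continuous_const.dist F.cont
  have hρp : ∀ R : ℝ, IsCompact {g | ρ g ≤ R} := by
    intro R
    simp only [hρ']
    exact F.proper R
  have hU0 : ∀ l, Ust V st (fun _ => 0) l = 0 := by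
    intro l
    have h1 := hlin (fun _ => 0) (fun _ => 0) 0 0 (LC_const 0) (LC_const 0) l
    simpa using h1
  have hK0 : ∀ l, HH (Ust V st) (fun _ => 0) l = 0 := by
    intro l
    have h1 := HH_lin hlin l.length (fun _ => 0) (fun _ => 0) 0 0 (LC_const 0) (LC_const 0) l rfl
    simpa using h1
  have hKh : ∀ (c : List G → ℝ) (a : ℝ), LC c → ∀ l,
      HH (Ust V st) (fun l => a * c l) l = a * HH (Ust V st) c l := by
    intro c a hc l
    have h1 := HH_lin hlin l.length c (fun _ => 0) a 0 hc (LC_const 0) l rfl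
    simpa using h1
  have hUh : ∀ (c : List G → ℝ) (a : ℝ), LC c → ∀ l,
      Ust V st (fun l => a * c l) l = a * Ust V st c l := by
    intro c a hc l
    have h1 := hlin c (fun _ => 0) a 0 hc (LC_const 0) l
    simpa using h1
  exact ⟨
    { U := Ust V st
      K := HH (Ust V st)
      U_lin := fun j φ ψ a b hφ hψ m => hlin φ ψ a b (LC_of hφ.cont) (LC_of hψ.cont) m
      K_lin := fun j φ ψ a b hφ hψ m =>
        HH_lin hlin m.length φ ψ a b (LC_of hφ.cont) (LC_of hψ.cont) m rfl
      U_Uo := fun j φ hφ =>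
        { cont := LC_to ((hop.cont Unit (fun _ => φ) (LC_of hφ.cont).lcj).lc ())
          inv := fun g l => by
            rw [hop.nat]
            simp only [hφ.inv]
          supp := fun l hl => by
            rw [Ust_congr V hst φ (fun _ => 0) l fun l' hl' => hφ.supp l' (by rwa [hl'])]
            exact hU0 l }
      K_Uo := fun j φ hφ =>
        { cont := LC_to (HH_LC hop (LC_of hφ.cont))
          inv := fun g l => HH_inv hop hφ.inv g l
          supp := fun l hl => by
            rw [HH_congr (Ust_congr V hst) l.length φ (fun _ => 0) l rfl fun l' hl' =>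
              hφ.supp l' (by omega)]
            exact hK0 l }
      K_nil := fun φ => rfl
      U_loc := fun j E hE => by
        obtain ⟨C, D, hD, h⟩ := loc_lemma hρc hρp hUh hop.cont j j E hE
        exact ⟨C, D, hD, fun φ M hM hφ hφM => h φ M hM (LC_of hφ.cont) hφ.supp hφM⟩
      K_loc := fun j E hE => by
        obtain ⟨C, D, hD, h⟩ := loc_lemma hρc hρp hKh (fun P _ c hc => HH_LCj hop hc) j (j + 1) E hE
        exact ⟨C, D, hD, fun φ M hM hφ hφM => h φ M hM (LC_of hφ.cont) hφ.supp hφM⟩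
      U_bd := fun j hj => by
        obtain ⟨n, rfl⟩ : ∃ n, j = n + 3 := ⟨j - 3, by omega⟩
        obtain ⟨C, D, hD, h⟩ := Ust_bd V hst hρ' hρp n
        refine ⟨max C 0, D, hD, fun φ M hM hφ hφM m => ?_⟩
        by_cases hm : m.length = n + 3
        · exact (h φ M hM (LC_of hφ.cont) hφ.inv hφM m hm).trans
            (mul_le_mul_of_nonneg_right (le_max_left _ _) hM)
        · rw [Ust_congr V hst φ (fun _ => 0) m fun l' hl' => hφ.supp l' (by rwa [hl']), hU0,
            abs_zero]
          exact mul_nonneg (le_max_right _ _) hM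
      U_dl := fun j φ hφ m => by
        rw [dl_eq', dl_eq']
        exact (hop.ch φ (LC_of hφ.cont) m).symm
      homo := fun j φ hφ m _ => by
        rw [dl_eq', dl_eq']
        exact (HH_hom hop m.length φ (LC_of hφ.cont) m rfl).symm }⟩

end

/-- **`UData` for the groups of rank one.** -/
theorem exists_udata {G : Type} [Group G] [TopologicalSpace G] [IsTopologicalGroup G]
    (Γ : R1 G) : Nonempty (UData G) := by
  have h1 : LocallyCompactSpace G := by
    refine (Γ.proper 1).locallyCompactSpace_of_mem_nhds_of_group (x := (1 : G)) ?_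
    refine Filter.mem_of_superset ((isOpen_lt Γ.rho_cont continuous_const).mem_nhds
      (show Γ.rho 1 < 1 by rw [Γ.rho_one]; exact one_pos)) fun g hg => ?_
    have h2 : Γ.rho g < 1 := hg
    exact h2.le
  obtain ⟨V⟩ := exists_avG (Helper14.BR.actFacts Γ)
  exact exists_udata_of (Helper14.BR.actFacts Γ) V
    (stOp (Helper14.BR.radS Γ) (Helper14.BR.pt Γ 1) fun g x y => dist_smul g x y)

end Pool.Agent.Helper17.BR
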