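import Pool.Agent.Helper17.BR.Prism

/-!
# Project BR, block POT: the cone operator of the radial retractions
-/

set_option autoImplicit false

open Real

namespace Pool.Agent.Helper17.BR

open Pool.Agent.Helper17.BC (dl dl_add dl_sub dl_mul dl_dl dl_congr dl_map)

/-- Radial retractions: `Psi p j z` is the point of the segment from `p` to `z` at the distance
`min j (dist p z)` from `p`. -/
structure Rad (G : Type*) (X : Type) [Group G] [MulAction G X] [PseudoMetricSpace X] where
  Psi : X → ℕ → X → X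
  inv : ∀ (g : G) (p : X) (j : ℕ) (z : X), Psi (g • p) j (g • z) = g • Psi p j z
  zero : ∀ p z, Psi p 0 z = p
  far : ∀ (p z : X) (j : ℕ), dist p z ≤ j → Psi p j z = z
  step : ∀ p j z, dist (Psi p j z) (Psi p (j + 1) z) ≤ 1
  contr : ∀ p j z z', dist (Psi p j z) (Psi p j z') ≤ 2 * dist z z'
  decay : ∀ R : ℝ, ∃ C : ℝ, ∀ (p z z' : X) (j : ℕ), dist z z' ≤ R →
    dist (Psi p j z) (Psi p j z') ≤ C * exp (j - dist p z) * dist z z'
  cont : ∀ j : ℕ, Continuous fun q : X × X => Psi q.1 j q.2

/-- a bound for geometric sums -/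
theorem sum_bound (a : ℕ → ℝ) (M B : ℝ) (hB : 0 ≤ B) (h0 : ∀ j : ℕ, M ≤ j → a j = 0)
    (h1 : ∀ j : ℕ, (j : ℝ) < M → |a j| ≤ B * exp (j - M)) (J : ℕ) :
    |∑ j ∈ Finset.range J, a j| ≤ 3 * B := by
  have key : ∀ n : ℕ, (n : ℝ) < M + 1 → |∑ j ∈ Finset.range n, a j| ≤
      3 * B * exp (n - (M + 1)) := by
    intro n
    induction n with
    | zero =>
      intro _
      simp only [Finset.range_zero, Finset.sum_empty, abs_zero]
      positivity
    | succ n ih =>
      intro hn
      push_cast at hn ⊢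
      have h2 := ih (by linarith)
      have h3 := h1 n (by linarith)
      rw [Finset.sum_range_succ]
      have e1 : exp ((n : ℝ) + 1 - (M + 1)) = exp (n - M) := by
        congr 1
        ring
      have e2 : exp ((n : ℝ) - (M + 1)) = exp (n - M) * exp (-1) := by
        rw [← exp_add]
        congr 1
        ring
      have e3 : exp (-1 : ℝ) ≤ 1 / 2 := by
        rw [exp_neg, inv_eq_one_div]
        apply one_div_le_one_div_of_le (by norm_num)
        have := add_one_le_exp (1 : ℝ)
        linarith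
      rw [e1]
      rw [e2] at h2
      have e4 : 0 < exp ((n : ℝ) - M) := exp_pos _
      have e5 : 3 * B * (exp ((n : ℝ) - M) * exp (-1)) ≤ 3 * B * (exp ((n : ℝ) - M) * (1 / 2)) :=
        mul_le_mul_of_nonneg_left (mul_le_mul_of_nonneg_left e3 e4.le) (by positivity)
      have e6 : 0 ≤ B * exp ((n : ℝ) - M) := by positivity
      calc _ ≤ _ := abs_add_le _ _
        _ ≤ 3 * B * (exp ((n : ℝ) - M) * exp (-1)) + B * exp ((n : ℝ) - M) := add_le_add h2 h3
        _ ≤ 3 * B * exp ((n : ℝ) - M) := by linarith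
  rcases lt_or_ge (J : ℝ) (M + 1) with hJ | hJ
  · refine (key J hJ).trans ?_
    have : exp ((J : ℝ) - (M + 1)) ≤ 1 := exp_le_one_iff.2 (by linarith)
    have h2 : 0 ≤ 3 * B := by positivity
    nlinarith
  · have e1 : ∑ j ∈ Finset.range J, a j = ∑ j ∈ Finset.range ⌈M⌉₊, a j := by
      have h2 : ⌈M⌉₊ ≤ J := Nat.ceil_le.2 (by linarith)
      rw [← Finset.sum_range_add_sum_Ico _ h2]
      rw [Finset.sum_eq_zero (s := Finset.Ico ⌈M⌉₊ J), add_zero]
      intro j hj
      exact h0 j (Nat.ceil_le.1 (Finset.mem_Ico.1 hj).1)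
    rw [e1]
    rcases le_or_gt M 0 with hM | hM
    · rw [Nat.ceil_eq_zero.2 hM]
      simp only [Finset.range_zero, Finset.sum_empty, abs_zero]
      positivity
    · have h2 := Nat.ceil_lt_add_one hM.le
      refine (key _ h2).trans ?_
      have : exp ((⌈M⌉₊ : ℝ) - (M + 1)) ≤ 1 := exp_le_one_iff.2 (by linarith)
      have h2 : 0 ≤ 3 * B := by positivity
      nlinarith

section

variable {G : Type*} {X : Type} [Group G] [MulAction G X] [PseudoMetricSpace X] (A : Rad G X)

/-- enough steps -/
noncomputable def stp (p : X) (z : List X) : ℕ := ⌈(z.map (dist p)).sum⌉₊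

theorem le_stp (p : X) {z : List X} {x : X} (hx : x ∈ z) : dist p x ≤ stp p z := by
  refine le_trans ?_ (Nat.le_ceil _)
  refine List.single_le_sum (fun y hy => ?_) _ (List.mem_map.2 ⟨x, hx, rfl⟩)
  obtain ⟨w, -, rfl⟩ := List.mem_map.1 hy
  exact dist_nonneg

/-- the cone operator with centre `p` -/
noncomputable def K (p : X) (c : List X → ℝ) (z : List X) : ℝ :=
  ∑ j ∈ Finset.range (stp p z), pr (A.Psi p j) (A.Psi p (j + 1)) c z

theorem pr_far {c : List X → ℝ} (hc : Nrm c) {p : X} {z : List X} {j : ℕ}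
    (h : ∀ x ∈ z, dist p x ≤ j) : pr (A.Psi p j) (A.Psi p (j + 1)) c z = 0 :=
  pr_id hc (fun x hx => A.far p x j (h x hx))
    fun x hx => A.far p x (j + 1) ((h x hx).trans (by push_cast; linarith))

theorem K_eq {c : List X → ℝ} (hc : Nrm c) {p : X} {z : List X} {J : ℕ}
    (h : ∀ x ∈ z, dist p x ≤ J) :
    K A p c z = ∑ j ∈ Finset.range J, pr (A.Psi p j) (A.Psi p (j + 1)) c z := by
  unfold K
  have key : ∀ m n : ℕ, m ≤ n → (∀ x ∈ z, dist p x ≤ m) →
      ∑ j ∈ Finset.range m, pr (A.Psi p j) (A.Psi p (j + 1)) c z =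
        ∑ j ∈ Finset.range n, pr (A.Psi p j) (A.Psi p (j + 1)) c z := by
    intro m n hmn hm
    rw [← Finset.sum_range_add_sum_Ico _ hmn, Finset.sum_eq_zero (s := Finset.Ico m n), add_zero]
    intro j hj
    refine pr_far A hc fun x hx => (hm x hx).trans ?_
    exact_mod_cast (Finset.mem_Ico.1 hj).1
  rcases le_total (stp p z) J with h1 | h1
  · exact key _ _ h1 fun x hx => le_stp p hx
  · exact (key _ _ h1 h).symm

theorem K_nrm {c : List X → ℝ} (hc : Nrm c) (p : X) : Nrm (K A p c) := by
  intro l₁ a l₂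
  unfold K
  exact Finset.sum_eq_zero fun j _ => hc.pr l₁ a l₂

theorem K_sub (p : X) (c c' : List X → ℝ) (z : List X) :
    K A p (fun l => c l - c' l) z = K A p c z - K A p c' z := by
  unfold K
  rw [← Finset.sum_sub_distrib]
  exact Finset.sum_congr rfl fun j _ => pr_sub _ _ _ _ _

theorem K_inv (g : G) (hg : ∀ x y : X, dist (g • x) (g • y) = dist x y) (p : X)
    (c : List X → ℝ) (z : List X) :
    K A (g • p) c (z.map (g • ·)) = K A p (fun l => c (l.map (g • ·))) z := by
  unfold K
  have h1 : stp (g • p) (z.map (g • ·)) = stp p z := by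
    unfold stp
    congr 2
    rw [List.map_map]
    refine List.map_congr_left fun x _ => ?_
    exact hg p x
  rw [h1]
  refine Finset.sum_congr rfl fun j _ => ?_
  exact pr_map _ _ _ _ _ (fun x => A.inv g p j x) (fun x => A.inv g p (j + 1) x) c z

/-- the cone operator is a contracting homotopy -/
theorem K_dl {c : List X → ℝ} (hc : Nrm c) (p : X) {z : List X} (hz : 2 ≤ z.length)
    (hd : ∀ w : List X, w.length = z.length + 1 → dl c w = 0) : dl (K A p c) z = c z := by
  have e1 : dl (K A p c) z = dl (fun l => ∑ j ∈ Finset.range (stp p z),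
      pr (A.Psi p j) (A.Psi p (j + 1)) c l) z := by
    refine dl_congr fun D _ hD => ?_
    exact K_eq A hc fun x hx => le_stp p (hD hx)
  have e2 : ∀ J : ℕ, dl (fun l => ∑ j ∈ Finset.range J, pr (A.Psi p j) (A.Psi p (j + 1)) c l) z =
      c (z.map (A.Psi p J)) - c (z.map (A.Psi p 0)) := by
    intro J
    induction J with
    | zero => simp only [Finset.range_zero, Finset.sum_empty, sub_self, dl_zero]
    | succ J ih =>
      have e3 : (fun l => ∑ j ∈ Finset.range (J + 1), pr (A.Psi p j) (A.Psi p (j + 1)) c l) =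
          fun l => (∑ j ∈ Finset.range J, pr (A.Psi p j) (A.Psi p (j + 1)) c l) +
            pr (A.Psi p J) (A.Psi p (J + 1)) c l := by
        funext l
        rw [Finset.sum_range_succ]
      have e4 := pr_dl (A.Psi p J) (A.Psi p (J + 1)) c z
      have e5 : pr (A.Psi p J) (A.Psi p (J + 1)) (dl c) z = 0 := by
        refine pr_eq_zero fun l₁ a l₂ hl => hd _ ?_
        rw [hl]
        simp only [List.length_append, List.length_map, List.length_cons]
        ring
      rw [e3, dl_add, ih]
      linarith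
  have e6 : z.map (A.Psi p (stp p z)) = z := by
    conv_rhs => rw [← List.map_id z]
    exact List.map_congr_left fun x hx => A.far p x _ (le_stp p hx)
  have e7 : c (z.map (A.Psi p 0)) = 0 := by
    obtain ⟨a, z, rfl⟩ := List.exists_cons_of_length_pos (by omega : 0 < z.length)
    obtain ⟨b, z, rfl⟩ := List.exists_cons_of_length_pos (l := z)
      (by simp only [List.length_cons] at hz; omega)
    simp only [List.map_cons, A.zero]
    exact hc [] p _
  rw [e1, e2, e6, e7, sub_zero]

/-- bound of the cone operator -/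
theorem K_bound (R : ℝ) (m : ℕ) (hm : 2 ≤ m) : ∃ C : ℝ, 0 ≤ C ∧ ∀ (c : List X → ℝ) (B : ℝ),
    0 ≤ B → Nrm c →
    (∀ w : List X, w.length = m + 1 → Loc (2 * R + 1) w → |c w| ≤ B * gp w) →
    ∀ (p : X) (z : List X), z.length = m → Loc R z → |K A p c z| ≤ C * B * gp z := by
  classical
  obtain ⟨C, hC⟩ := A.decay R
  refine ⟨3 * (m * (2 ^ m * (|C| * exp (|R| + 1)))), by positivity,
    fun c B hB hc hb p z hz hR => ?_⟩
  obtain ⟨x₀, hx₀⟩ : ∃ x, x ∈ z := List.exists_mem_of_length_pos (by omega)
  -- the largest distance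
  obtain ⟨M, hM1, hM2⟩ : ∃ M : ℝ, (∀ x ∈ z, dist p x ≤ M) ∧ ∀ x ∈ z, M ≤ dist p x + |R| := by
    obtain ⟨x, hx, hx'⟩ := Finset.exists_max_image z.toFinset (dist p)
      ⟨x₀, List.mem_toFinset.2 hx₀⟩
    refine ⟨dist p x, fun y hy => hx' y (List.mem_toFinset.2 hy), fun y hy => ?_⟩
    have h1 := hR y hy x (List.mem_toFinset.1 hx)
    have h2 := dist_triangle p y x
    linarith [le_abs_self R]
  have key := sum_bound (fun j => pr (A.Psi p j) (A.Psi p (j + 1)) c z) M
    (m * (2 ^ m * (|C| * exp (|R| + 1))) * B * gp z) (by have := gp_nonneg z; positivity)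
    (fun j hj => pr_far A hc fun x hx => (hM1 x hx).trans hj) (fun j hj => ?_) (stp p z)
  · refine key.trans (le_of_eq ?_)
    ring
  · obtain ⟨q, hq⟩ : ∃ q : ℝ, q = |C| * exp (|R| + 1) * exp (j - M) := ⟨_, rfl⟩
    have hq0 : 0 ≤ q := by rw [hq]; positivity
    have hd : ∀ i : ℕ, i ≤ j + 1 → ∀ x ∈ z, ∀ y ∈ z,
        dist (A.Psi p i x) (A.Psi p i y) ≤ min q 2 * dist x y := by
      intro i hi x hx y hy
      rcases le_total q 2 with h | h
      · rw [min_eq_left h]
        refine (hC p x y i (hR x hx y hy)).trans ?_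
        refine mul_le_mul_of_nonneg_right ?_ dist_nonneg
        rw [hq, mul_assoc]
        refine mul_le_mul (le_abs_self C) ?_ (exp_pos _).le (abs_nonneg C)
        rw [← exp_add]
        apply exp_le_exp.2
        have h1 := hM2 x hx
        have h2 : (i : ℝ) ≤ j + 1 := by exact_mod_cast hi
        linarith
      · rw [min_eq_right h]
        exact A.contr p i x y
    have h1 : |pr (A.Psi p j) (A.Psi p (j + 1)) c z| ≤
        z.length * (B * (2 ^ m * q * gp z)) := by
      refine pr_bound _ _ _ _ fun l₁ a l₂ hl => ?_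
      subst hl
      refine (hb _ ?_ ?_).trans (mul_le_mul_of_nonneg_left ?_ hB)
      · rw [← hz]
        simp only [List.length_append, List.length_map, List.length_cons]
        ring
      · -- the list has small diameter
        have hcase : ∀ x ∈ (l₁.map (A.Psi p j) ++ A.Psi p j a :: A.Psi p (j + 1) a ::
            l₂.map (A.Psi p (j + 1))), ∃ y ∈ l₁ ++ a :: l₂,
            x = A.Psi p j y ∨ x = A.Psi p (j + 1) y := by
          intro x hx
          simp only [List.mem_append, List.mem_map, List.mem_cons] at hx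
          rcases hx with ⟨y, hy, rfl⟩ | rfl | rfl | ⟨y, hy, rfl⟩
          · exact ⟨y, by simp [hy], Or.inl rfl⟩
          · exact ⟨a, by simp, Or.inl rfl⟩
          · exact ⟨a, by simp, Or.inr rfl⟩
          · exact ⟨y, by simp [hy], Or.inr rfl⟩
        intro x hx y hy
        obtain ⟨x', hx', hx2⟩ := hcase x hx
        obtain ⟨y', hy', hy2⟩ := hcase y hy
        have k1 := hR x' hx' y' hy'
        rcases hx2 with rfl | rfl <;> rcases hy2 with rfl | rfl
        · linarith [A.contr p j x' y']
        · have := dist_triangle (A.Psi p j x') (A.Psi p j y') (A.Psi p (j + 1) y')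
          linarith [A.contr p j x' y', A.step p j y']
        · have := dist_triangle (A.Psi p (j + 1) x') (A.Psi p j x') (A.Psi p j y')
          have k2 := A.step p j x'
          rw [dist_comm] at k2
          linarith [A.contr p j x' y']
        · linarith [A.contr p (j + 1) x' y']
      · refine (gp_prism_le (q := min q 2) (le_min hq0 zero_le_two) l₁ a l₂
          (hd j (Nat.le_succ j)) (hd (j + 1) le_rfl) (A.step p j a)).trans ?_
        refine mul_le_mul_of_nonneg_right ?_ (gp_nonneg _)
        obtain ⟨i, hi, hi'⟩ : ∃ i : ℕ, l₁.length + l₂.length = i + 1 ∧ i ≤ m := by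
          simp only [List.length_append, List.length_cons] at hz
          exact ⟨l₁.length + l₂.length - 1, by omega, by omega⟩
        rw [hi, pow_succ]
        have h3 : (0 : ℝ) ≤ min q 2 := le_min hq0 zero_le_two
        refine mul_le_mul ?_ (min_le_left _ _) h3 (by positivity)
        exact (pow_le_pow_left₀ h3 (min_le_right _ _) i).trans
          (pow_le_pow_right₀ one_le_two hi')
    rw [hz] at h1
    refine h1.trans (le_of_eq ?_)
    rw [hq]
    ring

end

end Pool.Agent.Helper17.BR
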