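import Pool.Agent.Helper17.BR.Pot

/-!
# Project BR, block POT: the descent
-/

set_option autoImplicit false

open Real Topology

namespace Pool.Agent.Helper17.BR

open Pool.Agent.Helper17.BC (dl dl_add dl_sub dl_mul dl_dl dl_congr dl_map)

variable {X : Type} {G : Type*} [Group G] [MulAction G X] [PseudoMetricSpace X]

/-- the input of the descent: a cocycle `f` of degree `n` and a primitive `β` (with `n` variables) -/
structure Inp (G : Type*) {X : Type} [Group G] [MulAction G X] [PseudoMetricSpace X] (n : ℕ)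
    (f β : List X → ℝ) : Prop where
  coc : ∀ W : List X, W.length = n + 2 → dl f W = 0
  prim : ∀ W : List X, W.length = n + 1 → dl β W = f W
  fN : ∀ m l : ℕ, m + l = n + 1 → Nice G m l fun E z => f (z ++ E)
  bN : Nice G n 0 fun _ z => β z

/-- the function of two groups of variables with the correction by the previous function -/
noncomputable def gam (f : List X → ℝ) (s : ℝ) (lam : List X → List X → ℝ) (E z : List X) : ℝ :=
  f (z ++ E) + s * dl (fun E' => lam E' z) E

theorem gam_nice {f : List X → ℝ} {m l : ℕ} (hf : Nice G m (l + 1) fun E z => f (z ++ E))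
    {lam : List X → List X → ℝ} (hl : Nice G m l lam) (s : ℝ) :
    Nice G m (l + 1) (gam f s lam) where
  inv := by
    intro g E z
    unfold gam
    have h1 : f (z.map (g • ·) ++ E.map (g • ·)) = f (z ++ E) := hf.inv g E z
    have h2 : dl (fun E' => lam E' (z.map (g • ·))) (E.map (g • ·)) = dl (fun E' => lam E' z) E := by
      rw [← dl_map]
      exact dl_congr fun D _ _ => hl.inv g D z
    rw [h1, h2]
  nrm := by
    intro E l₁ a l₂
    unfold gam
    have h1 : f ((l₁ ++ a :: a :: l₂) ++ E) = 0 := hf.nrm E l₁ a l₂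
    have h2 : dl (fun E' => lam E' (l₁ ++ a :: a :: l₂)) E = 0 := by
      rw [dl_congr (Ψ := fun _ => 0) fun D _ _ => hl.nrm D l₁ a l₂]
      exact dl_zero E
    rw [h1, h2]
    ring
  cont := by
    intro E P _ ws hws
    unfold gam
    exact (hf.cont E P ws hws).add (continuous_const.mul
      (dl_cont (fun p E' => lam E' (ws.map fun w => w p)) E fun E' => hl.cont E' P ws hws))
  gpb := by
    intro R
    obtain ⟨C, hC0, hC⟩ := hf.gpb R
    obtain ⟨D, hD0, hD⟩ := hl.gpb R
    refine ⟨C + |s| * ((l + 1) * D), by positivity, fun E z hE hz hR => ?_⟩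
    unfold gam
    have h1 := hC E z hE hz hR
    have h2 := dl_bound (fun E' => lam E' z) E (K := D * gp z) fun D' hD' =>
      hD D' z (by omega) hz hR
    rw [hE] at h2
    push_cast at h2
    calc _ ≤ _ := abs_add_le _ _
      _ ≤ C * gp z + |s| * ((l + 1) * (D * gp z)) := by
          rw [abs_mul]
          exact add_le_add h1 (mul_le_mul_of_nonneg_left h2 (abs_nonneg s))
      _ = _ := by ring
  lip := by
    intro R
    obtain ⟨C, hC0, hC⟩ := hf.lip R
    obtain ⟨D, hD0, hD⟩ := hl.lip R
    refine ⟨C + |s| * (l * D), by positivity, fun E₁ a b E₂ z hE hz hR => ?_⟩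
    unfold gam
    have h1 : |f (z ++ (E₁ ++ a :: E₂)) - f (z ++ (E₁ ++ b :: E₂))| ≤ C * dist a b * gp z :=
      hC E₁ a b E₂ z hE hz hR
    have h2 := dl_lip (fun E' => lam E' z) E₁ a b E₂ (L := D * dist a b * gp z)
      fun F₁ F₂ hF => hD F₁ a b F₂ z (by omega) hz hR
    have h3 : (E₁.length : ℝ) + E₂.length = l := by
      have : E₁.length + E₂.length = l := by omega
      exact_mod_cast this
    rw [h3] at h2
    have e1 : f (z ++ (E₁ ++ a :: E₂)) + s * dl (fun E' => lam E' z) (E₁ ++ a :: E₂) -
        (f (z ++ (E₁ ++ b :: E₂)) + s * dl (fun E' => lam E' z) (E₁ ++ b :: E₂)) =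
        (f (z ++ (E₁ ++ a :: E₂)) - f (z ++ (E₁ ++ b :: E₂))) +
        s * (dl (fun E' => lam E' z) (E₁ ++ a :: E₂) - dl (fun E' => lam E' z) (E₁ ++ b :: E₂)) := by
      ring
    rw [e1]
    calc _ ≤ _ := abs_add_le _ _
      _ ≤ C * dist a b * gp z + |s| * (l * (D * dist a b * gp z)) := by
          rw [abs_mul]
          exact add_le_add h1 (mul_le_mul_of_nonneg_left h2 (abs_nonneg s))
      _ = _ := by ring

/-- closedness -/
theorem gam_closed {n : ℕ} {f β : List X → ℝ} (I : Inp G n f β) {m l : ℕ} (hml : m + l = n)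
    {lam : List X → List X → ℝ} {E w : List X} (hE : E.length = l + 1) (hw : w.length = m + 1)
    (hrel : dl (fun E' => dl (lam E') w) E = dl (fun E' => f (w ++ E')) E) :
    dl (gam f ((-1) ^ (m + 1)) lam E) w = 0 := by
  have e1 : gam f ((-1) ^ (m + 1)) lam E = fun z => f (z ++ E) +
      (fun z => (-1) ^ (m + 1) * dl (fun E' => lam E' z) E) z := rfl
  have e2 : dl (fun z => (-1 : ℝ) ^ (m + 1) * dl (fun E' => lam E' z) E) w =
      (-1) ^ (m + 1) * dl (fun E' => f (w ++ E')) E := by
    rw [dl_mul, dl_comm, hrel]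
  have e3 := I.coc (w ++ E) (by rw [List.length_append, hE, hw]; omega)
  rw [dl_append, hw] at e3
  rw [e1, dl_add, e2]
  exact e3

variable (A : Rad G X) (V : Av G X)

/-- the functions of the descent -/
noncomputable def lamb (n : ℕ) (f β : List X → ℝ) : ℕ → List X → List X → ℝ
  | 0 => fun _ z => β z
  | i + 1 => cone A V (gam f ((-1) ^ (n - i + 1)) (lamb n f β i))

theorem lamb_spec (hg : ∀ (g : G) (x y : X), dist (g • x) (g • y) = dist x y) {n : ℕ}
    {f β : List X → ℝ} (I : Inp G n f β) (i : ℕ) (hi : i + 2 ≤ n) :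
    Nice G (n - i) i (lamb A V n f β i) ∧
    ∀ E w : List X, E.length = i + 1 → w.length = n - i + 1 →
      dl (fun E' => dl (lamb A V n f β i E') w) E = dl (fun E' => f (w ++ E')) E := by
  induction i with
  | zero =>
    refine ⟨I.bN, fun E w hE hw => dl_congr fun E' hE' _ => ?_⟩
    have h1 : E' = [] := List.length_eq_zero_iff.1 (by omega)
    subst h1
    rw [List.append_nil]
    exact I.prim w (by omega)
  | succ i ih =>
    obtain ⟨h1, h2⟩ := ih (by omega)
    have hn : n - i = (n - (i + 1)) + 1 := by omega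
    have h3 : Nice G (n - (i + 1) + 1) (i + 1) (gam f ((-1) ^ (n - i + 1)) (lamb A V n f β i)) :=
      gam_nice (I.fN _ _ (by omega)) (hn ▸ h1) _
    refine ⟨cone_nice A V hg (by omega) h3, fun E w hE hw => ?_⟩
    have h4 : ∀ E' : List X, E'.length = i + 1 →
        dl (lamb A V n f β (i + 1) E') w =
          gam f ((-1) ^ (n - i + 1)) (lamb A V n f β i) E' w := by
      intro E' hE'
      refine cone_dl A V h3 (by omega) hE' (fun w' hw' => ?_) hw
      exact gam_closed I (m := n - i) (l := i) (by omega) hE' (by omega)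
        (h2 E' w' hE' (by omega))
    have h5 : dl (fun E' => dl (lamb A V n f β (i + 1) E') w) E =
        dl (fun E' => f (w ++ E') + (fun E' => (-1) ^ (n - i + 1) *
          dl (fun E'' => lamb A V n f β i E'' w) E') E') E :=
      dl_congr fun E' hE' _ => h4 E' (by omega)
    rw [h5, dl_add, dl_mul, dl_dl (fun E'' => lamb A V n f β i E'' w), mul_zero, add_zero]

include A in
/-- an additive function with a linear bound for close points has a linear bound -/
theorem chain_bound {F : X → X → ℝ} (hF : ∀ s t u, F s t + F t u = F s u) {C : ℝ} (hC : 0 ≤ C)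
    (h : ∀ s t, dist s t ≤ 1 → |F s t| ≤ C * dist s t) (s t : X) :
    |F s t| ≤ 2 * C * dist s t := by
  rcases le_total (dist s t) 1 with h1 | h1
  · have := h s t h1
    have h2 : 0 ≤ C * dist s t := by positivity
    linarith
  · have key : ∀ J : ℕ, |F s (A.Psi s J t)| ≤ C * J := by
      intro J
      induction J with
      | zero =>
        have h2 : F s s = 0 := by
          have := hF s s s
          linarith
        rw [A.zero, h2, abs_zero]
        simp
      | succ J ih =>
        have h3 := A.step s J t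
        have h4 := h _ _ h3
        have h5 : C * dist (A.Psi s J t) (A.Psi s (J + 1) t) ≤ C * 1 :=
          mul_le_mul_of_nonneg_left h3 hC
        rw [← hF s (A.Psi s J t)]
        push_cast
        calc _ ≤ _ := abs_add_le _ _
          _ ≤ C * J + C * 1 := add_le_add ih (h4.trans h5)
          _ = C * (J + 1) := by ring
    have h2 := key ⌈dist s t⌉₊
    rw [A.far s t _ (Nat.le_ceil _)] at h2
    refine h2.trans ?_
    have h3 := Nat.ceil_lt_add_one (dist_nonneg : 0 ≤ dist s t)
    have h4 : C * (⌈dist s t⌉₊ : ℝ) ≤ C * (2 * dist s t) :=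
      mul_le_mul_of_nonneg_left (by linarith) hC
    linarith

include A V in
/-- **The descent.** -/
theorem descent (hg : ∀ (g : G) (x y : X), dist (g • x) (g • y) = dist x y) {n : ℕ} (hn : 2 ≤ n)
    {f β : List X → ℝ} (I : Inp G n f β) : ∃ (F : List X → X → X → ℝ) (C : ℝ), 0 ≤ C ∧
      (∀ E s t u, E.length + 1 = n → F E s t + F E t u = F E s u) ∧
      (∀ (g : G) E s t, F (E.map (g • ·)) (g • s) (g • t) = F E s t) ∧
      (∀ Y s t, Y.length = n → dl (fun E => F E s t) Y = f (s :: Y) - f (t :: Y)) ∧
      (∀ E, Continuous fun q : X × X => F E q.1 q.2) ∧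
      (∀ E s t, E.length + 1 = n → |F E s t| ≤ C * dist s t) ∧
      ∀ (E₁ : List X) (a b : X) (E₂ : List X) (s t : X), E₁.length + E₂.length + 2 = n →
        |F (E₁ ++ a :: E₂) s t - F (E₁ ++ b :: E₂) s t| ≤ C * dist s t * dist a b := by
  obtain ⟨k, rfl⟩ : ∃ k, n = k + 2 := ⟨n - 2, by omega⟩
  obtain ⟨h1, h2⟩ := lamb_spec A V hg I k le_rfl
  have hk : k + 2 - k = 2 := by omega
  rw [hk] at h1 h2
  obtain ⟨γ, hγ⟩ : ∃ γ, γ = gam f ((-1) ^ (2 + 1)) (lamb A V (k + 2) f β k) := ⟨_, rfl⟩
  have hN : Nice G 2 (k + 1) γ := by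
    rw [hγ]
    exact gam_nice (I.fN _ _ (by omega)) h1 _
  have hcl : ∀ E w : List X, E.length = k + 1 → w.length = 3 → dl (γ E) w = 0 := by
    intro E w hE hw
    rw [hγ]
    exact gam_closed I (m := 2) (l := k) (by omega) hE hw (h2 E w hE hw)
  have hadd : ∀ E s t u, E.length = k + 1 → γ E [s, t] + γ E [t, u] = γ E [s, u] := by
    intro E s t u hE
    have h3 := hcl E [s, t, u] hE rfl
    simp only [dl] at h3
    linarith
  obtain ⟨C, hC0, hC⟩ := hN.gpb 1
  obtain ⟨D, hD0, hD⟩ := hN.lip 1
  have hloc : ∀ s t : X, dist s t ≤ 1 → Loc 1 [s, t] := by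
    intro s t hst x hx y hy
    simp only [List.mem_cons, List.not_mem_nil, or_false] at hx hy
    rcases hx with rfl | rfl <;> rcases hy with rfl | rfl
    · rw [dist_self]; exact zero_le_one
    · exact hst
    · rwa [dist_comm]
    · rw [dist_self]; exact zero_le_one
  have hgp : ∀ s t : X, gp [s, t] = dist s t := fun s t => by simp [gp]
  refine ⟨fun E s t => γ E [s, t], 2 * C + 2 * D, by positivity, fun E s t u hE =>
    hadd E s t u (by omega), fun g E s t => hN.inv g E [s, t], fun Y s t hY => ?_, fun E => ?_,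
    fun E s t hE => ?_, fun E₁ a b E₂ s t hE => ?_⟩
  · have h3 : dl (fun E => γ E [s, t]) Y = dl (fun E => f ([s, t] ++ E) +
        (fun E => (-1) ^ (2 + 1) * dl (fun E'' => lamb A V (k + 2) f β k E'' [s, t]) E) E) Y := by
      rw [hγ]
      rfl
    have h4 := I.coc (s :: t :: Y) (by simp only [List.length_cons]; omega)
    have h5 : dl f (s :: t :: Y) = f (t :: Y) - (f (s :: Y) - dl (fun E => f ([s, t] ++ E)) Y) := rfl
    rw [h3, dl_add, dl_mul, dl_dl (fun E'' => lamb A V (k + 2) f β k E'' [s, t]), mul_zero,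
      add_zero]
    linarith
  · exact hN.cont E (X × X) [Prod.fst, Prod.snd] fun w hw => by
      simp only [List.mem_cons, List.not_mem_nil, or_false] at hw
      rcases hw with rfl | rfl
      · exact continuous_fst
      · exact continuous_snd
  · have h3 := chain_bound A (fun s t u => hadd E s t u (by omega)) hC0
      (fun s t hst => by
        have := hC E [s, t] (by omega) rfl (hloc s t hst)
        rwa [hgp] at this) s t
    have h4 : 0 ≤ D * dist s t := by positivity
    linarith
  · have h3 := chain_bound A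
      (F := fun s t => γ (E₁ ++ a :: E₂) [s, t] - γ (E₁ ++ b :: E₂) [s, t])
      (fun s t u => by
        have e1 := hadd (E₁ ++ a :: E₂) s t u (by
          simp only [List.length_append, List.length_cons]; omega)
        have e2 := hadd (E₁ ++ b :: E₂) s t u (by
          simp only [List.length_append, List.length_cons]; omega)
        linarith) (C := D * dist a b) (by positivity)
      (fun s t hst => by
        have := hD E₁ a b E₂ [s, t] (by omega) rfl (hloc s t hst)
        rwa [hgp] at this) s t
    have h4 : 0 ≤ C * dist s t * dist a b := by positivity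
    show |γ (E₁ ++ a :: E₂) [s, t] - γ (E₁ ++ b :: E₂) [s, t]| ≤ _
    linarith

end Pool.Agent.Helper17.BR
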