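import Pool.Agent.Helper17.BR.Cone

/-!
# Project BR, block POT: descent from a bounded cocycle with an unbounded primitive

`f` is a normalised cocycle of degree `n` on the metric space `X`, bounded by the product of the gaps
(`gp`) in the first variables and Lipschitz in the others, and `f = dl β` with `β` bounded by `gp` on lists
of bounded diameter.  Then there is a family `F E s t` of exactly additive functions of `(s, t)`.
-/

set_option autoImplicit false

open Real Topology

namespace Pool.Agent.Helper17.BR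

open Pool.Agent.Helper17.BC (dl dl_add dl_sub dl_mul dl_dl dl_congr dl_map)

/-! ### alternating sums -/

section Alg

variable {X Y : Type*}

theorem dl_append (f : List Y → ℝ) (w E : List Y) : dl f (w ++ E) =
    dl (fun z => f (z ++ E)) w + (-1 : ℝ) ^ w.length * dl (fun E' => f (w ++ E')) E := by
  induction w generalizing f with
  | nil => simp [dl]
  | cons x w ih =>
    have e1 : dl f (x :: w ++ E) = f (w ++ E) - dl (fun l => f (x :: l)) (w ++ E) := rfl
    have e2 : dl (fun z => f (z ++ E)) (x :: w) = f (w ++ E) -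
        dl (fun z => f (x :: z ++ E)) w := rfl
    rw [e1, e2, ih, List.length_cons, pow_succ]
    simp only [List.cons_append]
    ring

theorem dl_comm (Φ : List Y → List X → ℝ) (E : List Y) (w : List X) :
    dl (fun z => dl (fun E' => Φ E' z) E) w = dl (fun E' => dl (Φ E') w) E := by
  induction w generalizing Φ with
  | nil =>
    have : dl (fun _ : List Y => (0 : ℝ)) E = 0 := by
      have := dl_mul 0 (fun _ : List Y => (0 : ℝ)) E
      simpa using this
    exact this.symm
  | cons x w ih =>
    have e1 : dl (fun z => dl (fun E' => Φ E' z) E) (x :: w) = dl (fun E' => Φ E' w) E -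
        dl (fun z => dl (fun E' => Φ E' (x :: z)) E) w := rfl
    have e2 : (fun E' => dl (Φ E') (x :: w)) =
        fun E' => Φ E' w - dl (fun z => Φ E' (x :: z)) w := rfl
    rw [e1, e2, ih (fun E' z => Φ E' (x :: z)), dl_sub (fun E' => Φ E' w)]

theorem dl_bound (Φ : List Y → ℝ) (l : List Y) {K : ℝ}
    (h : ∀ D' : List Y, D'.length + 1 = l.length → |Φ D'| ≤ K) : |dl Φ l| ≤ l.length * K := by
  induction l generalizing Φ with
  | nil => simp [dl]
  | cons x l ih =>
    simp only [dl]
    have h1 := h l (by simp)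
    have h2 := ih (fun D' => Φ (x :: D')) fun D' h3 => h (x :: D')
      (by simp only [List.length_cons]; omega)
    rw [List.length_cons]
    push_cast
    calc |Φ l - dl (fun D' => Φ (x :: D')) l| ≤ |Φ l| + |dl (fun D' => Φ (x :: D')) l| :=
          abs_sub _ _
      _ ≤ K + l.length * K := add_le_add h1 h2
      _ = (l.length + 1) * K := by ring

theorem dl_lip (Φ : List Y → ℝ) (E₁ : List Y) (a b : Y) (E₂ : List Y) {L : ℝ}
    (h : ∀ F₁ F₂ : List Y, F₁.length + F₂.length + 1 = E₁.length + E₂.length →
      |Φ (F₁ ++ a :: F₂) - Φ (F₁ ++ b :: F₂)| ≤ L) :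
    |dl Φ (E₁ ++ a :: E₂) - dl Φ (E₁ ++ b :: E₂)| ≤ (E₁.length + E₂.length) * L := by
  induction E₁ generalizing Φ with
  | nil =>
    have e1 : dl Φ ([] ++ a :: E₂) - dl Φ ([] ++ b :: E₂) =
        -dl (fun D => Φ (a :: D) - Φ (b :: D)) E₂ := by
      rw [dl_sub (fun D => Φ (a :: D))]
      simp only [List.nil_append, dl]
      ring
    rw [e1, abs_neg]
    refine (dl_bound _ _ (K := L) fun D' hD' => h [] D' ?_).trans ?_
    · simp only [List.length_nil]
      omega
    · simp only [List.length_nil]
      push_cast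
      linarith
  | cons x E₁ ih =>
    have e1 : dl Φ (x :: E₁ ++ a :: E₂) - dl Φ (x :: E₁ ++ b :: E₂) =
        (Φ (E₁ ++ a :: E₂) - Φ (E₁ ++ b :: E₂)) -
        (dl (fun D => Φ (x :: D)) (E₁ ++ a :: E₂) - dl (fun D => Φ (x :: D)) (E₁ ++ b :: E₂)) := by
      simp only [List.cons_append, dl]
      ring
    rw [e1]
    have h1 := h E₁ E₂ (by simp only [List.length_cons]; ring)
    have h2 := ih (fun D => Φ (x :: D)) fun F₁ F₂ hF => h (x :: F₁) F₂
      (by simp only [List.length_cons]; omega)
    rw [List.length_cons]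
    push_cast
    calc _ ≤ _ := abs_sub _ _
      _ ≤ L + (E₁.length + E₂.length) * L := add_le_add h1 h2
      _ = _ := by ring

end Alg

/-! ### continuity of functions of lists -/

variable {X : Type}

/-- continuity on lists of each length, with parameters -/
def LCp {P : Type} [TopologicalSpace P] [TopologicalSpace X] (c : P → List X → ℝ) : Prop :=
  ∀ ws : List (P → X), (∀ w ∈ ws, Continuous w) → Continuous fun p => c p (ws.map fun w => w p)

/-- continuity on lists of each length -/
def LC [TopologicalSpace X] (c : List X → ℝ) : Prop :=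
  ∀ (P : Type) [TopologicalSpace P], LCp (fun _ : P => c)

theorem LCp.cons {P : Type} [TopologicalSpace P] [TopologicalSpace X] {c : P → List X → ℝ}
    (h : LCp c) {w : P → X} (hw : Continuous w) : LCp fun p l => c p (w p :: l) := by
  intro ws hws
  exact h (w :: ws) fun w' hw' => by
    rcases List.mem_cons.1 hw' with rfl | h'
    · exact hw
    · exact hws w' h'

theorem LCp.pr {P : Type} [TopologicalSpace P] [TopologicalSpace X] {Φ Ψ : P → X → X}
    (hΦ : ∀ w : P → X, Continuous w → Continuous fun p => Φ p (w p))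
    (hΨ : ∀ w : P → X, Continuous w → Continuous fun p => Ψ p (w p))
    {c : P → List X → ℝ} (hc : LCp c) : LCp fun p l => pr (Φ p) (Ψ p) (c p) l := by
  intro ws
  induction ws generalizing c with
  | nil => intro _; exact continuous_const
  | cons w ws ih =>
    intro hws
    have hw : Continuous w := hws w (by simp)
    have hws' : ∀ w' ∈ ws, Continuous w' := fun w' h => hws w' (List.mem_cons_of_mem w h)
    have h1 := hc ((fun p => Φ p (w p)) :: (fun p => Ψ p (w p)) ::
      ws.map fun w' p => Ψ p (w' p)) fun w' hw' => by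
        rcases List.mem_cons.1 hw' with rfl | h'
        · exact hΦ w hw
        rcases List.mem_cons.1 h' with rfl | h'
        · exact hΨ w hw
        obtain ⟨w'', h'', rfl⟩ := List.mem_map.1 h'
        exact hΨ w'' (hws' w'' h'')
    have h2 := ih (hc.cons (hΦ w hw)) hws'
    simp only [List.map_cons, List.map_map] at h1
    simp only [List.map_cons, BR.pr, List.map_map]
    exact h1.sub h2

theorem dl_cont {P Y : Type} [TopologicalSpace P] (Φ : P → List Y → ℝ) (E : List Y)
    (h : ∀ E', Continuous fun p => Φ p E') : Continuous fun p => dl (Φ p) E := by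
  induction E generalizing Φ with
  | nil => exact continuous_const
  | cons x E ih => exact (h E).sub (ih (fun p E' => Φ p (x :: E')) fun E' => h (x :: E'))

/-- Averages over centres near a point. -/
structure Av (G : Type*) (X : Type) [Group G] [MulAction G X] [PseudoMetricSpace X] where
  av : X → (X → ℝ) → ℝ
  sub : ∀ (x : X) (φ ψ : X → ℝ), Continuous φ → Continuous ψ →
    av x (fun p => φ p - ψ p) = av x φ - av x ψ
  const : ∀ (x : X) (r : ℝ), av x (fun _ => r) = r
  inv : ∀ (g : G) (x : X) (φ : X → ℝ), av (g • x) φ = av x fun p => φ (g • p)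
  bound : ∀ (x : X) (φ : X → ℝ) (M : ℝ), Continuous φ → (∀ p, |φ p| ≤ M) → |av x φ| ≤ M
  lip : ∃ C : ℝ, 0 ≤ C ∧ ∀ (x y : X) (φ : X → ℝ) (M : ℝ), Continuous φ → (∀ p, |φ p| ≤ M) →
    |av x φ - av y φ| ≤ C * dist x y * M
  cont : ∀ (P : Type) [TopologicalSpace P] (x : X) (φ : P → X → ℝ),
    (Continuous fun q : P × X => φ q.1 q.2) → Continuous fun s => av x (φ s)

/-- the families of functions of the descent -/
structure Nice (G : Type*) {X : Type} [Group G] [MulAction G X] [PseudoMetricSpace X] (m l : ℕ)
    (γ : List X → List X → ℝ) : Prop where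
  inv : ∀ (g : G) E z, γ (E.map (g • ·)) (z.map (g • ·)) = γ E z
  nrm : ∀ E, Nrm (γ E)
  cont : ∀ E, LC (γ E)
  gpb : ∀ R : ℝ, ∃ C : ℝ, 0 ≤ C ∧ ∀ E z, E.length = l → z.length = m → Loc R z →
    |γ E z| ≤ C * gp z
  lip : ∀ R : ℝ, ∃ C : ℝ, 0 ≤ C ∧ ∀ (E₁ : List X) (a b : X) (E₂ z : List X),
    E₁.length + E₂.length + 1 = l → z.length = m → Loc R z →
    |γ (E₁ ++ a :: E₂) z - γ (E₁ ++ b :: E₂) z| ≤ C * dist a b * gp z

section

variable {G : Type*} [Group G] [MulAction G X] [PseudoMetricSpace X] (A : Rad G X) (V : Av G X)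

/-- continuity of the cone operator -/
theorem LCp.K {P : Type} [TopologicalSpace P] {a : P → X} (ha : Continuous a)
    {c : P → List X → ℝ} (hc : LCp c) (hn : ∀ p, Nrm (c p)) :
    LCp fun p l => K A (a p) (c p) l := by
  intro ws hws
  refine continuous_iff_continuousAt.2 fun p₀ => ?_
  obtain ⟨J, hJ⟩ : ∃ J : ℕ, ∀ w ∈ ws, dist (a p₀) (w p₀) < J := by
    refine ⟨stp (a p₀) (ws.map fun w => w p₀) + 1, fun w hw => ?_⟩
    have := le_stp (a p₀) (z := ws.map fun w => w p₀) (List.mem_map.2 ⟨w, hw, rfl⟩)
    push_cast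
    linarith
  have hev : ∀ᶠ p in 𝓝 p₀, ∀ w ∈ ws, dist (a p) (w p) < J := by
    have key : ∀ vs : List (P → X), (∀ w ∈ vs, Continuous w) → (∀ w ∈ vs, dist (a p₀) (w p₀) < J) →
        ∀ᶠ p in 𝓝 p₀, ∀ w ∈ vs, dist (a p) (w p) < J := by
      intro vs
      induction vs with
      | nil => intro _ _; simp
      | cons w vs ih =>
        intro h1 h2
        have h3 := ih (fun w' h => h1 w' (List.mem_cons_of_mem w h))
          fun w' h => h2 w' (List.mem_cons_of_mem w h)
        have h4 : ∀ᶠ p in 𝓝 p₀, dist (a p) (w p) < J :=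
          (ha.dist (h1 w (by simp))).continuousAt.eventually_lt continuousAt_const (h2 w (by simp))
        filter_upwards [h3, h4] with p h5 h6 w' hw'
        rcases List.mem_cons.1 hw' with rfl | h'
        · exact h6
        · exact h5 w' h'
    exact key ws hws hJ
  have h1 : ContinuousAt (fun p => ∑ j ∈ Finset.range J,
      BR.pr (A.Psi (a p) j) (A.Psi (a p) (j + 1)) (c p) (ws.map fun w => w p)) p₀ := by
    refine Continuous.continuousAt (continuous_finsetSum _ fun j _ => ?_)
    exact LCp.pr (Φ := fun p => A.Psi (a p) j) (Ψ := fun p => A.Psi (a p) (j + 1))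
      (fun w hw => (A.cont j).comp (ha.prodMk hw))
      (fun w hw => (A.cont (j + 1)).comp (ha.prodMk hw)) hc ws hws
  refine h1.congr ?_
  filter_upwards [hev] with p hp
  refine (K_eq A (hn p) fun x hx => ?_).symm
  obtain ⟨w, hw, rfl⟩ := List.mem_map.1 hx
  exact (hp w hw).le

theorem K_cont {c : List X → ℝ} (hc : LC c) (hn : Nrm c) (z : List X) :
    Continuous fun p => K A p c z := by
  have h1 := LCp.K A (P := X) continuous_id (c := fun _ => c) (hc X) (fun _ => hn)
    (z.map fun x _ => x) fun w hw => by
      obtain ⟨x, -, rfl⟩ := List.mem_map.1 hw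
      exact continuous_const
  simpa [List.map_map, Function.comp_def] using h1

/-- average and alternating sum -/
theorem av_dl (x : X) (Φ : X → List X → ℝ) (h : ∀ l, Continuous fun p => Φ p l) (z : List X) :
    V.av x (fun p => dl (Φ p) z) = dl (fun l => V.av x fun p => Φ p l) z := by
  induction z generalizing Φ with
  | nil => exact V.const x 0
  | cons y z ih =>
    have e1 : (fun p => dl (Φ p) (y :: z)) = fun p => Φ p z - dl (fun D => Φ p (y :: D)) z := rfl
    rw [e1, V.sub x _ _ (h z) (dl_cont (fun p D => Φ p (y :: D)) z fun E' => h (y :: E')),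
      ih (fun p D => Φ p (y :: D)) fun l => h (y :: l)]
    rfl

/-- the next function of the descent -/
noncomputable def cone (c : List X → List X → ℝ) : List X → List X → ℝ
  | [], _ => 0
  | x :: E, z => V.av x fun p => K A p (c (x :: E)) z

theorem cone_nice (hg : ∀ (g : G) (x y : X), dist (g • x) (g • y) = dist x y) {m l : ℕ}
    (hm : 2 ≤ m) {c : List X → List X → ℝ} (hc : Nice G (m + 1) (l + 1) c) :
    Nice G m (l + 1) (cone A V c) where
  inv := by
    intro g E z
    cases E with
    | nil => rfl
    | cons x E =>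
      show V.av (g • x) (fun p => K A p (c ((g • x) :: E.map (g • ·))) (z.map (g • ·))) =
        V.av x fun p => K A p (c (x :: E)) z
      rw [V.inv]
      congr 1
      funext p
      rw [K_inv A g (hg g)]
      congr 1
      funext l
      exact hc.inv g (x :: E) l
  nrm := by
    intro E l₁ a l₂
    cases E with
    | nil => rfl
    | cons x E =>
      show V.av x (fun p => K A p (c (x :: E)) (l₁ ++ a :: a :: l₂)) = 0
      have : (fun p => K A p (c (x :: E)) (l₁ ++ a :: a :: l₂)) = fun _ => (0 : ℝ) := by
        funext p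
        exact K_nrm A (hc.nrm _) p _ _ _
      rw [this, V.const]
  cont := by
    intro E P _ ws hws
    cases E with
    | nil => exact continuous_const
    | cons x E =>
      refine V.cont P x (fun s p => K A p (c (x :: E)) (ws.map fun w => w s)) ?_
      have h1 := LCp.K A (P := P × X) (a := Prod.snd) continuous_snd (c := fun _ => c (x :: E))
        (hc.cont _ (P × X)) (fun _ => hc.nrm _) (ws.map fun w q => w q.1) fun w hw => by
          obtain ⟨w', hw', rfl⟩ := List.mem_map.1 hw
          exact (hws w' hw').comp continuous_fst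
      simpa [List.map_map, Function.comp_def] using h1
  gpb := by
    intro R
    obtain ⟨C, hC0, hC⟩ := hc.gpb (2 * R + 1)
    obtain ⟨C', hC'0, hC'⟩ := K_bound A R m hm
    refine ⟨C' * C, by positivity, fun E z hE hz hR => ?_⟩
    obtain ⟨x, E, rfl⟩ := List.exists_cons_of_length_eq_add_one hE
    refine V.bound x _ _ (K_cont A (hc.cont _) (hc.nrm _) z) fun p => ?_
    exact hC' (c (x :: E)) C hC0 (hc.nrm _) (fun w hw hw' => hC _ _ hE hw hw') p z hz hR
  lip := by
    intro R
    obtain ⟨C, hC0, hC⟩ := hc.gpb (2 * R + 1)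
    obtain ⟨D, hD0, hD⟩ := hc.lip (2 * R + 1)
    obtain ⟨C', hC'0, hC'⟩ := K_bound A R m hm
    obtain ⟨L, hL0, hL⟩ := V.lip
    refine ⟨C' * D + L * (C' * C), by positivity, fun E₁ a b E₂ z hE hz hR => ?_⟩
    have hgp := gp_nonneg z
    have key : ∀ (F F' : List X) (y : X), (∀ w : List X, w.length = m + 1 → Loc (2 * R + 1) w →
        |c F w - c F' w| ≤ D * dist a b * gp w) →
        |V.av y (fun p => K A p (c F) z) - V.av y fun p => K A p (c F') z| ≤
          C' * (D * dist a b) * gp z := by
      intro F F' y hFF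
      rw [← V.sub y _ _ (K_cont A (hc.cont _) (hc.nrm _) z) (K_cont A (hc.cont _) (hc.nrm _) z)]
      refine V.bound y _ _ ((K_cont A (hc.cont _) (hc.nrm _) z).sub
        (K_cont A (hc.cont _) (hc.nrm _) z)) fun p => ?_
      rw [← K_sub]
      exact hC' _ (D * dist a b) (by positivity) ((hc.nrm _).sub (hc.nrm _)) hFF p z hz hR
    cases E₁ with
    | cons x E₁ =>
      have h1 := key (x :: (E₁ ++ a :: E₂)) (x :: (E₁ ++ b :: E₂)) x
        fun w hw hw' => hD (x :: E₁) a b E₂ w hE hw hw'
      refine h1.trans ?_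
      have h2 : 0 ≤ L * (C' * C) * dist a b * gp z := by positivity
      linarith
    | nil =>
      have h1 := key (a :: E₂) (b :: E₂) b fun w hw hw' => hD [] a b E₂ w hE hw hw'
      have hl : ∀ y : X, (y :: E₂).length = l + 1 := by
        intro y
        simp only [List.length_nil, zero_add, List.length_cons] at hE ⊢
        exact hE
      have h2 := hL a b (fun p => K A p (c (a :: E₂)) z) (C' * C * gp z)
        (K_cont A (hc.cont _) (hc.nrm _) z) fun p =>
          hC' (c (a :: E₂)) C hC0 (hc.nrm _) (fun w hw hw' => hC _ _ (hl a) hw hw') p z hz hR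
      have e1 : cone A V c ([] ++ a :: E₂) z - cone A V c ([] ++ b :: E₂) z =
          (V.av a (fun p => K A p (c (a :: E₂)) z) - V.av b fun p => K A p (c (a :: E₂)) z) +
          (V.av b (fun p => K A p (c (a :: E₂)) z) - V.av b fun p => K A p (c (b :: E₂)) z) := by
        simp only [List.nil_append, cone]
        ring
      rw [e1]
      calc _ ≤ _ := abs_add_le _ _
        _ ≤ L * dist a b * (C' * C * gp z) + C' * (D * dist a b) * gp z := add_le_add h2 h1
        _ = _ := by ring

theorem cone_dl {m l : ℕ} {c : List X → List X → ℝ} (hc : Nice G (m + 1) (l + 1) c)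
    (hm : 1 ≤ m) {E : List X} (hE : E.length = l + 1)
    (hd : ∀ w : List X, w.length = m + 2 → dl (c E) w = 0) {z : List X} (hz : z.length = m + 1) :
    dl (cone A V c E) z = c E z := by
  obtain ⟨x, E, rfl⟩ := List.exists_cons_of_length_eq_add_one hE
  have e1 : cone A V c (x :: E) = fun z => V.av x fun p => K A p (c (x :: E)) z := rfl
  rw [e1, ← av_dl V x (fun p l => K A p (c (x :: E)) l)
    fun l => K_cont A (hc.cont _) (hc.nrm _) l]
  have e2 : (fun p => dl (K A p (c (x :: E))) z) = fun _ => c (x :: E) z := by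
    funext p
    refine K_dl A (hc.nrm _) p (by omega) fun w hw => hd w ?_
    rw [hw, hz]
  rw [e2, V.const]

end

end Pool.Agent.Helper17.BR
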