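import Pool.Agent.Helper17.BC.Seg

/-!
# Project BR, block POT: prism operators on functions of lists
-/

set_option autoImplicit false

namespace Pool.Agent.Helper17.BR

open Pool.Agent.Helper17.BC (dl dl_add dl_sub dl_mul dl_dl dl_congr dl_map)

variable {X : Type}

/-- the prism operator between two maps -/
def pr (φ ψ : X → X) : (List X → ℝ) → List X → ℝ
  | _, [] => 0
  | c, z :: l => c (φ z :: ψ z :: l.map ψ) - pr φ ψ (fun l' => c (φ z :: l')) l

theorem pr_sub (φ ψ : X → X) (c c' : List X → ℝ) (l : List X) :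
    pr φ ψ (fun l => c l - c' l) l = pr φ ψ c l - pr φ ψ c' l := by
  induction l generalizing c c' with
  | nil => simp [pr]
  | cons z l ih =>
    simp only [pr]
    rw [ih]
    ring

theorem dl_zero (l : List X) : dl (fun _ : List X => (0 : ℝ)) l = 0 := by
  have := dl_mul 0 (fun _ : List X => (0 : ℝ)) l
  simpa using this

/-- the prism operator is a homotopy -/
theorem pr_dl (φ ψ : X → X) (c : List X → ℝ) (l : List X) :
    pr φ ψ (dl c) l = c (l.map ψ) - c (l.map φ) - dl (pr φ ψ c) l := by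
  induction l generalizing c with
  | nil => simp [pr, dl]
  | cons z l ih =>
    have e1 : pr φ ψ (dl c) (z :: l) = dl c (φ z :: ψ z :: l.map ψ) -
        pr φ ψ (fun l' => c l' - dl (fun l'' => c (φ z :: l'')) l') l := rfl
    have e2 : dl c (φ z :: ψ z :: l.map ψ) = c (ψ z :: l.map ψ) -
        (c (φ z :: l.map ψ) - dl (fun l' => c (φ z :: ψ z :: l')) (l.map ψ)) := rfl
    have e3 : dl (pr φ ψ c) (z :: l) = pr φ ψ c l - dl (fun D => c (φ z :: ψ z :: D.map ψ) -
        pr φ ψ (fun l' => c (φ z :: l')) D) l := rfl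
    have e4 : pr φ ψ (dl fun l'' => c (φ z :: l'')) l = c (φ z :: l.map ψ) - c (φ z :: l.map φ) -
        dl (pr φ ψ fun l'' => c (φ z :: l'')) l := ih _
    rw [e1, e2, e3, pr_sub, dl_sub (fun D => c (φ z :: ψ z :: D.map ψ)),
      dl_map ψ (fun D => c (φ z :: ψ z :: D))]
    have e5 : pr φ ψ (fun l' => dl (fun l'' => c (φ z :: l'')) l') l =
        pr φ ψ (dl fun l'' => c (φ z :: l'')) l := rfl
    rw [e5, e4]
    simp only [List.map_cons]
    ring

theorem pr_map (φ ψ φ' ψ' θ : X → X) (hφ : ∀ z, φ' (θ z) = θ (φ z)) (hψ : ∀ z, ψ' (θ z) = θ (ψ z))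
    (c : List X → ℝ) (l : List X) :
    pr φ' ψ' c (l.map θ) = pr φ ψ (fun l => c (l.map θ)) l := by
  induction l generalizing c with
  | nil => rfl
  | cons z l ih =>
    simp only [pr, List.map_cons, hφ, hψ]
    rw [ih, List.map_map, List.map_map]
    congr 2
    congr 1
    congr 1
    refine List.map_congr_left fun x _ => ?_
    exact hψ x

theorem pr_bound (φ ψ : X → X) (c : List X → ℝ) (z : List X) {B : ℝ}
    (h : ∀ l₁ a l₂, z = l₁ ++ a :: l₂ → |c (l₁.map φ ++ φ a :: ψ a :: l₂.map ψ)| ≤ B) :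
    |pr φ ψ c z| ≤ z.length * B := by
  induction z generalizing c with
  | nil => simp [pr]
  | cons x l ih =>
    simp only [pr]
    have h1 := h [] x l rfl
    have h2 := ih (fun l' => c (φ x :: l')) fun l₁ a l₂ hl => h (x :: l₁) a l₂ (by rw [hl]; rfl)
    rw [List.length_cons]
    push_cast
    calc _ ≤ _ := abs_sub _ _
      _ ≤ B + l.length * B := add_le_add h1 h2
      _ = (l.length + 1) * B := by ring

/-- functions which vanish when two neighbours are equal -/
def Nrm (c : List X → ℝ) : Prop := ∀ l₁ a l₂, c (l₁ ++ a :: a :: l₂) = 0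

theorem Nrm.cons {c : List X → ℝ} (h : Nrm c) (x : X) : Nrm fun l => c (x :: l) :=
  fun l₁ a l₂ => h (x :: l₁) a l₂

theorem Nrm.sub {c c' : List X → ℝ} (h : Nrm c) (h' : Nrm c') : Nrm fun l => c l - c' l := by
  intro l₁ a l₂
  show c _ - c' _ = 0
  rw [h, h', sub_zero]

theorem pr_eq_zero {φ ψ : X → X} {c : List X → ℝ} {z : List X}
    (h : ∀ l₁ a l₂, z = l₁ ++ a :: l₂ → c (l₁.map φ ++ φ a :: ψ a :: l₂.map ψ) = 0) :
    pr φ ψ c z = 0 := by
  have h1 := pr_bound φ ψ c z (B := 0) fun l₁ a l₂ hl => by rw [h l₁ a l₂ hl, abs_zero]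
  rw [mul_zero] at h1
  exact abs_nonpos_iff.1 h1

theorem pr_id {φ ψ : X → X} {c : List X → ℝ} (hc : Nrm c) {z : List X}
    (hφ : ∀ x ∈ z, φ x = x) (hψ : ∀ x ∈ z, ψ x = x) : pr φ ψ c z = 0 := by
  refine pr_eq_zero fun l₁ a l₂ hl => ?_
  subst hl
  rw [hφ a (by simp), hψ a (by simp)]
  exact hc _ _ _

theorem Nrm.pr {φ ψ : X → X} {c : List X → ℝ} (hc : Nrm c) : Nrm (pr φ ψ c) := by
  intro l₁ a l₂
  induction l₁ generalizing c with
  | nil =>
    show c (φ a :: ψ a :: ψ a :: l₂.map ψ) - (c (φ a :: φ a :: ψ a :: l₂.map ψ) -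
      BR.pr φ ψ (fun l' => c (φ a :: φ a :: l')) l₂) = 0
    have h1 : c (φ a :: ψ a :: ψ a :: l₂.map ψ) = 0 := hc [φ a] (ψ a) _
    have h2 : c (φ a :: φ a :: ψ a :: l₂.map ψ) = 0 := hc [] (φ a) _
    have h3 : BR.pr φ ψ (fun l' => c (φ a :: φ a :: l')) l₂ = 0 :=
      pr_eq_zero fun _ _ _ _ => hc [] (φ a) _
    rw [h1, h2, h3]
    ring
  | cons x l₁ ih =>
    show c (φ x :: ψ x :: (l₁ ++ a :: a :: l₂).map ψ) -
      BR.pr φ ψ (fun l' => c (φ x :: l')) (l₁ ++ a :: a :: l₂) = 0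
    rw [ih (hc.cons _), sub_zero, List.map_append, List.map_cons, List.map_cons]
    exact hc (φ x :: ψ x :: l₁.map ψ) (ψ a) (l₂.map ψ)

/-! ### the product of the gaps -/

section Metric

variable [PseudoMetricSpace X]

/-- the product of the distances of neighbours -/
noncomputable def gp : List X → ℝ
  | [] => 1
  | [_] => 1
  | x :: y :: l => dist x y * gp (y :: l)

theorem gp_nonneg : ∀ l : List X, 0 ≤ gp l
  | [] => zero_le_one
  | [_] => zero_le_one
  | _ :: y :: l => mul_nonneg dist_nonneg (gp_nonneg (y :: l))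

theorem gp_map_le {ψ : X → X} {q : ℝ} (hq : 0 ≤ q) (a : X) (l : List X)
    (h : ∀ x ∈ a :: l, ∀ y ∈ a :: l, dist (ψ x) (ψ y) ≤ q * dist x y) :
    gp ((a :: l).map ψ) ≤ q ^ l.length * gp (a :: l) := by
  induction l generalizing a with
  | nil => simp [gp]
  | cons b l ih =>
    have h1 := ih b fun x hx y hy => h x (List.mem_cons_of_mem a hx) y (List.mem_cons_of_mem a hy)
    have h2 := h a (by simp) b (by simp)
    simp only [List.map_cons, gp, List.length_cons] at h1 ⊢
    calc dist (ψ a) (ψ b) * gp (ψ b :: l.map ψ) ≤ (q * dist a b) * (q ^ l.length * gp (b :: l)) :=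
          mul_le_mul h2 h1 (gp_nonneg _) (mul_nonneg hq dist_nonneg)
      _ = q ^ (l.length + 1) * (dist a b * gp (b :: l)) := by ring

theorem gp_prism_le {φ ψ : X → X} {q : ℝ} (hq : 0 ≤ q) (l₁ : List X) (a : X) (l₂ : List X)
    (hφ : ∀ x ∈ l₁ ++ a :: l₂, ∀ y ∈ l₁ ++ a :: l₂, dist (φ x) (φ y) ≤ q * dist x y)
    (hψ : ∀ x ∈ l₁ ++ a :: l₂, ∀ y ∈ l₁ ++ a :: l₂, dist (ψ x) (ψ y) ≤ q * dist x y)
    (hs : dist (φ a) (ψ a) ≤ 1) :
    gp (l₁.map φ ++ φ a :: ψ a :: l₂.map ψ) ≤
      q ^ (l₁.length + l₂.length) * gp (l₁ ++ a :: l₂) := by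
  induction l₁ with
  | nil =>
    have h1 := gp_map_le hq a l₂ (ψ := ψ) hψ
    simp only [List.map_nil, List.nil_append, gp, List.length_nil, zero_add, List.map_cons] at h1 ⊢
    calc dist (φ a) (ψ a) * gp (ψ a :: l₂.map ψ) ≤ 1 * (q ^ l₂.length * gp (a :: l₂)) :=
          mul_le_mul hs h1 (gp_nonneg _) zero_le_one
      _ = _ := one_mul _
  | cons x l₁ ih =>
    have h1 := ih (fun x' hx' y' hy' => hφ x' (List.mem_cons_of_mem x hx') y'
      (List.mem_cons_of_mem x hy')) (fun x' hx' y' hy' => hψ x' (List.mem_cons_of_mem x hx') y'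
      (List.mem_cons_of_mem x hy'))
    cases l₁ with
    | nil =>
      have h2 := hφ x (by simp) a (by simp)
      simp only [List.map_nil, List.nil_append, List.map_cons, List.cons_append, gp,
        List.length_cons, List.length_nil] at h1 ⊢
      calc dist (φ x) (φ a) * (dist (φ a) (ψ a) * gp (ψ a :: l₂.map ψ)) ≤
            (q * dist x a) * (q ^ (0 + l₂.length) * gp (a :: l₂)) :=
            mul_le_mul h2 h1 (mul_nonneg dist_nonneg (gp_nonneg _)) (mul_nonneg hq dist_nonneg)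
        _ = q ^ (0 + 1 + l₂.length) * (dist x a * gp (a :: l₂)) := by
            rw [show 0 + 1 + l₂.length = (0 + l₂.length) + 1 by ring, pow_succ]
            ring
    | cons y l₁ =>
      have h2 := hφ x (by simp) y (by simp)
      simp only [List.map_cons, List.cons_append, gp, List.length_cons] at h1 ⊢
      calc dist (φ x) (φ y) * gp (φ y :: (l₁.map φ ++ φ a :: ψ a :: l₂.map ψ)) ≤
            (q * dist x y) * (q ^ (l₁.length + 1 + l₂.length) * gp (y :: (l₁ ++ a :: l₂))) :=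
            mul_le_mul h2 h1 (gp_nonneg _) (mul_nonneg hq dist_nonneg)
        _ = q ^ (l₁.length + 1 + 1 + l₂.length) * (dist x y * gp (y :: (l₁ ++ a :: l₂))) := by
            rw [show l₁.length + 1 + 1 + l₂.length = (l₁.length + 1 + l₂.length) + 1 by ring,
              pow_succ]
            ring

/-- lists of small diameter -/
def Loc (R : ℝ) (z : List X) : Prop := ∀ x ∈ z, ∀ y ∈ z, dist x y ≤ R

theorem Loc.mono {R : ℝ} {z z' : List X} (h : Loc R z) (h' : z' ⊆ z) : Loc R z' :=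
  fun x hx y hy => h x (h' hx) y (h' hy)

end Metric

end Pool.Agent.Helper17.BR
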