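import Pool.Agent.Helper12.SB.Res
import Pool.Agent.Helper3.CB.ValB

/-!
# BR, piece F1: residue degrees over fields with roots of unity
-/

set_option autoImplicit false

namespace Pool.Agent.Helper17.BR

open NumberField Polynomial

/-- lifting the exponent -/
theorem pow_dvd_of_pow_dvd {l N f J k : ℕ} (hl : l.Prime) (hN : 1 ≤ N) (h1 : l ∣ N - 1)
    (h4 : l = 2 → 4 ∣ N - 1) (hJ : ¬ l ^ J ∣ N - 1) (h : l ^ (J + k) ∣ N ^ f - 1) : l ^ k ∣ f := by
  have hc : ((N - 1 : ℕ) : ℤ) = (N : ℤ) - 1 := by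
    rw [Nat.cast_sub hN, Nat.cast_one]
  have h1' : (l : ℤ) ∣ (N : ℤ) - 1 := by
    rw [← hc]
    exact_mod_cast h1
  have hlN : ¬ (l : ℤ) ∣ (N : ℤ) := by
    intro h2
    have h3 : (l : ℤ) ∣ 1 := by
      have := dvd_sub h2 h1'
      simpa using this
    exact (Nat.prime_iff_prime_int.1 hl).not_dvd_one h3
  have key : emultiplicity (l : ℤ) ((N : ℤ) ^ f - 1 ^ f) =
      emultiplicity (l : ℤ) ((N : ℤ) - 1) + emultiplicity l f := by
    rcases hl.eq_two_or_odd' with rfl | hodd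
    · have h5 : (4 : ℤ) ∣ (N : ℤ) - 1 := by
        rw [← hc]
        exact_mod_cast h4 rfl
      have h6 := Int.two_pow_sub_pow' f h5 hlN
      rw [← Int.natCast_emultiplicity]
      exact h6
    · exact Int.emultiplicity_pow_sub_pow hl hodd h1' hlN f
  have h2 : ((J + k : ℕ) : ℕ∞) ≤ emultiplicity (l : ℤ) ((N : ℤ) ^ f - 1 ^ f) := by
    rw [← pow_dvd_iff_le_emultiplicity, one_pow]
    have h3 : ((N ^ f - 1 : ℕ) : ℤ) = (N : ℤ) ^ f - 1 := by
      rw [Nat.cast_sub (Nat.one_le_pow _ _ hN), Nat.cast_pow, Nat.cast_one]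
    rw [← h3]
    exact_mod_cast h
  have h3 : emultiplicity (l : ℤ) ((N : ℤ) - 1) < J := by
    rw [emultiplicity_lt_iff_not_dvd, ← hc]
    exact_mod_cast hJ
  rw [pow_dvd_iff_le_emultiplicity]
  rw [key] at h2
  by_contra hlt
  rw [not_le] at hlt
  have h5 := ENat.add_lt_add h3 hlt
  push_cast at h2
  exact absurd h2 (not_le.2 h5)

/-- the norm of a prime which does not contain `l` is one modulo `l ^ J` if there is a primitive
`l ^ J`-th root of unity -/
theorem dvd_absNorm_sub_one {L : Type*} [Field L] [NumberField L] {l J : ℕ} (hl : l.Prime) {ζ : L}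
    (hζ : IsPrimitiveRoot ζ (l ^ J)) {q : Ideal (𝓞 L)} (hq : q.IsPrime) (hq0 : q ≠ ⊥)
    (hlq : (l : 𝓞 L) ∉ q) : l ^ J ∣ Ideal.absNorm q - 1 := by
  classical
  have := hq.isMaximal hq0
  let _ : Field (𝓞 L ⧸ q) := Ideal.Quotient.field q
  have : Finite (𝓞 L ⧸ q) := Ideal.finiteQuotientOfFreeOfNeBot q hq0
  let _ : Fintype (𝓞 L ⧸ q) := Fintype.ofFinite _
  have hN : Ideal.absNorm q = Fintype.card (𝓞 L ⧸ q) := by
    rw [Ideal.absNorm_apply, Submodule.cardQuot_apply, Nat.card_eq_fintype_card]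
  rw [hN]
  have hint : IsIntegral ℤ ζ := hζ.isIntegral (pow_pos hl.pos _)
  let z : 𝓞 L := ⟨ζ, hint⟩
  have hz1 : (Ideal.Quotient.mk q z) ^ l ^ J = 1 := by
    have h4 : z ^ l ^ J = 1 := by
      apply RingOfIntegers.ext
      push_cast
      exact hζ.pow_eq_one
    rw [← map_pow, h4, map_one]
  have hz : ∀ j, J = j + 1 → (Ideal.Quotient.mk q z) ^ l ^ j ≠ 1 := by
    rintro j rfl h1
    have hprim : IsPrimitiveRoot (ζ ^ l ^ j) l := by
      apply hζ.pow (pow_pos hl.pos _)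
      rw [pow_succ]
    have hsum : ∑ i ∈ Finset.range l, (ζ ^ l ^ j) ^ i = 0 :=
      hprim.geom_sum_eq_zero hl.one_lt
    have hsum' : ∑ i ∈ Finset.range l, (z ^ l ^ j) ^ i = 0 := by
      apply RingOfIntegers.ext
      push_cast
      exact hsum
    apply hlq
    rw [← Ideal.Quotient.eq_zero_iff_mem, map_natCast]
    have h2 := congrArg (Ideal.Quotient.mk q) hsum'
    rw [map_sum, map_zero] at h2
    rw [← h2]
    have h3 : ∀ i ∈ Finset.range l, (Ideal.Quotient.mk q) ((z ^ l ^ j) ^ i) = 1 := by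
      intro i _
      rw [map_pow, map_pow, h1, one_pow]
    rw [Finset.sum_congr rfl h3]
    simp
  exact Pool.Agent.Helper12.SB.prime_pow_dvd hl hz1 hz

/-- the residue degree: the norm above is a power of the norm below; the degree is divisible by
the degree of every irreducible polynomial over the residue field below which has a root above -/
theorem exists_resdeg {K L : Type*} [Field K] [NumberField K] [Field L] [NumberField L]
    [Algebra K L] {q : Ideal (𝓞 L)} (hq : q.IsPrime) (hq0 : q ≠ ⊥) :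
    ∃ f : ℕ, 0 < f ∧
      Ideal.absNorm q = Ideal.absNorm (q.comap (algebraMap (𝓞 K) (𝓞 L))) ^ f ∧
      ∀ g : (𝓞 K)[X], g.Monic →
        Irreducible (g.map (Ideal.Quotient.mk (q.comap (algebraMap (𝓞 K) (𝓞 L))))) →
        (∃ θ : 𝓞 L, aeval θ g = 0) → g.natDegree ∣ f := by
  classical
  set p := q.comap (algebraMap (𝓞 K) (𝓞 L)) with hpq
  have hp : p.IsPrime := Ideal.comap_isPrime _ _
  have hp0 : p ≠ ⊥ := Pool.Agent.Helper3.CB.comap_ne_bot hq0
  have := hp.isMaximal hp0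
  have := hq.isMaximal hq0
  let _ : Field (𝓞 K ⧸ p) := Ideal.Quotient.field p
  let _ : Field (𝓞 L ⧸ q) := Ideal.Quotient.field q
  have : Finite (𝓞 K ⧸ p) := Ideal.finiteQuotientOfFreeOfNeBot p hp0
  have : Finite (𝓞 L ⧸ q) := Ideal.finiteQuotientOfFreeOfNeBot q hq0
  let φ : 𝓞 K ⧸ p →+* 𝓞 L ⧸ q := Ideal.quotientMap q (algebraMap (𝓞 K) (𝓞 L)) (le_of_eq hpq)
  let _ : Algebra (𝓞 K ⧸ p) (𝓞 L ⧸ q) := φ.toAlgebra
  have : Module.Finite (𝓞 K ⧸ p) (𝓞 L ⧸ q) := Module.Finite.of_finite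
  refine ⟨Module.finrank (𝓞 K ⧸ p) (𝓞 L ⧸ q), Module.finrank_pos, ?_, ?_⟩
  · rw [Ideal.absNorm_apply, Ideal.absNorm_apply, Submodule.cardQuot_apply,
      Submodule.cardQuot_apply]
    exact Module.natCard_eq_pow_finrank (K := 𝓞 K ⧸ p) (V := 𝓞 L ⧸ q)
  · rintro g hg hirr ⟨θ, hθ⟩
    have hroot : aeval (Ideal.Quotient.mk q θ) (g.map (Ideal.Quotient.mk p)) = 0 := by
      rw [aeval_def, eval₂_map]
      have h1 : (algebraMap (𝓞 K ⧸ p) (𝓞 L ⧸ q)).comp (Ideal.Quotient.mk p) =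
          (Ideal.Quotient.mk q).comp (algebraMap (𝓞 K) (𝓞 L)) := by
        ext x
        rfl
      rw [h1, ← hom_eval₂]
      have h2 : eval₂ (algebraMap (𝓞 K) (𝓞 L)) θ g = 0 := hθ
      rw [h2, map_zero]
    have hmin := minpoly.eq_of_irreducible_of_monic hirr hroot (hg.map _)
    have hint : IsIntegral (𝓞 K ⧸ p) (Ideal.Quotient.mk q θ) := ⟨_, hg.map _, hroot⟩
    have h3 := minpoly.degree_dvd hint
    rw [← hmin, hg.natDegree_map] at h3
    exact h3

end Pool.Agent.Helper17.BR
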