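import Pool.Agent.Helper17.BR.Smooth

/-!
# Project BR, block SM: bounds of the smoothed functions
-/

set_option autoImplicit false

open Real Topology

namespace Pool.Agent.Helper17.BR

open Pool.Agent.Helper17.BC (dl dl_add dl_sub dl_mul dl_dl dl_congr dl_map)

variable {G X : Type} [Group G] [TopologicalSpace G] [PseudoMetricSpace X] [MulAction G X]
  {o : X} (V : AvG G X o)

/-- the Lipschitz property of the averages with the constant `C` -/
def LipC (C : ℝ) : Prop := 0 ≤ C ∧ ∀ (x y : X) (φ : G → ℝ) (M : ℝ), Continuous φ →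
    (∀ h : G, dist x (h • o) ≤ 1 ∨ dist y (h • o) ≤ 1 → |φ h| ≤ M) →
    |V.av x φ - V.av y φ| ≤ C * dist x y * M

variable {V} {C : ℝ} (hC : LipC V C)

include hC

theorem Mg_bound0 {b : List G → ℝ} (hb : LC b) (x : X) (E : List X) {M : ℝ} (hM0 : 0 ≤ M)
    (hM : ∀ l : List G, l.length = E.length →
      (∀ h ∈ l, ∃ w ∈ x :: E, dist w (h • o) ≤ 1) → |b l| ≤ M) :
    |Mg V x b E| ≤ (C + 2) ^ E.length * M := by
  have hC0 := hC.1
  induction E generalizing x b with
  | nil =>
    simp only [Mg, List.length_nil, pow_zero, one_mul]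
    exact hM [] rfl fun h hh => by simp at hh
  | cons y E ih =>
    simp only [Mg, List.length_cons]
    have key : ∀ h : G, (∃ w ∈ x :: y :: E, dist w (h • o) ≤ 1) →
        |Mg V y (fun l => b (h :: l)) E| ≤ (C + 2) ^ E.length * M := by
      intro h hh
      refine ih (hb.cons h) y fun l hl hl' => hM (h :: l) (by simp [hl]) fun h' hh' => ?_
      rcases List.mem_cons.1 hh' with rfl | hh'
      · exact hh
      · obtain ⟨w, hw, hw'⟩ := hl' h' hh'
        exact ⟨w, List.mem_cons_of_mem x hw, hw'⟩
    have h1 := V.bound y _ _ (Mg_cont_head V hb y E) fun h hh => key h ⟨y, by simp, hh⟩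
    have h2 := V.bound x _ _ (Mg_cont_head V hb y E) fun h hh => key h ⟨x, by simp, hh⟩
    have h3 : 0 ≤ (C + 2) ^ E.length * M := by positivity
    calc _ ≤ _ := abs_sub _ _
      _ ≤ (C + 2) ^ E.length * M + (C + 2) ^ E.length * M := add_le_add h1 h2
      _ ≤ (C + 2) ^ (E.length + 1) * M := by
          rw [pow_succ]
          nlinarith

theorem Mg_bound {b : List G → ℝ} (hb : LC b) (x : X) (z E : List X) {M : ℝ} (hM0 : 0 ≤ M)
    (hM : ∀ l : List G, l.length = (z ++ E).length →
      (∀ h ∈ l, ∃ w ∈ x :: (z ++ E), dist w (h • o) ≤ 1) → |b l| ≤ M) :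
    |Mg V x b (z ++ E)| ≤ (C + 2) ^ (z.length + E.length) * gp (x :: z) * M := by
  have hC0 := hC.1
  induction z generalizing x b with
  | nil =>
    have := Mg_bound0 hC hb x E hM0 hM
    simpa [gp] using this
  | cons y z ih =>
    have key : ∀ h : G, (dist y (h • o) ≤ 1 ∨ dist x (h • o) ≤ 1) →
        |Mg V y (fun l => b (h :: l)) (z ++ E)| ≤
          (C + 2) ^ (z.length + E.length) * gp (y :: z) * M := by
      intro h hh
      refine ih (hb.cons h) y fun l hl hl' => hM (h :: l) (by simpa using hl) fun h' hh' => ?_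
      rcases List.mem_cons.1 hh' with rfl | hh'
      · rcases hh with hh | hh
        · exact ⟨y, by simp, hh⟩
        · exact ⟨x, by simp, hh⟩
      · obtain ⟨w, hw, hw'⟩ := hl' h' hh'
        exact ⟨w, List.mem_cons_of_mem x hw, hw'⟩
    have h1 := hC.2 y x _ _ (Mg_cont_head V hb y (z ++ E)) key
    have hg := gp_nonneg (y :: z)
    simp only [List.cons_append, Mg, List.length_cons, gp]
    refine h1.trans ?_
    rw [dist_comm y x, show z.length + 1 + E.length = z.length + E.length + 1 by ring, pow_succ]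
    have h2 : 0 ≤ (C + 2) ^ (z.length + E.length) * dist x y * gp (y :: z) * M := by positivity
    nlinarith

theorem Mf_bound {b : List G → ℝ} (hb : LC b) (z E : List X) {M : ℝ} (hM0 : 0 ≤ M)
    (hM : ∀ l : List G, l.length = (z ++ E).length →
      (∀ h ∈ l, ∃ w ∈ z ++ E, dist w (h • o) ≤ 1) → |b l| ≤ M) :
    |Mf V b (z ++ E)| ≤ (C + 2) ^ (z.length + E.length) * gp z * M := by
  have hC0 := hC.1
  have h1C : 1 ≤ C + 2 := by linarith
  have key : ∀ (x : X) (z' E' : List X), z ++ E = x :: (z' ++ E') →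
      |Mf V b (x :: (z' ++ E'))| ≤ (C + 2) ^ (z'.length + E'.length) * gp (x :: z') * M := by
    intro x z' E' hz
    refine V.bound x _ _ (Mg_cont_head V hb x (z' ++ E')) fun h hh => ?_
    refine Mg_bound hC (hb.cons h) x z' E' hM0 fun l hl hl' => hM (h :: l) ?_ fun h' hh' => ?_
    · rw [hz]
      simp only [List.length_cons]
      omega
    · rw [hz]
      rcases List.mem_cons.1 hh' with rfl | hh'
      · exact ⟨x, by simp, hh⟩
      · exact hl' h' hh'
  cases z with
  | cons x z =>
    refine (key x z E rfl).trans ?_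
    rw [List.length_cons, show z.length + 1 + E.length = z.length + E.length + 1 by ring, pow_succ]
    have h2 : 0 ≤ (C + 2) ^ (z.length + E.length) * gp (x :: z) * M := by
      have := gp_nonneg (x :: z)
      positivity
    nlinarith
  | nil =>
    cases E with
    | nil =>
      simp only [List.append_nil, Mf, List.length_nil, add_zero, pow_zero, one_mul, gp]
      exact hM [] rfl fun h hh => by simp at hh
    | cons x E =>
      refine (key x [] E rfl).trans ?_
      simp only [List.length_nil, zero_add, List.length_cons, gp, mul_one, pow_succ]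
      have h2 : 0 ≤ (C + 2) ^ E.length * M := by positivity
      nlinarith

theorem Mg_lip0 {b : List G → ℝ} (hb : LC b) (a a' : X) (E : List X) {M : ℝ} (hM0 : 0 ≤ M)
    (hM : ∀ l : List G, |b l| ≤ M) :
    |Mg V a b E - Mg V a' b E| ≤ (C + 2) ^ E.length * dist a a' * M := by
  have hC0 := hC.1
  cases E with
  | nil =>
    simp only [Mg, sub_self, abs_zero]
    positivity
  | cons w E =>
    have h1 := hC.2 a' a _ ((C + 2) ^ E.length * M) (Mg_cont_head V hb w E) fun h _ =>
      Mg_bound0 hC (hb.cons h) w E hM0 fun l _ _ => hM _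
    simp only [Mg, List.length_cons]
    rw [show V.av w (fun h => Mg V w (fun l => b (h :: l)) E) -
        V.av a (fun h => Mg V w (fun l => b (h :: l)) E) -
        (V.av w (fun h => Mg V w (fun l => b (h :: l)) E) -
          V.av a' fun h => Mg V w (fun l => b (h :: l)) E) =
        V.av a' (fun h => Mg V w (fun l => b (h :: l)) E) -
        V.av a (fun h => Mg V w (fun l => b (h :: l)) E) by ring]
    refine h1.trans ?_
    rw [dist_comm a' a, pow_succ]
    have h2 : 0 ≤ (C + 2) ^ E.length * dist a a' * M := by positivity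
    nlinarith

/-- the step of the Lipschitz estimate -/
theorem av_step {φ φ' : G → ℝ} (hφ : Continuous φ) (hφ' : Continuous φ') (x y : X) {B : ℝ}
    (h : ∀ g, |φ g - φ' g| ≤ B) :
    |V.av y φ - V.av x φ - (V.av y φ' - V.av x φ')| ≤ C * dist x y * B ∧
    |V.av y φ - V.av x φ - (V.av y φ' - V.av x φ')| ≤ 2 * B := by
  have e1 : V.av y φ - V.av x φ - (V.av y φ' - V.av x φ') =
      V.av y (fun g => φ g - φ' g) - V.av x fun g => φ g - φ' g := by
    rw [V.sub y _ _ hφ hφ', V.sub x _ _ hφ hφ']
    ring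
  rw [e1]
  constructor
  · rw [dist_comm x y]
    exact hC.2 y x _ B (hφ.sub hφ') fun g _ => h g
  · have h1 := V.bound y _ B (hφ.sub hφ') fun g _ => h g
    have h2 := V.bound x _ B (hφ.sub hφ') fun g _ => h g
    calc _ ≤ _ := abs_sub _ _
      _ ≤ B + B := add_le_add h1 h2
      _ = 2 * B := by ring

theorem Mg_lip1 {b : List G → ℝ} (hb : LC b) (x : X) (E₁ : List X) (a a' : X) (E₂ : List X)
    {M : ℝ} (hM0 : 0 ≤ M) (hM : ∀ l : List G, |b l| ≤ M) :
    |Mg V x b (E₁ ++ a :: E₂) - Mg V x b (E₁ ++ a' :: E₂)| ≤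
      (C + 2) ^ (E₁.length + E₂.length + 1) * dist a a' * M := by
  have hC0 := hC.1
  induction E₁ generalizing x b with
  | nil =>
    simp only [List.nil_append, Mg, List.length_nil, zero_add]
    have h1 := hC.2 a a' _ ((C + 2) ^ E₂.length * M) (Mg_cont_head V hb a E₂) fun h _ =>
      Mg_bound0 hC (hb.cons h) a E₂ hM0 fun l _ _ => hM _
    have h2 : ∀ y : X, |V.av y (fun h => Mg V a (fun l => b (h :: l)) E₂) -
        V.av y fun h => Mg V a' (fun l => b (h :: l)) E₂| ≤
        (C + 2) ^ E₂.length * dist a a' * M := by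
      intro y
      rw [← V.sub y _ _ (Mg_cont_head V hb a E₂) (Mg_cont_head V hb a' E₂)]
      exact V.bound y _ _ ((Mg_cont_head V hb a E₂).sub (Mg_cont_head V hb a' E₂)) fun h _ =>
        Mg_lip0 hC (hb.cons h) a a' E₂ hM0 fun l => hM _
    have h3 := abs_le.1 h1
    have h4 := abs_le.1 (h2 a')
    have h5 := abs_le.1 (h2 x)
    rw [pow_succ, abs_le]
    constructor <;> nlinarith
  | cons y E₁ ih =>
    simp only [List.cons_append, Mg, List.length_cons]
    have h1 := (av_step hC (Mg_cont_head V hb y (E₁ ++ a :: E₂))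
      (Mg_cont_head V hb y (E₁ ++ a' :: E₂)) x y (fun h => ih (hb.cons h) y fun l => hM _)).2
    refine h1.trans ?_
    rw [show E₁.length + 1 + E₂.length + 1 = (E₁.length + E₂.length + 1) + 1 by ring,
      pow_succ _ (E₁.length + E₂.length + 1)]
    have h2 : 0 ≤ (C + 2) ^ (E₁.length + E₂.length + 1) * dist a a' * M := by positivity
    nlinarith

theorem Mg_lip {b : List G → ℝ} (hb : LC b) (x : X) (z E₁ : List X) (a a' : X) (E₂ : List X)
    {M : ℝ} (hM0 : 0 ≤ M) (hM : ∀ l : List G, |b l| ≤ M) :
    |Mg V x b (z ++ (E₁ ++ a :: E₂)) - Mg V x b (z ++ (E₁ ++ a' :: E₂))| ≤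
      (C + 2) ^ (z.length + (E₁.length + E₂.length + 1)) * dist a a' * gp (x :: z) * M := by
  have hC0 := hC.1
  induction z generalizing x b with
  | nil =>
    have := Mg_lip1 hC hb x E₁ a a' E₂ hM0 hM
    simpa [gp] using this
  | cons y z ih =>
    simp only [List.cons_append, Mg, List.length_cons, gp]
    have h1 := (av_step hC (Mg_cont_head V hb y (z ++ (E₁ ++ a :: E₂)))
      (Mg_cont_head V hb y (z ++ (E₁ ++ a' :: E₂))) x y
      (fun h => ih (hb.cons h) y fun l => hM _)).1
    refine h1.trans ?_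
    have hg := gp_nonneg (y :: z)
    rw [show z.length + 1 + (E₁.length + E₂.length + 1) =
      (z.length + (E₁.length + E₂.length + 1)) + 1 by ring,
      pow_succ _ (z.length + (E₁.length + E₂.length + 1))]
    have h2 : 0 ≤ (C + 2) ^ (z.length + (E₁.length + E₂.length + 1)) * dist a a' *
      (dist x y * gp (y :: z)) * M := by positivity
    nlinarith

theorem Mf_lip {b : List G → ℝ} (hb : LC b) (z E₁ : List X) (a a' : X) (E₂ : List X)
    {M : ℝ} (hM0 : 0 ≤ M) (hM : ∀ l : List G, |b l| ≤ M) :
    |Mf V b (z ++ (E₁ ++ a :: E₂)) - Mf V b (z ++ (E₁ ++ a' :: E₂))| ≤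
      (C + 2) ^ (z.length + (E₁.length + E₂.length + 1)) * dist a a' * gp z * M := by
  have hC0 := hC.1
  have h1C : 1 ≤ C + 2 := by linarith
  have key : ∀ (x : X) (l l' : List X) (B : ℝ), (∀ h : G, |Mg V x (fun w => b (h :: w)) l -
      Mg V x (fun w => b (h :: w)) l'| ≤ B) → |Mf V b (x :: l) - Mf V b (x :: l')| ≤ B := by
    intro x l l' B h
    simp only [Mf]
    rw [← V.sub x _ _ (Mg_cont_head V hb x l) (Mg_cont_head V hb x l')]
    exact V.bound x _ _ ((Mg_cont_head V hb x l).sub (Mg_cont_head V hb x l')) fun g _ => h g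
  cases z with
  | cons x z =>
    refine (key x _ _ _ fun h => Mg_lip hC (hb.cons h) x z E₁ a a' E₂ hM0 fun l => hM _).trans ?_
    have hg := gp_nonneg (x :: z)
    rw [List.length_cons, show z.length + 1 + (E₁.length + E₂.length + 1) =
      (z.length + (E₁.length + E₂.length + 1)) + 1 by ring,
      pow_succ _ (z.length + (E₁.length + E₂.length + 1))]
    have h2 : 0 ≤ (C + 2) ^ (z.length + (E₁.length + E₂.length + 1)) * dist a a' *
      gp (x :: z) * M := by positivity
    nlinarith
  | nil =>
    simp only [List.nil_append, List.length_nil, zero_add, gp, mul_one]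
    cases E₁ with
    | cons x E₁ =>
      refine (key x _ _ _ fun h => Mg_lip1 hC (hb.cons h) x E₁ a a' E₂ hM0 fun l => hM _).trans ?_
      rw [List.length_cons, show E₁.length + 1 + E₂.length + 1 = (E₁.length + E₂.length + 1) + 1
        by ring, pow_succ _ (E₁.length + E₂.length + 1)]
      have h2 : 0 ≤ (C + 2) ^ (E₁.length + E₂.length + 1) * dist a a' * M := by positivity
      nlinarith
    | nil =>
      simp only [List.nil_append, List.length_nil, zero_add, Mf]
      have h1 := hC.2 a a' _ ((C + 2) ^ E₂.length * M) (Mg_cont_head V hb a E₂) fun h _ =>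
        Mg_bound0 hC (hb.cons h) a E₂ hM0 fun l _ _ => hM _
      have h2 : |V.av a' (fun h => Mg V a (fun l => b (h :: l)) E₂) -
          V.av a' fun h => Mg V a' (fun l => b (h :: l)) E₂| ≤
          (C + 2) ^ E₂.length * dist a a' * M := by
        rw [← V.sub a' _ _ (Mg_cont_head V hb a E₂) (Mg_cont_head V hb a' E₂)]
        exact V.bound a' _ _ ((Mg_cont_head V hb a E₂).sub (Mg_cont_head V hb a' E₂)) fun h _ =>
          Mg_lip0 hC (hb.cons h) a a' E₂ hM0 fun l => hM _
      have h3 := abs_le.1 h1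
      have h4 := abs_le.1 h2
      have h5 : 0 ≤ (C + 2) ^ E₂.length * dist a a' * M := by positivity
      rw [pow_succ, abs_le]
      constructor <;> nlinarith

end Pool.Agent.Helper17.BR
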